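import Pool.Agent.Helper83.WC.StB

/-!
# Project WC, module Abs: the sum over disjoint stopping intervals
-/

set_option autoImplicit false

open MeasureTheory Set Filter Topology
open scoped ENNReal

noncomputable section

namespace Pool.Agent.Helper83.WC

/-- the points with large `b` -/
theorem Abs_two (S : Finset ℝ) (ρ b : ℝ → ℝ) (l L k : ℝ) (hl : 0 < l) (hk : 0 < k)
    (h0 : ∀ x ∈ S, 0 < ρ x) (h1 : ∀ x ∈ S, k * Real.sqrt l * ρ x ≤ b x)
    (h2 : ∑ x ∈ S, b x ≤ L * Real.sqrt (10 * ∑ x ∈ S, ρ x)) :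
    ∑ x ∈ S, l * ρ x ≤ 10 * L ^ 2 / k ^ 2 := by
  rw [← Finset.mul_sum]
  set R : ℝ := ∑ x ∈ S, ρ x with hR
  have hR0 : 0 ≤ R := Finset.sum_nonneg fun x hx => (h0 x hx).le
  have h3 : k * Real.sqrt l * R ≤ L * Real.sqrt (10 * R) := by
    rw [hR, Finset.mul_sum]
    exact (Finset.sum_le_sum h1).trans h2
  have hk2 : 0 < k ^ 2 := by positivity
  rw [le_div_iff₀ hk2]
  rcases hR0.eq_or_lt with h | h
  · rw [← h]
    have : 0 ≤ 10 * L ^ 2 := by positivity
    simpa using this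
  · have h4 : 0 ≤ k * Real.sqrt l * R := by positivity
    have h5 : (k * Real.sqrt l * R) ^ 2 ≤ (L * Real.sqrt (10 * R)) ^ 2 :=
      pow_le_pow_left₀ h4 h3 2
    have h6 : (k * Real.sqrt l * R) ^ 2 = k ^ 2 * l * R ^ 2 := by
      rw [mul_pow, mul_pow, Real.sq_sqrt hl.le]
    have h7 : (L * Real.sqrt (10 * R)) ^ 2 = L ^ 2 * (10 * R) := by
      rw [mul_pow, Real.sq_sqrt (by positivity)]
    rw [h6, h7] at h5
    have h8 : (l * R * k ^ 2) * R ≤ (10 * L ^ 2) * R := by nlinarith [h5]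
    exact le_of_mul_le_mul_right h8 h

/-- the points with small `b` -/
theorem Abs_three {ρ g b l A k : ℝ} (hl : 0 < l) (hA : 0 < A) (hk : 0 < k) (hρ : 0 < ρ)
    (hg : 0 ≤ g) (hb : b ≤ k * Real.sqrt l * ρ) (h : l * ρ ≤ A * (Real.sqrt (g / (2 * ρ)) * b)) :
    l * ρ ≤ A ^ 2 * k ^ 2 * g := by
  have hs : 0 < Real.sqrt l := Real.sqrt_pos.2 hl
  have hl2 : Real.sqrt l * Real.sqrt l = l := Real.mul_self_sqrt hl.le
  have h1 : l * ρ ≤ A * (Real.sqrt (g / (2 * ρ)) * (k * Real.sqrt l * ρ)) :=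
    h.trans (mul_le_mul_of_nonneg_left (mul_le_mul_of_nonneg_left hb (Real.sqrt_nonneg _)) hA.le)
  have h2 : Real.sqrt l * (Real.sqrt l * ρ) ≤
      (A * k * Real.sqrt (g / (2 * ρ))) * (Real.sqrt l * ρ) := by
    calc Real.sqrt l * (Real.sqrt l * ρ) = l * ρ := by rw [← mul_assoc, hl2]
      _ ≤ _ := h1
      _ = _ := by ring
  have h3 : Real.sqrt l ≤ A * k * Real.sqrt (g / (2 * ρ)) :=
    le_of_mul_le_mul_right h2 (mul_pos hs hρ)
  have h4 : Real.sqrt l ^ 2 ≤ (A * k * Real.sqrt (g / (2 * ρ))) ^ 2 :=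
    pow_le_pow_left₀ hs.le h3 2
  have h5 : 0 ≤ g / (2 * ρ) := div_nonneg hg (by positivity)
  rw [Real.sq_sqrt hl.le, mul_pow, Real.sq_sqrt h5] at h4
  have h6 : l * ρ ≤ (A * k) ^ 2 * (g / (2 * ρ)) * ρ := mul_le_mul_of_nonneg_right h4 hρ.le
  have h7 : (A * k) ^ 2 * (g / (2 * ρ)) * ρ = A ^ 2 * k ^ 2 * g / 2 := by
    field_simp
  rw [h7] at h6
  have h8 : 0 ≤ A ^ 2 * k ^ 2 * g := by positivity
  linarith

theorem wAbs : StAbs := by
  classical
  intro S ρ g b F l A L ε k hl hA hL hε hk hS hg hF hb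
  set S2 : Finset ℝ := S.filter (fun x => A * F x < l * ρ x ∧ k * Real.sqrt l * ρ x < b x)
    with hS2
  have hsub : S2 ⊆ S := Finset.filter_subset _ _
  have h2 := Abs_two S2 ρ b l L k hl hk (fun x hx => (hS x (hsub hx)).1)
    (fun x hx => (Finset.mem_filter.1 hx).2.2.le) (hb S2 hsub)
  have hpt : ∀ x ∈ S, l * ρ x ≤ A * F x + (if A * F x < l * ρ x ∧ k * Real.sqrt l * ρ x < b x
      then l * ρ x else 0) + A ^ 2 * k ^ 2 * g x := by
    intro x hx
    obtain ⟨hρ, hg0, hb0, hF0, hineq⟩ := hS x hx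
    have hAF : 0 ≤ A * F x := mul_nonneg hA.le hF0
    have hgg : 0 ≤ A ^ 2 * k ^ 2 * g x := by positivity
    split_ifs with hc
    · linarith
    · by_cases h1 : A * F x < l * ρ x
      · have hb1 : b x ≤ k * Real.sqrt l * ρ x := by
          by_contra hcon
          exact hc ⟨h1, not_le.1 hcon⟩
        have h3 : l * ρ x ≤ A * (Real.sqrt (g x / (2 * ρ x)) * b x) := by
          have h4 : A * (Real.sqrt (g x / (2 * ρ x)) * b x + F x) =
            A * (Real.sqrt (g x / (2 * ρ x)) * b x) + A * F x := by ring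
          rw [h4] at hineq
          linarith
        have h5 := Abs_three hl hA hk hρ hg0 hb1 h3
        linarith
      · linarith
  calc ∑ x ∈ S, l * ρ x
      ≤ ∑ x ∈ S, (A * F x + (if A * F x < l * ρ x ∧ k * Real.sqrt l * ρ x < b x
          then l * ρ x else 0) + A ^ 2 * k ^ 2 * g x) := Finset.sum_le_sum hpt
    _ = A * ∑ x ∈ S, F x + ∑ x ∈ S2, l * ρ x + A ^ 2 * k ^ 2 * ∑ x ∈ S, g x := by
        rw [Finset.sum_add_distrib, Finset.sum_add_distrib, ← Finset.mul_sum, ← Finset.mul_sum,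
          hS2, Finset.sum_filter]
    _ ≤ A * ε + 10 * L ^ 2 / k ^ 2 + A ^ 2 * k ^ 2 * ε := by
        have h3 : A * ∑ x ∈ S, F x ≤ A * ε := mul_le_mul_of_nonneg_left hF hA.le
        have h4 : A ^ 2 * k ^ 2 * ∑ x ∈ S, g x ≤ A ^ 2 * k ^ 2 * ε :=
          mul_le_mul_of_nonneg_left hg (by positivity)
        linarith

end Pool.Agent.Helper83.WC
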