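import Pool.Agent.Helper83.WC.St

/-! # Project WC, module Alg -/

set_option autoImplicit false

open MeasureTheory Set Filter Topology
open scoped ENNReal

noncomputable section

namespace Pool.Agent.Helper83.WC

theorem Alg_rp {x : ℝ} (hx : 0 ≤ x) : x ^ (3 / 2 : ℝ) = x * Real.sqrt x := by
  rcases hx.eq_or_lt with h | h
  · rw [← h, Real.zero_rpow (by norm_num), zero_mul]
  · rw [Real.sqrt_eq_rpow, show (3 / 2 : ℝ) = 1 + 1 / 2 by norm_num, Real.rpow_add h,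
      Real.rpow_one]

/-- from `ρ⁴ ≤ C (a + 2 y³ ρ)` -/
theorem Alg_quart {C a y ρ K z : ℝ} (hC : 0 < C) (hy : 0 ≤ y) (hρ : 0 ≤ ρ)
    (hK : 0 < K) (hK3 : 4 * C ≤ K ^ 3) (hz : 0 ≤ z) (hz4 : z ^ 4 = 2 * C * a)
    (h : ρ ^ 4 ≤ C * (a + 2 * y ^ 3 * ρ)) : ρ ≤ K * y + z := by
  by_contra hlt
  push Not at hlt
  have h1 : K * y < ρ := by linarith
  have h2 : z < ρ := by have := mul_nonneg hK.le hy; linarith
  have h3 : (K * y) ^ 3 ≤ ρ ^ 3 := pow_le_pow_left₀ (by positivity) h1.le 3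
  have h4 : 4 * C * y ^ 3 ≤ ρ ^ 3 := by
    have : 4 * C * y ^ 3 ≤ K ^ 3 * y ^ 3 := mul_le_mul_of_nonneg_right hK3 (by positivity)
    calc _ ≤ _ := this
      _ = (K * y) ^ 3 := by ring
      _ ≤ _ := h3
  have h5 : 4 * C * y ^ 3 * ρ ≤ ρ ^ 3 * ρ := mul_le_mul_of_nonneg_right h4 hρ
  have h6 : z ^ 4 < ρ ^ 4 := pow_lt_pow_left₀ h2 hz (by norm_num)
  nlinarith

theorem Alg_young {y z L : ℝ} (hy : 0 ≤ y) (hz : 0 ≤ z) (hL : 0 < L) :
    y ^ 3 * z ≤ L * y ^ 4 + z ^ 4 / L ^ 3 := by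
  rcases le_total z (L * y) with h | h
  · have h1 : y ^ 3 * z ≤ y ^ 3 * (L * y) := mul_le_mul_of_nonneg_left h (by positivity)
    have h2 : 0 ≤ z ^ 4 / L ^ 3 := by positivity
    calc _ ≤ _ := h1
      _ = L * y ^ 4 := by ring
      _ ≤ _ := by linarith
  · have h1 : (L * y) ^ 3 ≤ z ^ 3 := pow_le_pow_left₀ (by positivity) h 3
    have h2 : y ^ 3 * z ≤ z ^ 4 / L ^ 3 := by
      rw [le_div_iff₀ (by positivity)]
      calc y ^ 3 * z * L ^ 3 = (L * y) ^ 3 * z := by ring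
        _ ≤ z ^ 3 * z := mul_le_mul_of_nonneg_right h1 hz
        _ = z ^ 4 := by ring
    have h3 : 0 ≤ L * y ^ 4 := by positivity
    linarith

theorem wAlg : StAlg := by
  intro C ν hC hν
  set K : ℝ := 1 + 24 * C with hK
  have hK0 : 0 < K := by positivity
  have hK1 : 1 ≤ K := by rw [hK]; linarith
  have hK3 : 24 * C ≤ K ^ 3 := by
    have : K ≤ K ^ 3 := by nlinarith [mul_nonneg (sub_nonneg.2 hK1) hK0.le]
    rw [hK] at this ⊢
    linarith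
  refine ⟨24 * K + 2 * ν + 1, by positivity, ?_⟩
  intro s t r G0 F w Γ hr hst htr hG0 hF hw hΓ hi1 hI hi2 hae
  set Y : ℝ := ∫ τ in s..t, Real.sqrt (w τ) * Γ τ ^ (3 / 2 : ℝ) with hY
  have hX0 : 0 ≤ r ^ (4 / 3 : ℝ) * G0 ^ (10 / 3 : ℝ) := by positivity
  rcases hG0.eq_or_lt with h0 | h0
  · rw [← h0, zero_mul]
    rw [← h0] at hX0
    positivity
  have hΓ0 : ∀ τ, 0 < Γ τ := fun τ => h0.trans_le (hΓ τ)
  have hY0 : 0 ≤ Y := by
    rw [hY]
    refine intervalIntegral.integral_nonneg hst.le fun τ _ => ?_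
    exact mul_nonneg (Real.sqrt_nonneg _) (Real.rpow_nonneg (hΓ0 τ).le _)
  -- the cube root
  set y : ℝ := (r * G0) ^ (1 / 3 : ℝ) with hy
  have hy0 : 0 ≤ y := by positivity
  have hy3 : y ^ 3 = r * G0 := by
    rw [hy, ← Real.rpow_natCast, ← Real.rpow_mul (by positivity)]
    norm_num
  have hy4 : y ^ 4 * G0 ^ 2 = r ^ (4 / 3 : ℝ) * G0 ^ (10 / 3 : ℝ) := by
    rw [hy, ← Real.rpow_natCast, ← Real.rpow_mul (by positivity),
      Real.mul_rpow hr.le h0.le, mul_assoc, ← Real.rpow_natCast, ← Real.rpow_add h0]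
    norm_num
  set a : ℝ := 2 * ν * r + F / G0 ^ 2 + Y / G0 with ha
  have ha0 : 0 ≤ a := by positivity
  set z : ℝ := (2 * C * a) ^ (1 / 4 : ℝ) with hz
  have hz0 : 0 ≤ z := by positivity
  have hz4 : z ^ 4 = 2 * C * a := by
    rw [hz, ← Real.rpow_natCast, ← Real.rpow_mul (by positivity)]
    norm_num
  set M : ℝ := K * y + z with hM
  have hM0 : 0 ≤ M := by positivity
  have hpt : ∀ᵐ σ ∂(volume.restrict (Ioo s t)),
      Real.sqrt (w σ) * Γ σ ^ (3 / 2 : ℝ) ≤ M * Γ σ ^ 2 := by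
    filter_upwards [hae] with σ hσ
    have hg := hΓ0 σ
    set q : ℝ := Real.sqrt (Γ σ) with hq
    have hq0 : 0 < q := Real.sqrt_pos.2 hg
    have hq2 : q ^ 2 = Γ σ := Real.sq_sqrt hg.le
    set ρ : ℝ := Real.sqrt (w σ) / q with hρ
    have hρ0 : 0 ≤ ρ := by positivity
    have hρq : Real.sqrt (w σ) = ρ * q := by rw [hρ]; field_simp
    have hw4 : w σ ^ 2 = ρ ^ 4 * Γ σ ^ 2 := by
      have h1 : w σ = Real.sqrt (w σ) ^ 2 := (Real.sq_sqrt (hw σ)).symm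
      rw [h1, hρq, ← hq2]
      ring
    have h32 : Real.sqrt (w σ) * Γ σ ^ (3 / 2 : ℝ) = ρ * Γ σ ^ 2 := by
      rw [Alg_rp hg.le, hρq, ← hq, ← hq2]
      ring
    have hρM : ρ ≤ M := by
      refine Alg_quart hC hy0 hρ0 hK0 (by linarith) hz0 hz4 ?_
      rw [hw4] at hσ
      have e1 : (t - s) * G0 * Real.sqrt (w σ) * Γ σ ^ (3 / 2 : ℝ) =
          (t - s) * G0 * (ρ * Γ σ ^ 2) := by rw [← h32]; ring
      rw [e1] at hσ
      have hΓ2 : 0 < Γ σ ^ 2 := by positivity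
      have k1 : ν * (t - s) * Γ σ ^ 2 ≤ 2 * ν * r * Γ σ ^ 2 := by
        refine mul_le_mul_of_nonneg_right ?_ hΓ2.le
        nlinarith
      have k2 : F ≤ F / G0 ^ 2 * Γ σ ^ 2 := by
        have h1 : G0 ^ 2 ≤ Γ σ ^ 2 := pow_le_pow_left₀ h0.le (hΓ σ) 2
        calc F = F / G0 ^ 2 * G0 ^ 2 := by field_simp
          _ ≤ _ := mul_le_mul_of_nonneg_left h1 (by positivity)
      have k3 : Γ σ * Y ≤ Y / G0 * Γ σ ^ 2 := by
        have h1 : G0 * Γ σ ≤ Γ σ ^ 2 := by nlinarith [hΓ σ]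
        calc Γ σ * Y = Y / G0 * (G0 * Γ σ) := by field_simp
          _ ≤ _ := mul_le_mul_of_nonneg_left h1 (by positivity)
      have k4 : (t - s) * G0 * (ρ * Γ σ ^ 2) ≤ 2 * y ^ 3 * ρ * Γ σ ^ 2 := by
        rw [hy3]
        have h1 : (t - s) * G0 ≤ 2 * r * G0 := mul_le_mul_of_nonneg_right htr h0.le
        have h2 := mul_le_mul_of_nonneg_right h1 (show 0 ≤ ρ * Γ σ ^ 2 by positivity)
        linarith
      have k5 : ρ ^ 4 * Γ σ ^ 2 ≤ C * (a + 2 * y ^ 3 * ρ) * Γ σ ^ 2 := by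
        have k6 : C * (a + 2 * y ^ 3 * ρ) * Γ σ ^ 2 = C * ((a + 2 * y ^ 3 * ρ) * Γ σ ^ 2) := by ring
        rw [k6]
        refine hσ.trans (mul_le_mul_of_nonneg_left ?_ hC.le)
        rw [ha]
        linarith
      exact le_of_mul_le_mul_right k5 hΓ2
    rw [h32]
    exact mul_le_mul_of_nonneg_right hρM (by positivity)
  have hYM : Y ≤ M * (6 * r * G0 ^ 2) := by
    have e1 : Y = ∫ τ in Ioo s t, Real.sqrt (w τ) * Γ τ ^ (3 / 2 : ℝ) := by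
      rw [hY, intervalIntegral.integral_of_le hst.le, integral_Ioc_eq_integral_Ioo]
    have e2 : ∫ τ in s..t, Γ τ ^ 2 = ∫ τ in Ioo s t, Γ τ ^ 2 := by
      rw [intervalIntegral.integral_of_le hst.le, integral_Ioc_eq_integral_Ioo]
    rw [e1]
    calc ∫ τ in Ioo s t, Real.sqrt (w τ) * Γ τ ^ (3 / 2 : ℝ)
        ≤ ∫ τ in Ioo s t, M * Γ τ ^ 2 := integral_mono_ae hi2 (hi1.const_mul M) hpt
      _ = M * ∫ τ in Ioo s t, Γ τ ^ 2 := integral_const_mul _ _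
      _ ≤ M * (6 * r * G0 ^ 2) := by
          rw [← e2]
          exact mul_le_mul_of_nonneg_left hI hM0
  rw [← hy4]
  set P : ℝ := G0 * Y with hP
  have hP1 : P ≤ 6 * (y ^ 3 * M) * G0 ^ 2 := by
    have := mul_le_mul_of_nonneg_left hYM h0.le
    calc P ≤ G0 * (M * (6 * r * G0 ^ 2)) := this
      _ = 6 * (r * G0 * M) * G0 ^ 2 := by ring
      _ = _ := by rw [hy3]
  have hyz := Alg_young hy0 hz0 hK0
  have haG : a * G0 ^ 2 = 2 * ν * r * G0 ^ 2 + F + P := by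
    rw [ha, hP]
    field_simp
  have hz5 : z ^ 4 / K ^ 3 * G0 ^ 2 ≤ (2 * ν * r * G0 ^ 2 + F + P) / 12 := by
    rw [← haG, hz4, div_mul_eq_mul_div, div_le_div_iff₀ (by positivity) (by norm_num)]
    have h1 : 0 ≤ a * G0 ^ 2 := by positivity
    nlinarith [mul_le_mul_of_nonneg_left hK3 h1]
  have hG2 : 0 ≤ G0 ^ 2 := by positivity
  have hP2 : P ≤ 6 * (K * y ^ 4) * G0 ^ 2 + 6 * (K * y ^ 4) * G0 ^ 2 +
      6 * ((2 * ν * r * G0 ^ 2 + F + P) / 12) := by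
    have h1 : y ^ 3 * M = K * y ^ 4 + y ^ 3 * z := by rw [hM]; ring
    rw [h1] at hP1
    have h2 := mul_le_mul_of_nonneg_right hyz hG2
    nlinarith
  have hX1 : 0 ≤ y ^ 4 * G0 ^ 2 := by positivity
  have hrG : 0 ≤ r * G0 ^ 2 := by positivity
  have hP3 : P ≤ 24 * K * (y ^ 4 * G0 ^ 2) + 2 * ν * (r * G0 ^ 2) + F := by
    have h3 : P ≤ 12 * (K * (y ^ 4 * G0 ^ 2)) + (2 * ν * (r * G0 ^ 2) + F + P) / 2 := by
      calc P ≤ _ := hP2
        _ = _ := by ring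
    have h4 : 0 ≤ ν * (r * G0 ^ 2) := by positivity
    linarith
  refine hP3.trans ?_
  have c1 : 0 ≤ 24 * K * (r * G0 ^ 2) := by positivity
  have c2 : 0 ≤ 2 * ν * F := by positivity
  have c3 : 0 ≤ 24 * K * F := by positivity
  have c4 : 0 ≤ (2 * ν + 1) * (y ^ 4 * G0 ^ 2) := by positivity
  nlinarith

end Pool.Agent.Helper83.WC
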