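import Pool.Agent.Helper83.WC.StB
import Pool.Agent.Helper7.NT.AeL
import Pool.Agent.Helper7.NT.HoT
import Pool.Agent.Helper7.NT.Sob

/-! Project WC, Bqi: the `L⁴` norm as a function of time -/

set_option autoImplicit false

open MeasureTheory Set Filter Topology
open scoped ENNReal

noncomputable section

namespace Pool.Agent.Helper83.WC

open Pool.Agent.Helper52.NSE
open Pool.Agent.Helper7.NT (sobolev ael_six hoT_meas hos_two hos_six)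

theorem Bqi_interp {μ : Measure E3} {w : E3 → E3} (hw : AEStronglyMeasurable w μ) :
    eLpNorm w 4 μ ^ 4 ≤ eLpNorm w 2 μ * eLpNorm w 6 μ ^ 3 := by
  have h4 : eLpNorm w 4 μ = (∫⁻ x, ‖w x‖ₑ ^ (4 : ℝ) ∂μ) ^ (1 / 4 : ℝ) := by
    rw [eLpNorm_eq_lintegral_rpow_enorm_toReal (by norm_num) (by norm_num)]
    norm_num
  have e4 : eLpNorm w 4 μ ^ 4 = ∫⁻ x, ‖w x‖ₑ ^ (4 : ℝ) ∂μ := by
    rw [h4, ← ENNReal.rpow_natCast, ← ENNReal.rpow_mul]
    norm_num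
  have e6 : eLpNorm w 6 μ ^ 3 = (∫⁻ x, ‖w x‖ₑ ^ (6 : ℝ) ∂μ) ^ (1 / 2 : ℝ) := by
    rw [hos_six, ← ENNReal.rpow_natCast, ← ENNReal.rpow_mul]
    norm_num
  rw [e4, e6, hos_two]
  have hc : (2 : ℝ).HolderConjugate 2 := Real.HolderConjugate.two_two
  have h1 := ENNReal.lintegral_mul_le_Lp_mul_Lq μ hc hw.enorm (hw.enorm.pow_const (3 : ℝ))
  have e1 : ∀ x, ‖w x‖ₑ ^ (4 : ℝ) = ((fun x => ‖w x‖ₑ) * fun x => ‖w x‖ₑ ^ (3 : ℝ)) x := by
    intro x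
    show ‖w x‖ₑ ^ (4 : ℝ) = ‖w x‖ₑ * ‖w x‖ₑ ^ (3 : ℝ)
    nth_rewrite 2 [← ENNReal.rpow_one ‖w x‖ₑ]
    rw [← ENNReal.rpow_add_of_nonneg _ _ (by norm_num) (by norm_num)]
    norm_num
  have e2 : ∀ x, (‖w x‖ₑ ^ (3 : ℝ)) ^ (2 : ℝ) = ‖w x‖ₑ ^ (6 : ℝ) := by
    intro x
    rw [← ENNReal.rpow_mul]
    norm_num
  simp only [e2] at h1
  calc ∫⁻ x, ‖w x‖ₑ ^ (4 : ℝ) ∂μ = ∫⁻ x, ((fun x => ‖w x‖ₑ) * fun x => ‖w x‖ₑ ^ (3 : ℝ)) x ∂μ :=
        lintegral_congr e1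
    _ ≤ _ := h1

theorem Bqi_real {a k C m : ℝ} (hk : 0 ≤ k) (hC : 0 ≤ C) (hm : 0 ≤ m)
    (h : a ^ 4 ≤ k * (C * m) ^ 3) : a ^ 2 ≤ (1 + k * C ^ 3) * (1 + m ^ 2) := by
  have hB : 0 ≤ k * C ^ 3 := by positivity
  have h1 : m ^ 3 ≤ (1 + m ^ 2) ^ 2 := by
    rcases le_total m 1 with h2 | h2
    · have : m ^ 3 ≤ 1 := pow_le_one₀ hm h2
      nlinarith [sq_nonneg m, sq_nonneg (m ^ 2)]
    · have : m ^ 3 ≤ m ^ 4 := pow_le_pow_right₀ h2 (by norm_num)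
      nlinarith [sq_nonneg m]
  have h2 : (a ^ 2) ^ 2 ≤ ((1 + k * C ^ 3) * (1 + m ^ 2)) ^ 2 := by
    calc (a ^ 2) ^ 2 = a ^ 4 := by ring
      _ ≤ k * (C * m) ^ 3 := h
      _ = (k * C ^ 3) * m ^ 3 := by ring
      _ ≤ (1 + k * C ^ 3) ^ 2 * (1 + m ^ 2) ^ 2 := by
          have : k * C ^ 3 ≤ (1 + k * C ^ 3) ^ 2 := by nlinarith
          exact mul_le_mul this h1 (by positivity) (by positivity)
      _ = _ := by ring
  exact (pow_le_pow_iff_left₀ (by positivity) (by positivity) two_ne_zero).1 h2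

theorem wBqi : StBqi := by
  intro Ω ν T u₀ f u G hO hb h
  obtain ⟨C, hC, hS⟩ := sobolev (Ω := Ω) hO hb
  obtain ⟨K, hK⟩ := h.bound
  have hpt : ∀ᵐ τ ∂(volume.restrict (Icc 0 T)), eLpNorm (u τ) 4 (volume.restrict Ω) < ⊤ ∧
      nq Ω u τ ^ 2 ≤ (1 + Real.sqrt K * C ^ 3) * (1 + gsq Ω (G τ)) := by
    filter_upwards [h.grad_mem, ae_restrict_mem measurableSet_Icc] with τ hτ hτI
    have hw2 : MemLp (u τ) 2 (volume.restrict Ω) := hτ.toL2.memLp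
    obtain ⟨hw6, hw6'⟩ := ael_six hS hC hτ
    have hi := Bqi_interp hw2.1
    have h2 : eLpNorm (u τ) 2 (volume.restrict Ω) ≤ ENNReal.ofReal (Real.sqrt K) := by
      rw [nm_eq hw2]
      exact ENNReal.ofReal_le_ofReal (Real.sqrt_le_sqrt (hK τ hτI))
    have h6 := hS _ _ hτ
    have h3 : eLpNorm (u τ) 4 (volume.restrict Ω) ^ 4 ≤
        ENNReal.ofReal (Real.sqrt K * (C * Real.sqrt (gsq Ω (G τ))) ^ 3) := by
      refine hi.trans ?_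
      rw [ENNReal.ofReal_mul (Real.sqrt_nonneg _), ENNReal.ofReal_pow (by positivity)]
      gcongr
    have hlt : eLpNorm (u τ) 4 (volume.restrict Ω) < ⊤ := by
      by_contra htop
      rw [not_lt, top_le_iff] at htop
      rw [htop] at h3
      have : (⊤ : ℝ≥0∞) ^ 4 = ⊤ := by simp
      rw [this, top_le_iff] at h3
      exact ENNReal.ofReal_ne_top h3
    refine ⟨hlt, ?_⟩
    have h4 : nq Ω u τ ^ 4 ≤ Real.sqrt K * (C * Real.sqrt (gsq Ω (G τ))) ^ 3 := by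
      unfold nq
      rw [← ENNReal.toReal_pow]
      exact ENNReal.toReal_le_of_le_ofReal (by positivity) h3
    have h5 := Bqi_real (a := nq Ω u τ) (Real.sqrt_nonneg K) hC.le
      (Real.sqrt_nonneg _) h4
    rwa [Real.sq_sqrt (gsq_nonneg _ _)] at h5
  have hm : AEStronglyMeasurable (nq Ω u) (volume.restrict (Icc 0 T)) :=
    (hoT_meas h (q := 4) (by norm_num) (by norm_num)).ennreal_toReal.aestronglyMeasurable
  refine ⟨hm, ?_, hpt.mono fun τ hτ => hτ.1⟩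
  have hg : IntegrableOn (fun τ => (1 + Real.sqrt K * C ^ 3) * (1 + gsq Ω (G τ))) (Icc 0 T) := by
    have h1 : IntegrableOn (fun τ => gsq Ω (G τ)) (Icc 0 T) := h.grad_int
    have h0 : IntegrableOn (fun _ : ℝ => (1 : ℝ)) (Icc 0 T) := integrableOn_const (by
      rw [Real.volume_Icc]; exact ENNReal.ofReal_ne_top)
    exact (h0.add h1).const_mul _
  refine Integrable.mono' hg (hm.pow 2) ?_
  filter_upwards [hpt] with τ hτ
  rw [Real.norm_of_nonneg (sq_nonneg _)]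
  exact hτ.2

end Pool.Agent.Helper83.WC
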