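import Pool.Agent.Helper83.WC.St

/-! # Project WC, module Cel -/

set_option autoImplicit false

open MeasureTheory Set Filter Topology
open scoped ENNReal

noncomputable section

namespace Pool.Agent.Helper83.WC

theorem wCel (h₁ : StMx) : StCel := by
  intro T D g F A hT hu hn hg hF hig hiF hA hW c r hr hc hcT
  obtain ⟨_, hmono, hle, _, hlast⟩ := h₁ T D hT hu hn
  have hg0 : 0 ≤ ∫ τ in (c - 2 * r)..(c + r), g τ :=
    intervalIntegral.integral_nonneg (by linarith) fun τ _ => hg τ
  have hF0 : 0 ≤ ∫ τ in (c - 2 * r)..(c + r), F τ :=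
    intervalIntegral.integral_nonneg (by linarith) fun τ _ => hF τ
  have hm : Mx D c ≤ Mx D (c + r) :=
    hmono ⟨by linarith, by linarith⟩ ⟨by linarith, hcT⟩ (by linarith)
  rcases hm.eq_or_lt with h | h
  · rw [← h, sub_self]
    positivity
  · obtain ⟨t, ht, hDt, _⟩ := hlast c (c + r) (by linarith) (by linarith) hcT h
    obtain ⟨s, hs, hDs⟩ := hW t r hr (by linarith [ht.1]) (by linarith [ht.2])
    have hs0 : 0 ≤ s := by linarith [hs.1, ht.1]
    have hsc : s ≤ c := by linarith [hs.2, ht.2]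
    have h1 : D s ≤ Mx D c :=
      (hle s ⟨hs0, by linarith⟩).trans (hmono ⟨hs0, by linarith⟩ ⟨by linarith, by linarith⟩ hsc)
    have sub : ∀ {k : ℝ → ℝ}, (∀ x, 0 ≤ k x) → IntegrableOn k (Icc 0 T) →
        ∫ τ in (t - 2 * r)..t, k τ ≤ ∫ τ in (c - 2 * r)..(c + r), k τ := by
      intro k hk hik
      rw [intervalIntegral.integral_of_le (by linarith), intervalIntegral.integral_of_le (by linarith)]
      refine setIntegral_mono_set (hik.mono_set ?_) (ae_of_all _ fun x => hk x) ?_
      · intro x hx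
        exact ⟨by linarith [hx.1], by linarith [hx.2]⟩
      · refine (show Ioc (t - 2 * r) t ⊆ Ioc (c - 2 * r) (c + r) from ?_).eventuallyLE
        intro x hx
        exact ⟨by linarith [hx.1, ht.1], by linarith [hx.2, ht.2]⟩
    have i1 := sub hg hig
    have i2 := sub hF hiF
    have g0 : 0 ≤ ∫ τ in (t - 2 * r)..t, g τ :=
      intervalIntegral.integral_nonneg (by linarith) fun τ _ => hg τ
    have i3 : (∫ τ in (t - 2 * r)..t, g τ) ^ (5 / 3 : ℝ) * r ^ (-(1 / 3) : ℝ) ≤
        (∫ τ in (c - 2 * r)..(c + r), g τ) ^ (5 / 3 : ℝ) * r ^ (-(1 / 3) : ℝ) :=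
      mul_le_mul_of_nonneg_right (Real.rpow_le_rpow g0 i1 (by norm_num)) (by positivity)
    have i4 := mul_le_mul_of_nonneg_left (add_le_add i3 i2) hA.le
    linarith

end Pool.Agent.Helper83.WC
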