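import Pool.Agent.Helper83.WC.St

/-! # Project WC, module Cnt -/

set_option autoImplicit false

open MeasureTheory Set Filter Topology
open scoped ENNReal

noncomputable section

namespace Pool.Agent.Helper83.WC

theorem Cnt_num {B l : ℝ} {N : ℕ} (hB : 0 ≤ B) (hl : 0 < l)
    (h : (N : ℝ) * l ^ (3 / 5 : ℝ) ≤ B * (N : ℝ) ^ (1 / 5 : ℝ)) :
    (N : ℝ) ≤ B ^ (5 / 4 : ℝ) * l ^ (-(3 / 4) : ℝ) := by
  rcases Nat.eq_zero_or_pos N with h0 | h0
  · rw [h0]
    simp only [Nat.cast_zero]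
    positivity
  · have hN : (0 : ℝ) < N := by exact_mod_cast h0
    have h1 : (N : ℝ) ^ (4 / 5 : ℝ) ≤ B * l ^ (-(3 / 5) : ℝ) := by
      have e1 : (N : ℝ) = (N : ℝ) ^ (4 / 5 : ℝ) * (N : ℝ) ^ (1 / 5 : ℝ) := by
        rw [← Real.rpow_add hN]
        norm_num
      have h2 : (N : ℝ) ^ (4 / 5 : ℝ) * l ^ (3 / 5 : ℝ) ≤ B := by
        have hp : 0 < (N : ℝ) ^ (1 / 5 : ℝ) := Real.rpow_pos_of_pos hN _
        refine le_of_mul_le_mul_right ?_ hp
        calc (N : ℝ) ^ (4 / 5 : ℝ) * l ^ (3 / 5 : ℝ) * (N : ℝ) ^ (1 / 5 : ℝ)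
            = ((N : ℝ) ^ (4 / 5 : ℝ) * (N : ℝ) ^ (1 / 5 : ℝ)) * l ^ (3 / 5 : ℝ) := by ring
          _ = (N : ℝ) * l ^ (3 / 5 : ℝ) := by rw [← e1]
          _ ≤ _ := h
      rw [Real.rpow_neg hl.le, ← div_eq_mul_inv, le_div_iff₀ (Real.rpow_pos_of_pos hl _)]
      exact h2
    calc (N : ℝ) = ((N : ℝ) ^ (4 / 5 : ℝ)) ^ (5 / 4 : ℝ) := by
          rw [← Real.rpow_mul hN.le]
          norm_num
      _ ≤ (B * l ^ (-(3 / 5) : ℝ)) ^ (5 / 4 : ℝ) :=
          Real.rpow_le_rpow (by positivity) h1 (by norm_num)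
      _ = B ^ (5 / 4 : ℝ) * l ^ (-(3 / 4) : ℝ) := by
          rw [Real.mul_rpow hB (by positivity), ← Real.rpow_mul hl.le]
          norm_num

theorem wCnt : StCnt := by
  intro s m B x hB hx hm hS
  classical
  have h1 : ∀ i ∈ s, m i = ∫ l in Ioc 0 x, (Iio (m i)).indicator (fun _ => (1 : ℝ)) l := by
    intro i hi
    rw [setIntegral_indicator measurableSet_Iio]
    have e : Ioc 0 x ∩ Iio (m i) = Ioo 0 (m i) := by
      ext l
      simp only [mem_inter_iff, mem_Ioc, mem_Iio, mem_Ioo]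
      constructor
      · rintro ⟨⟨a, _⟩, b⟩
        exact ⟨a, b⟩
      · rintro ⟨a, b⟩
        exact ⟨⟨a, b.le.trans (hm i hi).2⟩, b⟩
    rw [e]
    simp [(hm i hi).1]
  have hint : ∀ i ∈ s, IntegrableOn (fun l => (Iio (m i)).indicator (fun _ => (1 : ℝ)) l)
      (Ioc 0 x) := by
    intro i _
    refine (integrableOn_const (by simp)).indicator measurableSet_Iio
  have hp : IntegrableOn (fun l : ℝ => B ^ (5 / 4 : ℝ) * l ^ (-(3 / 4) : ℝ)) (Ioc 0 x) := by
    have h2 : IntervalIntegrable (fun l : ℝ => l ^ (-(3 / 4) : ℝ)) volume 0 x :=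
      intervalIntegral.intervalIntegrable_rpow' (by norm_num)
    have h3 := (intervalIntegrable_iff_integrableOn_Ioc_of_le hx).1 h2
    exact h3.const_mul _
  calc ∑ i ∈ s, m i = ∑ i ∈ s, ∫ l in Ioc 0 x, (Iio (m i)).indicator (fun _ => (1 : ℝ)) l :=
        Finset.sum_congr rfl h1
    _ = ∫ l in Ioc 0 x, ∑ i ∈ s, (Iio (m i)).indicator (fun _ => (1 : ℝ)) l :=
        (integral_finsetSum _ hint).symm
    _ ≤ ∫ l in Ioc 0 x, B ^ (5 / 4 : ℝ) * l ^ (-(3 / 4) : ℝ) := by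
        refine setIntegral_mono_on (integrable_finsetSum _ hint) hp measurableSet_Ioc
          fun l hl => ?_
        rw [mem_Ioc] at hl
        have e1 : ∑ i ∈ s, (Iio (m i)).indicator (fun _ => (1 : ℝ)) l =
            ((s.filter (fun i => l < m i)).card : ℝ) := by
          rw [Finset.card_filter]
          push_cast
          refine Finset.sum_congr rfl fun i _ => ?_
          simp only [indicator, mem_Iio]
        rw [e1]
        refine Cnt_num hB hl.1 ?_
        refine le_trans ?_ (hS (s.filter (fun i => l < m i)) (Finset.filter_subset _ _))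
        rw [← nsmul_eq_mul, ← Finset.sum_const]
        refine Finset.sum_le_sum fun i hi => ?_
        rw [Finset.mem_filter] at hi
        exact Real.rpow_le_rpow hl.1.le hi.2.le (by norm_num)
    _ = B ^ (5 / 4 : ℝ) * ∫ l in (0 : ℝ)..x, l ^ (-(3 / 4) : ℝ) := by
        rw [integral_const_mul, intervalIntegral.integral_of_le hx]
    _ = 4 * B ^ (5 / 4 : ℝ) * x ^ (1 / 4 : ℝ) := by
        rw [integral_rpow (Or.inl (by norm_num))]
        have e2 : (-(3 / 4) + 1 : ℝ) = 1 / 4 := by norm_num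
        rw [e2, Real.zero_rpow (by norm_num)]
        ring

end Pool.Agent.Helper83.WC
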