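import Pool.Agent.Helper83.WC.StB

/-! Project WC, Den: a singular measure has infinite density at almost all of its points -/

set_option autoImplicit false

open MeasureTheory Set Filter Topology
open scoped ENNReal

noncomputable section

namespace Pool.Agent.Helper83.WC

theorem wDen : StDen := by
  intro μ Z hfin hZ hZ0 hμ
  have hsing : volume ⟂ₘ μ := ⟨Z, hZ, hZ0, hμ⟩
  have h0 : (volume : Measure ℝ).rnDeriv μ =ᵐ[μ] 0 :=
    (Measure.rnDeriv_eq_zero (volume : Measure ℝ) μ).2 hsing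
  have h1 := Besicovitch.ae_tendsto_rnDeriv (volume : Measure ℝ) μ
  filter_upwards [h0, h1] with x hx0 hx1
  intro l δ hl hδ
  rw [hx0] at hx1
  have hpos : (0 : ℝ≥0∞) < ENNReal.ofReal (1 / l) := by
    rw [ENNReal.ofReal_pos]
    positivity
  have h2 : ∀ᶠ r in 𝓝[>] (0 : ℝ), volume (Metric.closedBall x r) / μ (Metric.closedBall x r) <
      ENNReal.ofReal (1 / l) := hx1.eventually (gt_mem_nhds hpos)
  have h3 : ∀ᶠ r in 𝓝[>] (0 : ℝ), r ∈ Ioo 0 δ := Ioo_mem_nhdsGT hδ
  obtain ⟨r, hr1, hr2⟩ := (h2.and h3).exists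
  refine ⟨r, hr2, ?_⟩
  have hr0 : 0 < r := hr2.1
  have hvol : volume (Metric.closedBall x r) = ENNReal.ofReal (2 * r) := Real.volume_closedBall x r
  rw [hvol] at hr1
  have hne : ENNReal.ofReal (2 * r) ≠ 0 := by
    rw [Ne, ENNReal.ofReal_eq_zero, not_le]
    positivity
  rw [ENNReal.div_lt_iff (Or.inr hne) (Or.inr ENNReal.ofReal_ne_top)] at hr1
  have e1 : ENNReal.ofReal (2 * l * r) = ENNReal.ofReal l * ENNReal.ofReal (2 * r) := by
    rw [← ENNReal.ofReal_mul hl.le]
    congr 1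
    ring
  calc ENNReal.ofReal (2 * l * r) = ENNReal.ofReal l * ENNReal.ofReal (2 * r) := e1
    _ ≤ ENNReal.ofReal l * (ENNReal.ofReal (1 / l) * μ (Metric.closedBall x r)) := by
        gcongr
    _ = μ (Metric.closedBall x r) := by
        rw [← mul_assoc, ← ENNReal.ofReal_mul hl.le, mul_one_div_cancel hl.ne', ENNReal.ofReal_one,
          one_mul]

end Pool.Agent.Helper83.WC
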