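import Pool.Agent.Helper83.WC.St
import Pool.Agent.Helper7.NT.Fin

/-! # Project WC, module Fin -/

set_option autoImplicit false

open MeasureTheory Set Filter Topology
open scoped ENNReal

noncomputable section

namespace Pool.Agent.Helper83.WC

open Pool.Agent.Helper52.NSE (E3 MemH1s IsWeakSolution gradSq kin defect nm gsq
  IsSmoothBoundedDomain)
open Pool.Agent.Helper7.NT (Bf gp NoLoss)
open Pool.Agent.Helper60.EC (fn)
open Pool.Agent.Helper83.CR (DissipationCritical)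

theorem Fin_fn {Ω : Set E3} {ν T : ℝ} {u₀ : E3 → E3} {f u : ℝ → E3 → E3}
    {G : ℝ → Fin 3 → E3 → E3} (h : IsWeakSolution Ω ν T u₀ f u G) :
    IntegrableOn (fn Ω f) (Icc 0 T) := by
  have h1 : AEStronglyMeasurable (fn Ω f) (volume.restrict (Icc 0 T)) := by
    have h2 := h.force_int.aestronglyMeasurable
    exact Real.continuous_sqrt.comp_aestronglyMeasurable h2
  have h3 : IntegrableOn (fun t => 1 + ∫ x in Ω, ‖f t x‖ ^ 2) (Icc 0 T) :=
    (integrableOn_const (by simp)).add h.force_int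
  refine h3.mono' h1 (Filter.Eventually.of_forall fun t => ?_)
  have h4 : 0 ≤ ∫ x in Ω, ‖f t x‖ ^ 2 := integral_nonneg fun x => by positivity
  have h5 := Real.sq_sqrt h4
  have h6 : 0 ≤ fn Ω f t := Real.sqrt_nonneg _
  rw [Real.norm_of_nonneg h6]
  unfold fn
  nlinarith [Real.sqrt_nonneg (∫ x in Ω, ‖f t x‖ ^ 2),
    sq_nonneg (Real.sqrt (∫ x in Ω, ‖f t x‖ ^ 2) - 1)]

theorem wFin (h1 : StKK) (h2 : StWkA) (h3 : StRV) : StFin := by
  intro Ω ν T u₀ f u G hO hb hν h hN C hC hI t ht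
  have h0 : defect Ω ν f u G 0 = 0 := by
    unfold defect
    simp
  rcases eq_or_lt_of_le (ht.1.trans ht.2) with hT | hT
  · have : t = 0 := le_antisymm (ht.2.trans hT.symm.le) ht.1
    rw [this, h0]
  obtain ⟨A, hA, hw⟩ := h1 Ω ν T u₀ f u G hO hb hν h
  have hg0 : ∀ τ, 0 ≤ gradSq Ω (G τ) := fun τ => integral_nonneg fun x =>
    Finset.sum_nonneg fun i _ => by positivity
  have hf0 : ∀ τ, 0 ≤ fn Ω f τ := fun τ => Real.sqrt_nonneg _
  have hg : IntegrableOn (fun τ => gradSq Ω (G τ)) (Icc 0 T) := h.grad_int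
  have h4 := h3 T (defect Ω ν f u G) (fun τ => gradSq Ω (G τ))
    (fun τ => gradSq Ω (G τ) + fn Ω f τ) A C hT (fun x hx η hη => h.usc hx η hη)
    (fun s hs => Pool.Agent.Helper7.NT.noLoss_left h hν hs (by
      rcases hI s hs with h5 | h5
      · exact hN s hs (h2 Ω ν T u₀ f u G h s hs h5).2
      · exact hN s hs h5.2))
    (Pool.Agent.Helper7.NT.ae_left hO hb hν h) hg0 (fun τ => add_nonneg (hg0 τ) (hf0 τ)) hg
    (hg.add (Fin_fn h)) hA hw hC
    (fun s hs hsC => by
      rcases hI s hs with h5 | h5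
      · exact (h2 Ω ν T u₀ f u G h s hs h5).1
      · exact absurd h5.1 hsC) t ht
  have h5 := h.energy t ht
  rw [h0] at h4
  refine le_antisymm h4 ?_
  unfold defect
  linarith

end Pool.Agent.Helper83.WC
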