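import Pool.Agent.Helper83.WC.StB
import Pool.Agent.Helper83.WC.M_Fin
import Pool.Agent.Helper7.NU.Fin

/-! # Project WC, module Finp -/

set_option autoImplicit false

open MeasureTheory Set Filter Topology
open scoped ENNReal

noncomputable section

namespace Pool.Agent.Helper83.WC

open Pool.Agent.Helper52.NSE (E3 MemH1s IsWeakSolution gradSq kin defect nm gsq
  IsSmoothBoundedDomain lpNorm)
open Pool.Agent.Helper7.NT (Bf gp NoLoss gg gg_int)
open Pool.Agent.Helper7.NU (TypeISup)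
open Pool.Agent.Helper60.EC (fn)
open Pool.Agent.Helper83.CR (DissipationCritical)

/-- the integral over short intervals is small -/
theorem Finp_small {T t : ℝ} {h : ℝ → ℝ} (hh : IntegrableOn h (Icc 0 T)) (ht : t ∈ Ioc 0 T)
    {η : ℝ} (hη : 0 < η) :
    ∃ δ : ℝ, 0 < δ ∧ δ ≤ t ∧ ∀ s ∈ Icc (t - δ) t, |∫ τ in s..t, h τ| ≤ η := by
  have hT : 0 ≤ T := ht.1.le.trans ht.2
  have c1 : ContinuousOn (fun t => ∫ τ in (0)..t, h τ) (Icc 0 T) := by
    have := intervalIntegral.continuousOn_primitive_interval (μ := volume)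
      (f := h) (a := 0) (b := T) (by rw [uIcc_of_le hT]; exact hh)
    rwa [uIcc_of_le hT] at this
  obtain ⟨δ, hδ, hc⟩ := Metric.continuousWithinAt_iff.mp (c1 t ⟨ht.1.le, ht.2⟩) _ hη
  refine ⟨min (δ / 2) t, lt_min (by linarith) ht.1, min_le_right _ _, fun s hs => ?_⟩
  have hs0 : 0 ≤ s := by linarith [hs.1, min_le_right (δ / 2) t]
  have hs1 : s ≤ T := hs.2.trans ht.2
  have h1 := hc (x := s) ⟨hs0, hs1⟩ (by
    rw [Real.dist_eq, abs_lt]
    constructor <;> linarith [hs.1, hs.2, min_le_left (δ / 2) t])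
  rw [Real.dist_eq] at h1
  have i1 : IntervalIntegrable h volume 0 s :=
    (intervalIntegrable_iff_integrableOn_Icc_of_le hs0).2 (hh.mono_set fun x hx =>
      ⟨hx.1, hx.2.trans hs1⟩)
  have i2 : IntervalIntegrable h volume s t :=
    (intervalIntegrable_iff_integrableOn_Icc_of_le hs.2).2 (hh.mono_set fun x hx =>
      ⟨hs0.trans hx.1, hx.2.trans ht.2⟩)
  have h2 := intervalIntegral.integral_add_adjacent_intervals i1 i2
  rw [abs_sub_comm] at h1
  rw [show ∫ τ in s..t, h τ = (∫ τ in (0)..t, h τ) - ∫ τ in (0)..s, h τ by linarith]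
  exact h1.le

theorem wFinp (h1 : StKK) (h2 : StWkA) (h4 : StWq) (h5 : StBqi) (h6 : StInp) (h7 : StLyr)
    (h3 : StRVp) : StFinp := by
  intro Ω ν T u₀ f u G hO hb hν h hN C hC hI t ht
  have h0 : defect Ω ν f u G 0 = 0 := by
    unfold defect
    simp
  rcases eq_or_lt_of_le (ht.1.trans ht.2) with hT | hT
  · have : t = 0 := le_antisymm (ht.2.trans hT.symm.le) ht.1
    rw [this, h0]
  obtain ⟨A, hA, hw⟩ := h1 Ω ν T u₀ f u G hO hb hν h
  obtain ⟨B, hB, hw4⟩ := h4 Ω ν T u₀ f u G hO hb hν h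
  obtain ⟨hbm, hbi, -⟩ := h5 Ω ν T u₀ f u G hO hb h
  have hg0 : ∀ τ, 0 ≤ gradSq Ω (G τ) := fun τ => integral_nonneg fun x =>
    Finset.sum_nonneg fun i _ => by positivity
  have hf0 : ∀ τ, 0 ≤ fn Ω f τ := fun τ => Real.sqrt_nonneg _
  have hg : IntegrableOn (fun τ => gradSq Ω (G τ)) (Icc 0 T) := h.grad_int
  have hFi : IntegrableOn (fun τ => gradSq Ω (G τ) + fn Ω f τ) (Icc 0 T) := hg.add (Fin_fn h)
  have hgg : ∀ τ, 1 ≤ gg Ω f G τ := fun τ => by
    unfold gg
    linarith [Pool.Agent.Helper7.NT.fsq_nonneg Ω (f τ),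
      Pool.Agent.Helper52.NSE.gsq_nonneg Ω (G τ)]
  have hWL : ∀ s ∈ Ioc 0 T, WeakLions Ω u s →
      ∃ L δ : ℝ, 0 ≤ L ∧ 0 < δ ∧ WL4 T (fun τ => nq Ω u τ ^ 2) L (s - δ) s := by
    intro s hs hw
    obtain ⟨C', δ, hC', hδ, hl⟩ := h6 Ω ν T u₀ f u G hO hb h s hs hw
    exact ⟨1 + C', δ, by linarith, hδ, h7 T s δ C' (nq Ω u) (fun τ => ENNReal.toReal_nonneg) hbm
      hC' hδ hs.2 hl⟩
  have hJ : NoJump T (defect Ω ν f u G) := by
    intro s hs
    rcases hI s hs with h8 | h8 | h8 | h8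
    · obtain ⟨M, hM⟩ := Pool.Agent.Helper7.NU.sup_left hO hb hν h hs h8
      intro η δ hη hδ
      obtain ⟨δ', hδ', -, hsm⟩ := Finp_small (gg_int h) hs (η := η / (|M| + 1)) (by positivity)
      obtain ⟨a, ha, ha0, ha1⟩ := hM (min δ δ') (lt_min hδ hδ')
      refine ⟨a, ⟨by linarith [ha.1, min_le_left δ δ'], ha.2⟩, ha0, ha1.trans ?_⟩
      have h9 := hsm a ⟨by linarith [ha.1, min_le_right δ δ'], ha.2.le⟩
      have h10 : M * ∫ τ in a..s, gg Ω f G τ ≤ η := by
        calc M * ∫ τ in a..s, gg Ω f G τ ≤ |M * ∫ τ in a..s, gg Ω f G τ| := le_abs_self _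
          _ = |M| * |∫ τ in a..s, gg Ω f G τ| := abs_mul _ _
          _ ≤ |M| * (η / (|M| + 1)) := mul_le_mul_of_nonneg_left h9 (abs_nonneg _)
          _ ≤ (|M| + 1) * (η / (|M| + 1)) :=
            mul_le_mul_of_nonneg_right (by linarith) (by positivity)
          _ = η := by field_simp
      linarith
    · exact Pool.Agent.Helper7.NT.noLoss_left h hν hs (hN s hs (h2 Ω ν T u₀ f u G h s hs h8).2)
    · obtain ⟨L, δ₀, hL, hδ₀, hw5⟩ := hWL s hs h8
      intro η δ hη hδ
      -- choose the window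
      set κ : ℝ := min (η / (2 * B)) ((η / (2 * B * (2 * L + 1))) ^ 2) with hκ
      have hκ0 : 0 < κ := lt_min (by positivity) (by positivity)
      obtain ⟨δ₁, hδ₁, hδ₁s, hsm1⟩ := Finp_small hg hs hκ0
      obtain ⟨δ₂, hδ₂, hδ₂s, hsm2⟩ := Finp_small hFi hs hκ0
      set r : ℝ := min (min δ δ₀) (min δ₁ δ₂) / 4 with hr
      have hm1 : 0 < min (min δ δ₀) (min δ₁ δ₂) := lt_min (lt_min hδ hδ₀) (lt_min hδ₁ hδ₂)
      have hr0 : 0 < r := by rw [hr]; linarith
      have hr1 : 4 * r ≤ δ := by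
        rw [hr]
        linarith [min_le_left (min δ δ₀) (min δ₁ δ₂), min_le_left δ δ₀]
      have hr2 : 4 * r ≤ δ₀ := by
        rw [hr]
        linarith [min_le_left (min δ δ₀) (min δ₁ δ₂), min_le_right δ δ₀]
      have hr3 : 4 * r ≤ δ₁ := by
        rw [hr]
        linarith [min_le_right (min δ δ₀) (min δ₁ δ₂), min_le_left δ₁ δ₂]
      have hr4 : 4 * r ≤ δ₂ := by
        rw [hr]
        linarith [min_le_right (min δ δ₀) (min δ₁ δ₂), min_le_right δ₁ δ₂]
      obtain ⟨a, ha, ha1⟩ := hw4 s r hr0 (by linarith) hs.2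
      have ha0 : 0 ≤ a := by linarith [ha.1]
      refine ⟨a, ⟨by linarith [ha.1], by linarith [ha.2]⟩, ha0, ha1.trans ?_⟩
      have e1 := hsm1 (s - 2 * r) ⟨by linarith, by linarith⟩
      have e2 := hsm2 (s - 2 * r) ⟨by linarith, by linarith⟩
      have e3 : ∫ τ in (s - 2 * r)..s, nq Ω u τ ^ 2 ≤ L * (2 * r) ^ (1 / 2 : ℝ) := by
        have h9 := hw5 (Ioo (s - 2 * r) s) measurableSet_Ioo (fun x hx =>
          ⟨⟨by linarith [hx.1], hx.2⟩, ⟨by linarith [hx.1], hx.2.le.trans hs.2⟩⟩)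
        rw [Real.volume_Ioo, ENNReal.toReal_ofReal (by linarith),
          show s - (s - 2 * r) = 2 * r by ring] at h9
        rwa [intervalIntegral.integral_of_le (by linarith), integral_Ioc_eq_integral_Ioo]
      have e4 : 0 ≤ ∫ τ in (s - 2 * r)..s, nq Ω u τ ^ 2 :=
        intervalIntegral.integral_nonneg (by linarith) fun τ _ => sq_nonneg _
      have e5 : Real.sqrt ((∫ τ in (s - 2 * r)..s, gradSq Ω (G τ)) / r) *
          (∫ τ in (s - 2 * r)..s, nq Ω u τ ^ 2) ≤ Real.sqrt κ * (2 * L) := by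
        have h9 : (∫ τ in (s - 2 * r)..s, gradSq Ω (G τ)) / r ≤ κ / r :=
          div_le_div_of_nonneg_right ((le_abs_self _).trans e1) hr0.le
        calc Real.sqrt ((∫ τ in (s - 2 * r)..s, gradSq Ω (G τ)) / r) *
            (∫ τ in (s - 2 * r)..s, nq Ω u τ ^ 2) ≤
            Real.sqrt (κ / r) * (L * (2 * r) ^ (1 / 2 : ℝ)) :=
              mul_le_mul (Real.sqrt_le_sqrt h9) e3 e4 (Real.sqrt_nonneg _)
          _ = Real.sqrt κ * (L * Real.sqrt 2) := by
              rw [← Real.sqrt_eq_rpow, Real.sqrt_div hκ0.le, Real.sqrt_mul (by norm_num)]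
              have : Real.sqrt r ≠ 0 := (Real.sqrt_pos.2 hr0).ne'
              field_simp
          _ ≤ Real.sqrt κ * (2 * L) := by
              refine mul_le_mul_of_nonneg_left ?_ (Real.sqrt_nonneg _)
              have : Real.sqrt 2 ≤ 2 := by
                rw [Real.sqrt_le_left (by norm_num)]
                norm_num
              nlinarith
      have e6 : Real.sqrt κ ≤ η / (2 * B * (2 * L + 1)) := by
        rw [Real.sqrt_le_left (by positivity)]
        exact min_le_right _ _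
      have e7 : B * (Real.sqrt ((∫ τ in (s - 2 * r)..s, gradSq Ω (G τ)) / r) *
          (∫ τ in (s - 2 * r)..s, nq Ω u τ ^ 2)) ≤ η / 2 := by
        calc _ ≤ B * (η / (2 * B * (2 * L + 1)) * (2 * L + 1)) := by
              refine mul_le_mul_of_nonneg_left (e5.trans ?_) hB.le
              exact mul_le_mul e6 (by linarith) (by linarith) (by positivity)
          _ = η / 2 := by
              have : 2 * L + 1 ≠ 0 := by positivity
              field_simp
      have e8 : B * (∫ τ in (s - 2 * r)..s, (gradSq Ω (G τ) + fn Ω f τ)) ≤ η / 2 := by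
        calc _ ≤ B * (η / (2 * B)) := mul_le_mul_of_nonneg_left
              (((le_abs_self _).trans e2).trans (min_le_left _ _)) hB.le
          _ = η / 2 := by field_simp
      have e9 := add_le_add e7 e8
      rw [← mul_add] at e9
      linarith
    · exact Pool.Agent.Helper7.NT.noLoss_left h hν hs (hN s hs h8.2)
  have h8 := h3 T (defect Ω ν f u G) (fun τ => gradSq Ω (G τ)) (fun τ => nq Ω u τ ^ 2)
    (fun τ => gradSq Ω (G τ) + fn Ω f τ) (gg Ω f G) A B C hT
    (fun x hx η hη => h.usc hx η hη) hJ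
    (Pool.Agent.Helper7.NT.ae_left hO hb hν h) hg0 (fun τ => sq_nonneg _)
    (fun τ => add_nonneg (hg0 τ) (hf0 τ)) hgg hg hbi hFi (gg_int h) hA hw hB hw4 hC
    (fun s hs => by
      rcases hI s hs with h8 | h8 | h8 | h8
      · exact Or.inl (Pool.Agent.Helper7.NU.sup_left hO hb hν h hs h8)
      · exact Or.inr (Or.inl (h2 Ω ν T u₀ f u G h s hs h8).1)
      · exact Or.inr (Or.inr (Or.inl (hWL s hs h8)))
      · exact Or.inr (Or.inr (Or.inr h8.1))) t ht
  have h9 := h.energy t ht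
  rw [h0] at h8
  refine le_antisymm h8 ?_
  unfold defect
  linarith

end Pool.Agent.Helper83.WC
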