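import Pool.Agent.Helper83.WC.St
import Pool.Agent.Helper7.NT.Idn
import Pool.Agent.Helper7.NT.Key

/-!
# Project WC (MP_a38b17_an): module Idl
-/

set_option autoImplicit false

open MeasureTheory Set Filter Topology
open scoped ENNReal

noncomputable section

namespace Pool.Agent.Helper83.WC

open Pool.Agent.Helper52.NSE
open Pool.Agent.Helper7.NT
open Pool.Agent.Helper60.EC (fn)

theorem Idl_nm {Ω : Set E3} {a b : E3 → E3} {K : ℝ} (ha : MemLp a 2 (volume.restrict Ω))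
    (hb : MemLp b 2 (volume.restrict Ω)) (h1 : ∫ x in Ω, ‖a x‖ ^ 2 ≤ K)
    (h2 : ∫ x in Ω, ‖b x‖ ^ 2 ≤ K) : nm Ω (fun x => a x - b x) ≤ 2 * Real.sqrt K := by
  have h3 := Key_nm_sub ha hb
  rw [← nm_sq] at h1 h2
  have hK : 0 ≤ K := (sq_nonneg _).trans h1
  have h4 : nm Ω (fun x => a x - b x) ^ 2 ≤ (2 * Real.sqrt K) ^ 2 := by
    rw [mul_pow, Real.sq_sqrt hK]
    linarith
  exact abs_le_of_sq_le_sq' h4 (by positivity) |>.2

theorem wIdl : StIdl := by
  intro Ω ν T u₀ f u G hO hb hν h K hK σ t hσ hσt htT hmem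
  obtain ⟨CS, hCS, hsob⟩ := sobolev hO hb
  have hA := hmem.grad_memLp
  have ha2 := hmem.toL2.memLp
  have ha6 : MemLp (u σ) 6 (volume.restrict Ω) :=
    ⟨hmem.1, lt_of_le_of_lt (hsob _ _ hmem) ENNReal.ofReal_lt_top⟩
  have hBT := Bf_time hO hb h ha6 hA
  refine ⟨hBT.mono_set fun x hx => ⟨hσ.trans hx.1.le, hx.2.le.trans htT⟩, ?_⟩
  rw [identity hO hb h hσ hσt htT hmem]
  have iA := ii_of h.power_int hσ hσt htT
  have iP := ii_of (pair_time h ha2) hσ hσt htT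
  have iG := ii_of h.gsq_int hσ hσt htT
  have igp := ii_of (gp_time h hA) hσ hσt htT
  have iB := ii_of hBT hσ hσt htT
  have iF : IntervalIntegrable (fun τ => fn Ω f τ) volume σ t := ii_of h.nmf_int hσ hσt htT
  have g1 := (ae_restrict_iff' measurableSet_Icc).1 h.grad_mem
  have g2 := (ae_restrict_iff' measurableSet_Icc).1 h.force_mem
  have hpair : ∀ᵐ τ ∂volume, τ ∈ uIoc σ t →
      power Ω (f τ) (u τ) - ∫ x in Ω, inner ℝ (f τ x) (u σ x) =
      ∫ x in Ω, inner ℝ (f τ x) (u τ x - u σ x) := by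
    filter_upwards [g2] with τ h2 hτ
    rw [uIoc_of_le hσt] at hτ
    have hτ' : τ ∈ Icc 0 T := ⟨hσ.trans hτ.1.le, hτ.2.trans htT⟩
    have hf := (h2 hτ').memLp
    have hu2 := (h.mem τ hτ').memLp
    unfold power
    rw [← integral_sub (inner_int hf hu2) (inner_int hf ha2)]
    refine integral_congr_ae (Eventually.of_forall fun x => ?_)
    simp only [inner_sub_right]
  have iW : IntervalIntegrable (fun τ => ∫ x in Ω, inner ℝ (f τ x) (u τ x - u σ x)) volume σ t := by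
    refine (iA.sub iP).congr_ae ?_
    exact (ae_restrict_iff' measurableSet_uIoc).2 hpair
  have i1 : IntervalIntegrable (fun τ => (∫ x in Ω, inner ℝ (f τ x) (u τ x - u σ x)) -
      ν * gsq Ω (G τ) + ν * gp Ω (G τ) (G σ) - Bf Ω (u τ) (G σ) (fun x => u τ x - u σ x))
      volume σ t := ((iW.sub (iG.const_mul ν)).add (igp.const_mul ν)).sub iB
  have i2 : IntervalIntegrable (fun τ => ν * gsq Ω (G σ) + 2 * Real.sqrt K * fn Ω f τ +
      |Bf Ω (u τ) (G σ) (fun x => u τ x - u σ x)|) volume σ t :=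
    (intervalIntegrable_const.add (iF.const_mul _)).add iB.abs
  have e2 : ∫ τ in σ..t, (ν * gsq Ω (G σ) + 2 * Real.sqrt K * fn Ω f τ +
      |Bf Ω (u τ) (G σ) (fun x => u τ x - u σ x)|) =
      ν * (t - σ) * gsq Ω (G σ) + 2 * Real.sqrt K * (∫ τ in σ..t, fn Ω f τ) +
        ∫ τ in σ..t, |Bf Ω (u τ) (G σ) (fun x => u τ x - u σ x)| := by
    rw [intervalIntegral.integral_add (intervalIntegrable_const.add (iF.const_mul _)) iB.abs,
      intervalIntegral.integral_add intervalIntegrable_const (iF.const_mul _),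
      intervalIntegral.integral_const, intervalIntegral.integral_const_mul, smul_eq_mul]
    ring
  rw [← e2, intervalIntegral.integral_of_le hσt, intervalIntegral.integral_of_le hσt]
  refine setIntegral_mono_on_ae i1.1 i2.1 measurableSet_Ioc ?_
  filter_upwards [g1, g2] with τ h1 h2 hτ
  have hτ' : τ ∈ Icc 0 T := ⟨hσ.trans hτ.1.le, hτ.2.trans htT⟩
  have hσ' : σ ∈ Icc 0 T := ⟨hσ, hσt.trans htT⟩
  have hm := h1 hτ'
  have hf := (h2 hτ').memLp
  have hu2 := (h.mem τ hτ').memLp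
  have hGτ := hm.grad_memLp
  have p3 := gp_le hGτ hA
  have p4 := cs hf (hu2.sub ha2)
  have hg0 : 0 ≤ gsq Ω (G τ) := gsq_nonneg Ω _
  have hgs0 : 0 ≤ gsq Ω (G σ) := gsq_nonneg Ω _
  have p5 : (∫ x in Ω, inner ℝ (f τ x) (u τ x - u σ x)) ≤ 2 * Real.sqrt K * fn Ω f τ := by
    have q1 : (∫ x in Ω, inner ℝ (f τ x) (u τ x - u σ x)) ≤
        nm Ω (f τ) * nm Ω (fun x => u τ x - u σ x) := (le_abs_self _).trans p4
    have q2 := Idl_nm hu2 ha2 (hK τ hτ') (hK σ hσ')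
    have q3 := mul_le_mul_of_nonneg_left q2 (nm_nonneg Ω (f τ))
    have q4 : nm Ω (f τ) = fn Ω f τ := rfl
    rw [q4] at q1 q3
    linarith
  have q3 : gp Ω (G τ) (G σ) ≤ (gsq Ω (G τ) + gsq Ω (G σ)) / 2 := by
    have p6 := (le_abs_self _).trans p3
    have s1 := Real.sq_sqrt hg0
    have s2 := Real.sq_sqrt hgs0
    nlinarith [sq_nonneg (Real.sqrt (gsq Ω (G τ)) - Real.sqrt (gsq Ω (G σ)))]
  have q4 : ν * gp Ω (G τ) (G σ) ≤ ν * ((gsq Ω (G τ) + gsq Ω (G σ)) / 2) :=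
    mul_le_mul_of_nonneg_left q3 hν.le
  have n1 : 0 ≤ ν * gsq Ω (G τ) := by positivity
  have n2 : 0 ≤ ν * gsq Ω (G σ) := by positivity
  have hB := neg_abs_le (Bf Ω (u τ) (G σ) (fun x => u τ x - u σ x))
  linarith

end Pool.Agent.Helper83.WC
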