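import Pool.Agent.Helper83.WC.StB
import Pool.Agent.Helper7.NT.Sob
import Pool.Agent.Helper7.NT.AeL

/-!
# Project WC (MP_a38b17_an): module Inp
-/

set_option autoImplicit false

open MeasureTheory Set Filter Topology
open scoped ENNReal

noncomputable section

namespace Pool.Agent.Helper83.WC

open Pool.Agent.Helper52.NSE
open Pool.Agent.Helper7.NT

theorem Inp_four : (4 : ℝ≥0∞).toReal = 4 := by norm_num

/-- interpolation between two finite exponents -/
theorem Inp_interp {μ : Measure E3} {w : E3 → E3} (hw : AEStronglyMeasurable w μ)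
    {p₁ p₂ : ℝ≥0∞} (h1 : p₁ ≠ 0) (h1' : p₁ ≠ ⊤) (h2 : p₂ ≠ 0) (h2' : p₂ ≠ ⊤) {s : ℝ}
    (hs0 : 0 ≤ s) (hs1 : s ≤ 1) (hsum : p₁.toReal * s + p₂.toReal * (1 - s) = 4) :
    eLpNorm w 4 μ ≤ eLpNorm w p₁ μ ^ (p₁.toReal * s / 4) *
      eLpNorm w p₂ μ ^ (p₂.toReal * (1 - s) / 4) := by
  have ha : 0 < p₁.toReal := ENNReal.toReal_pos h1 h1'
  have hb : 0 < p₂.toReal := ENNReal.toReal_pos h2 h2'
  rw [eLpNorm_eq_lintegral_rpow_enorm_toReal (p := 4) (by norm_num) (by norm_num),
    eLpNorm_eq_lintegral_rpow_enorm_toReal h1 h1', eLpNorm_eq_lintegral_rpow_enorm_toReal h2 h2',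
    ← ENNReal.rpow_mul, ← ENNReal.rpow_mul, Inp_four]
  have e1 : 1 / p₁.toReal * (p₁.toReal * s / 4) = s * (1 / 4) := by field_simp
  have e2 : 1 / p₂.toReal * (p₂.toReal * (1 - s) / 4) = (1 - s) * (1 / 4) := by field_simp
  rw [e1, e2, ENNReal.rpow_mul, ENNReal.rpow_mul, ← ENNReal.mul_rpow_of_nonneg _ _ (by norm_num)]
  refine ENNReal.rpow_le_rpow ?_ (by norm_num)
  calc ∫⁻ x, ‖w x‖ₑ ^ (4 : ℝ) ∂μ
      = ∫⁻ x, (‖w x‖ₑ ^ p₁.toReal) ^ s * (‖w x‖ₑ ^ p₂.toReal) ^ (1 - s) ∂μ := by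
        refine lintegral_congr fun x => ?_
        rw [← ENNReal.rpow_mul, ← ENNReal.rpow_mul,
          ← ENNReal.rpow_add_of_nonneg _ _ (by positivity)
            (mul_nonneg hb.le (by linarith)), hsum]
    _ ≤ _ := ENNReal.lintegral_mul_norm_pow_le (hw.enorm.pow_const _) (hw.enorm.pow_const _)
        hs0 (by linarith) (by ring)

theorem Inp_top {μ : Measure E3} {w : E3 → E3} (hw : AEStronglyMeasurable w μ) :
    eLpNorm w 4 μ ≤ eLpNorm w 2 μ ^ (1 / 2 : ℝ) * eLpNorm w ⊤ μ ^ (1 / 2 : ℝ) := by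
  rw [eLpNorm_eq_lintegral_rpow_enorm_toReal (p := 4) (by norm_num) (by norm_num), hos_two,
    ← ENNReal.rpow_mul, Inp_four, eLpNorm_exponent_top]
  set M := eLpNormEssSup w μ with hM
  have e1 : (1 / 2 : ℝ) * (1 / 2) = 1 / 4 := by norm_num
  have e2 : M ^ (1 / 2 : ℝ) = (M ^ (2 : ℝ)) ^ (1 / 4 : ℝ) := by
    rw [← ENNReal.rpow_mul]; norm_num
  rw [e1, e2, ← ENNReal.mul_rpow_of_nonneg _ _ (by norm_num)]
  refine ENNReal.rpow_le_rpow ?_ (by norm_num)
  have h1 : ∫⁻ x, ‖w x‖ₑ ^ (4 : ℝ) ∂μ ≤ ∫⁻ x, M ^ (2 : ℝ) * ‖w x‖ₑ ^ (2 : ℝ) ∂μ := by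
    refine lintegral_mono_ae ?_
    filter_upwards [ae_le_eLpNormEssSup (f := w) (μ := μ)] with x hx
    have : ‖w x‖ₑ ^ (4 : ℝ) = ‖w x‖ₑ ^ (2 : ℝ) * ‖w x‖ₑ ^ (2 : ℝ) := by
      rw [← ENNReal.rpow_add_of_nonneg _ _ (by norm_num) (by norm_num)]
      norm_num
    rw [this]
    gcongr
  refine h1.trans ?_
  rw [lintegral_const_mul'' _ (hw.enorm.pow_const _), mul_comm]

/-- the case of a large exponent -/
theorem Inp_A {p : ℝ≥0∞} (hp : 4 ≤ p) : ∃ θ : ℝ, 0 < θ ∧ θ ≤ 1 ∧ timeExpW p = 4 * θ ∧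
    ∀ (μ : Measure E3) (w : E3 → E3), AEStronglyMeasurable w μ →
      eLpNorm w 4 μ ≤ eLpNorm w 2 μ ^ (1 - θ) * eLpNorm w p μ ^ θ := by
  by_cases hpt : p = ⊤
  · subst hpt
    refine ⟨1 / 2, by norm_num, by norm_num, ?_, ?_⟩
    · unfold timeExpW
      norm_num
    · intro μ w hw
      have := Inp_top hw
      norm_num at this ⊢
      exact this
  · have hP : 4 ≤ p.toReal := by
      have := (ENNReal.toReal_le_toReal (by simp) hpt).mpr hp
      simpa using this
    have hp0 : p ≠ 0 := by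
      rintro rfl
      simp at hP
      linarith
    set P := p.toReal with hPdef
    have hP2 : 0 < P - 2 := by linarith
    have hP0 : 0 < P := by linarith
    refine ⟨P / (2 * (P - 2)), by positivity, ?_, ?_, ?_⟩
    · rw [div_le_one (by positivity)]
      linarith
    · unfold timeExpW
      have hmin : min (1 / 2 - 1 / p.toReal) (1 - 3 / p.toReal) = 1 / 2 - 1 / P := by
        rw [← hPdef]
        apply min_eq_left
        have e : (1 - 3 / P) - (1 / 2 - 1 / P) = (P - 4) / (2 * P) := by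
          field_simp
          ring
        have : 0 ≤ (P - 4) / (2 * P) := div_nonneg (by linarith) (by positivity)
        linarith
      rw [hmin]
      have e : 1 / 2 - 1 / P = (P - 2) / (2 * P) := by
        field_simp
      rw [e, inv_div]
      field_simp
      ring
    · intro μ w hw
      have h := Inp_interp hw (p₁ := 2) (p₂ := p) (by norm_num) (by norm_num) hp0 hpt
        (s := (P - 4) / (P - 2)) (div_nonneg (by linarith) hP2.le)
        (by rw [div_le_one hP2]; linarith)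
        (by
          rw [← hPdef]
          norm_num
          field_simp
          ring)
      rw [← hPdef] at h
      have e1 : (2 : ℝ≥0∞).toReal * ((P - 4) / (P - 2)) / 4 = 1 - P / (2 * (P - 2)) := by
        norm_num
        field_simp
        ring
      have e2 : P * (1 - (P - 4) / (P - 2)) / 4 = P / (2 * (P - 2)) := by
        field_simp
        ring
      rw [e1, e2] at h
      exact h

/-- the case of a small exponent -/
theorem Inp_B {p : ℝ≥0∞} (hp3 : 3 < p) (hp4 : p < 4) :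
    ∃ θ q : ℝ, 0 < θ ∧ θ < 1 ∧ 0 < q ∧ timeExpW p = q ∧ 4 * (1 - θ) / q + 2 * θ = 1 ∧
    ∀ (μ : Measure E3) (w : E3 → E3), AEStronglyMeasurable w μ →
      eLpNorm w 4 μ ≤ eLpNorm w p μ ^ (1 - θ) * eLpNorm w 6 μ ^ θ := by
  have hpt : p ≠ ⊤ := ne_top_of_lt hp4
  have hP3 : 3 < p.toReal := by
    have := (ENNReal.toReal_lt_toReal (by simp) hpt).mpr hp3
    simpa using this
  have hP4 : p.toReal < 4 := by
    have := (ENNReal.toReal_lt_toReal hpt (by simp)).mpr hp4
    simpa using this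
  have hp0 : p ≠ 0 := by
    rintro rfl
    simp at hP3
    linarith
  set P := p.toReal with hPdef
  have hP0 : 0 < P := by linarith
  have h3 : 0 < P - 3 := by linarith
  have h6 : 0 < 6 - P := by linarith
  refine ⟨3 * (4 - P) / (2 * (6 - P)), P / (P - 3), div_pos (by linarith) (by positivity), ?_,
    by positivity, ?_, ?_, ?_⟩
  · rw [div_lt_one (by positivity)]
    linarith
  · unfold timeExpW
    have hmin : min (1 / 2 - 1 / p.toReal) (1 - 3 / p.toReal) = 1 - 3 / P := by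
      rw [← hPdef]
      apply min_eq_right
      have e : (1 / 2 - 1 / P) - (1 - 3 / P) = (4 - P) / (2 * P) := by
        field_simp
        ring
      have : 0 ≤ (4 - P) / (2 * P) := div_nonneg (by linarith) (by positivity)
      linarith
    rw [hmin]
    have e : 1 - 3 / P = (P - 3) / P := by
      field_simp
    rw [e, inv_div]
  · field_simp
    ring
  · intro μ w hw
    have h := Inp_interp hw (p₁ := p) (p₂ := 6) hp0 hpt (by norm_num) (by norm_num)
      (s := 2 / (6 - P)) (by positivity) (by rw [div_le_one h6]; linarith)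
      (by
        rw [← hPdef]
        norm_num
        field_simp
        ring)
    rw [← hPdef] at h
    have e1 : P * (2 / (6 - P)) / 4 = 1 - 3 * (4 - P) / (2 * (6 - P)) := by
      field_simp
      ring
    have e2 : (6 : ℝ≥0∞).toReal * (1 - 2 / (6 - P)) / 4 = 3 * (4 - P) / (2 * (6 - P)) := by
      norm_num
      field_simp
      ring
    rw [e1, e2] at h
    exact h

theorem Inp_lt {x : ℝ≥0∞} {l : ℝ} (hl : 0 < l) (h : l < x.toReal) : ENNReal.ofReal l < x := by
  have hx : x ≠ ⊤ := by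
    rintro rfl
    simp at h
    linarith
  exact (ENNReal.ofReal_lt_iff_lt_toReal hl.le hx).mpr h

theorem wInp : StInp := by
  intro Ω ν T u₀ f u G hO hb h t ht hW
  obtain ⟨p, hp3, C, δ, hδ, hC⟩ := hW
  have hsT : ∀ s, s ∈ Ioo (t - δ) t → 0 ≤ s → s ∈ Icc 0 T :=
    fun s hs h0 => ⟨h0, hs.2.le.trans ht.2⟩
  rcases lt_or_ge p 4 with hp4 | hp4
  · obtain ⟨CS, hCS, hsob⟩ := sobolev hO hb
    obtain ⟨θ, q, hθ0, hθ1, hq, hqe, hsum, hint⟩ := Inp_B hp3 hp4
    have hI0 : 0 ≤ ∫ τ in Icc 0 T, gsq Ω (G τ) := integral_nonneg fun τ => gsq_nonneg Ω _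
    refine ⟨|C| + CS ^ 2 * ∫ τ in Icc 0 T, gsq Ω (G τ), δ, by positivity, hδ, fun l hl => ?_⟩
    have hl4 : l ^ (-4 : ℝ) = (l ^ 4)⁻¹ := by
      rw [Real.rpow_neg hl.le]
      norm_cast
    set S1 : Set ℝ := {s | s ∈ Ioo (t - δ) t ∧ 0 ≤ s ∧
      ENNReal.ofReal (l ^ (4 / q)) < lpNorm Ω p (u s)} with hS1
    set S2 : Set ℝ := {s | s ∈ Ioo (t - δ) t ∧ 0 ≤ s ∧
      ENNReal.ofReal (l ^ 2) < eLpNorm (u s) 6 (volume.restrict Ω)} with hS2
    have hsub : {s | s ∈ Ioo (t - δ) t ∧ 0 ≤ s ∧ l < nq Ω u s} ⊆ S1 ∪ S2 := by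
      rintro s ⟨hs1, hs2, hs3⟩
      by_contra hcon
      rw [mem_union, not_or] at hcon
      have c1 : lpNorm Ω p (u s) ≤ ENNReal.ofReal (l ^ (4 / q)) := by
        by_contra hc
        exact hcon.1 ⟨hs1, hs2, not_le.mp hc⟩
      have c2 : eLpNorm (u s) 6 (volume.restrict Ω) ≤ ENNReal.ofReal (l ^ 2) := by
        by_contra hc
        exact hcon.2 ⟨hs1, hs2, not_le.mp hc⟩
      have hw := (h.mem s (hsT s hs1 hs2)).memLp.1
      have h4 := hint _ _ hw
      have h5 : eLpNorm (u s) p (volume.restrict Ω) ^ (1 - θ) *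
          eLpNorm (u s) 6 (volume.restrict Ω) ^ θ ≤
          ENNReal.ofReal (l ^ (4 / q)) ^ (1 - θ) * ENNReal.ofReal (l ^ 2) ^ θ :=
        mul_le_mul' (ENNReal.rpow_le_rpow c1 (by linarith)) (ENNReal.rpow_le_rpow c2 hθ0.le)
      rw [ENNReal.ofReal_rpow_of_nonneg (by positivity) (by linarith),
        ENNReal.ofReal_rpow_of_nonneg (by positivity) hθ0.le,
        ← ENNReal.ofReal_mul (by positivity), ← Real.rpow_mul hl.le, ← Real.rpow_natCast l 2,
        ← Real.rpow_mul hl.le, ← Real.rpow_add hl] at h5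
      have e1 : 4 / q * (1 - θ) + ((2 : ℕ) : ℝ) * θ = 1 := by
        refine Eq.trans ?_ hsum
        push_cast
        ring
      rw [e1, Real.rpow_one] at h5
      exact absurd (Inp_lt hl hs3) (not_lt.mpr (h4.trans h5))
    have hb1 : volume S1 ≤ ENNReal.ofReal (|C| * l ^ (-4 : ℝ)) := by
      refine (hC (l ^ (4 / q)) (Real.rpow_pos_of_pos hl _)).trans ?_
      refine ENNReal.ofReal_le_ofReal ?_
      rw [hqe, ← Real.rpow_mul hl.le]
      have e1 : 4 / q * -q = -4 := by field_simp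
      rw [e1]
      exact mul_le_mul_of_nonneg_right (le_abs_self C) (Real.rpow_nonneg hl.le _)
    have hb2 : volume S2 ≤
        ENNReal.ofReal ((CS ^ 2 * ∫ τ in Icc 0 T, gsq Ω (G τ)) * l ^ (-4 : ℝ)) := by
      have hss : S2 ⊆ Icc 0 T := fun s hs => hsT s hs.1 hs.2.1
      rw [← Measure.restrict_eq_self volume hss]
      have hmono : (volume.restrict (Icc 0 T)) S2 ≤ (volume.restrict (Icc 0 T))
          {s | ENNReal.ofReal (l ^ 4) ≤ ENNReal.ofReal (CS ^ 2 * gsq Ω (G s))} := by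
        refine measure_mono_ae ?_
        filter_upwards [h.grad_mem] with s hs hs2
        have h1 := hs2.2.2.trans_le (hsob _ _ hs)
        have h2 : l ^ 2 < CS * Real.sqrt (gsq Ω (G s)) := by
          by_contra hc
          exact absurd h1 (not_lt.mpr (ENNReal.ofReal_le_ofReal (not_lt.mp hc)))
        refine ENNReal.ofReal_le_ofReal ?_
        have h3 : (l ^ 2) ^ 2 ≤ (CS * Real.sqrt (gsq Ω (G s))) ^ 2 :=
          pow_le_pow_left₀ (by positivity) h2.le 2
        rw [mul_pow, Real.sq_sqrt (gsq_nonneg Ω _)] at h3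
        calc l ^ 4 = (l ^ 2) ^ 2 := by ring
          _ ≤ _ := h3
      refine hmono.trans ?_
      have hint2 : Integrable (fun s => CS ^ 2 * gsq Ω (G s)) (volume.restrict (Icc 0 T)) :=
        h.gsq_int.const_mul _
      have hM := meas_ge_le_lintegral_div (μ := volume.restrict (Icc 0 T))
        (f := fun s => ENNReal.ofReal (CS ^ 2 * gsq Ω (G s)))
        hint2.1.aemeasurable.ennreal_ofReal (ε := ENNReal.ofReal (l ^ 4))
        (by
          rw [Ne, ENNReal.ofReal_eq_zero, not_le]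
          positivity) ENNReal.ofReal_ne_top
      refine hM.trans ?_
      rw [← ofReal_integral_eq_lintegral_ofReal hint2
        (Eventually.of_forall fun s => mul_nonneg (by positivity) (gsq_nonneg Ω _)),
        ← ENNReal.ofReal_div_of_pos (by positivity), integral_const_mul, hl4, div_eq_mul_inv]
    refine (measure_mono hsub).trans ((measure_union_le _ _).trans ((add_le_add hb1 hb2).trans ?_))
    rw [← ENNReal.ofReal_add (by positivity) (by positivity)]
    refine ENNReal.ofReal_le_ofReal (le_of_eq ?_)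
    ring
  · obtain ⟨θ, hθ0, hθ1, hqe, hint⟩ := Inp_A hp4
    obtain ⟨K, hK⟩ := h.bound
    set K' : ℝ := Real.sqrt K + 1 with hK'
    have hK'0 : 0 < K' := by positivity
    refine ⟨|C| * K' ^ (4 * (1 - θ)), δ, by positivity, hδ, fun l hl => ?_⟩
    set m : ℝ := (l / K' ^ (1 - θ)) ^ (1 / θ) with hm
    have hb0 : 0 < l / K' ^ (1 - θ) := by positivity
    have hm0 : 0 < m := by positivity
    have hmθ : m ^ θ = l / K' ^ (1 - θ) := by
      rw [hm, ← Real.rpow_mul hb0.le, one_div_mul_cancel hθ0.ne', Real.rpow_one]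
    have hsub : {s | s ∈ Ioo (t - δ) t ∧ 0 ≤ s ∧ l < nq Ω u s} ⊆
        {s | s ∈ Ioo (t - δ) t ∧ 0 ≤ s ∧ ENNReal.ofReal m < lpNorm Ω p (u s)} := by
      rintro s ⟨hs1, hs2, hs3⟩
      refine ⟨hs1, hs2, ?_⟩
      by_contra hcon
      have c1 : eLpNorm (u s) p (volume.restrict Ω) ≤ ENNReal.ofReal m := not_lt.mp hcon
      have hu := (h.mem s (hsT s hs1 hs2)).memLp
      have c2 : eLpNorm (u s) 2 (volume.restrict Ω) ≤ ENNReal.ofReal K' := by
        rw [nm_eq hu]
        refine ENNReal.ofReal_le_ofReal ?_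
        have : nm Ω (u s) ≤ Real.sqrt K := Real.sqrt_le_sqrt (hK s (hsT s hs1 hs2))
        linarith
      have h4 := hint _ _ hu.1
      have h5 : eLpNorm (u s) 2 (volume.restrict Ω) ^ (1 - θ) *
          eLpNorm (u s) p (volume.restrict Ω) ^ θ ≤
          ENNReal.ofReal K' ^ (1 - θ) * ENNReal.ofReal m ^ θ :=
        mul_le_mul' (ENNReal.rpow_le_rpow c2 (by linarith)) (ENNReal.rpow_le_rpow c1 hθ0.le)
      rw [ENNReal.ofReal_rpow_of_nonneg hK'0.le (by linarith),
        ENNReal.ofReal_rpow_of_nonneg hm0.le hθ0.le, ← ENNReal.ofReal_mul (by positivity),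
        hmθ] at h5
      have e1 : K' ^ (1 - θ) * (l / K' ^ (1 - θ)) = l := by field_simp
      rw [e1] at h5
      exact absurd (Inp_lt hl hs3) (not_lt.mpr (h4.trans h5))
    refine (measure_mono hsub).trans ((hC m hm0).trans ?_)
    refine ENNReal.ofReal_le_ofReal ?_
    have e1 : m ^ (-timeExpW p) = K' ^ (4 * (1 - θ)) * l ^ (-4 : ℝ) := by
      have e2 : -timeExpW p = θ * (-4) := by rw [hqe]; ring
      rw [e2, Real.rpow_mul hm0.le, hmθ, Real.div_rpow hl.le (by positivity),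
        ← Real.rpow_mul hK'0.le, div_eq_mul_inv, ← Real.rpow_neg hK'0.le]
      have e3 : -((1 - θ) * (-4 : ℝ)) = 4 * (1 - θ) := by ring
      rw [e3]
      ring
    rw [e1, mul_assoc]
    exact mul_le_mul_of_nonneg_right (le_abs_self C) (by positivity)

end Pool.Agent.Helper83.WC
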