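import Pool.Agent.Helper83.WC.St
import Pool.Agent.Helper60.EC.G3b

/-!
# Project WC: module Int

Two consequences of the energy identity on `(s, t)`.
-/

set_option autoImplicit false

open MeasureTheory Set Filter Topology
open scoped ENNReal

noncomputable section

namespace Pool.Agent.Helper83.WC

open Pool.Agent.Helper52.NSE (E3 MemH1s IsWeakSolution gradSq kin defect nm gsq
  IsSmoothBoundedDomain nm_nonneg gsq_nonneg ii_of)
open Pool.Agent.Helper7.NT (Bf gp NoLoss)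
open Pool.Agent.Helper60.EC (fn G3b_fn_int)

theorem Int_mono {f g : ℝ → ℝ} {a b T : ℝ} (ha : 0 ≤ a) (hab : a ≤ b) (hb : b ≤ T)
    (hf : IntervalIntegrable f volume a b) (hg : IntervalIntegrable g volume a b)
    (h : ∀ᵐ τ ∂(volume.restrict (Icc 0 T)), f τ ≤ g τ) :
    ∫ τ in a..b, f τ ≤ ∫ τ in a..b, g τ :=
  intervalIntegral.integral_mono_ae_restrict hab hf hg
    (ae_restrict_of_ae_restrict_of_subset (Icc_subset_Icc ha hb) h)

theorem Int_ii {f : ℝ → ℝ} {s t a b : ℝ} (hf : IntegrableOn f (Ioo s t)) (hs : s ≤ a)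
    (hab : a ≤ b) (hb : b ≤ t) : IntervalIntegrable f volume a b := by
  rw [intervalIntegrable_iff_integrableOn_Ioo_of_le hab]
  exact hf.mono_set (Ioo_subset_Ioo hs hb)

theorem Int_nm_self (Ω : Set E3) (w : E3 → E3) : nm Ω (fun x => w x - w x) = 0 := by
  simp [nm]

theorem wInt (h1 : StTri) (h2 : StYi) (h3 : StIdl) : StInt := by
  intro Ω ν T u₀ f u G hO hB hν h K hK
  obtain ⟨C0, hC0, hT⟩ := h1 Ω hO hB
  refine ⟨2 + 4 * C0, by linarith, ?_⟩
  intro s t G0 hs hst ht hm hG0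
  have hG0' : 0 ≤ G0 := (Real.sqrt_nonneg _).trans hG0
  set Y : ℝ → ℝ := fun τ => Real.sqrt (nm Ω (fun x => u τ x - u s x)) *
          (Real.sqrt (gsq Ω (G τ)) + G0) ^ (3 / 2 : ℝ) with hY
  have hYn : ∀ τ, 0 ≤ Y τ := fun τ => by
    rw [hY]
    have : 0 ≤ Real.sqrt (gsq Ω (G τ)) + G0 := add_nonneg (Real.sqrt_nonneg _) hG0'
    positivity
  have hYi : IntegrableOn Y (Ioo s t) := h2 Ω ν T u₀ f u G hO hB h s t G0 hs hst ht hG0'
  have hYst : 0 ≤ ∫ τ in s..t, Y τ := intervalIntegral.integral_nonneg hst.le fun τ _ => hYn τ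
  have hgs : gsq Ω (G s) ≤ G0 ^ 2 := by
    have e := Real.sq_sqrt (gsq_nonneg Ω (G s))
    rw [← e]
    exact pow_le_pow_left₀ (Real.sqrt_nonneg _) hG0 2
  have hKs : 0 ≤ Real.sqrt K := Real.sqrt_nonneg K
  have fni : ∀ a b : ℝ, 0 ≤ a → a ≤ b → b ≤ T →
      IntervalIntegrable (fun τ => fn Ω f τ) volume a b := fun a b ha hab hb =>
    ii_of (G3b_fn_int h) ha hab hb
  -- the first application of the flux estimate
  have key1 : ∀ b : ℝ, s ≤ b → b ≤ t →
      ∫ τ in s..b, |Bf Ω (u τ) (G s) (fun x => u τ x - u s x)| ≤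
        2 * C0 * G0 * ∫ τ in s..b, Y τ := by
    intro b hsb hbt
    have hI := (h3 Ω ν T u₀ f u G hO hB hν h K hK s b hs hsb (hbt.trans ht) hm).1
    have hI' : IntervalIntegrable (fun τ => |Bf Ω (u τ) (G s) (fun x => u τ x - u s x)|)
        volume s b := (Int_ii hI le_rfl hsb le_rfl).abs
    have hYb : IntervalIntegrable Y volume s b := Int_ii hYi le_rfl hsb hbt
    rw [← intervalIntegral.integral_const_mul]
    refine Int_mono hs hsb (hbt.trans ht) hI' (hYb.const_mul _) ?_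
    filter_upwards [h.grad_mem] with τ hτ
    have e := hT (u s) (u τ) (u s) (G s) (G τ) (G s) G0 hm hτ hm hG0
    rw [Int_nm_self, Real.sqrt_zero, mul_zero, zero_mul, add_zero] at e
    refine e.trans ?_
    have e2 : (Real.sqrt (gsq Ω (G s)) + G0) * Real.sqrt (nm Ω (fun x => u τ x - u s x)) *
            (Real.sqrt (gsq Ω (G τ)) + G0) ^ (3 / 2 : ℝ) ≤ 2 * G0 * Y τ := by
      rw [mul_assoc]
      exact mul_le_mul_of_nonneg_right (by linarith) (hYn τ)
    calc C0 * ((Real.sqrt (gsq Ω (G s)) + G0) * Real.sqrt (nm Ω (fun x => u τ x - u s x)) *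
            (Real.sqrt (gsq Ω (G τ)) + G0) ^ (3 / 2 : ℝ)) ≤ C0 * (2 * G0 * Y τ) :=
          mul_le_mul_of_nonneg_left e2 hC0.le
      _ = 2 * C0 * G0 * Y τ := by ring
  refine ⟨hYi, ?_, ?_⟩
  · -- the first consequence
    have e := (h3 Ω ν T u₀ f u G hO hB hν h K hK s t hs hst.le ht hm).2
    have k := key1 t hst.le le_rfl
    have n1 : 0 ≤ nm Ω (fun x => u t x - u s x) ^ 2 / 2 := by positivity
    have n2 : ν * (t - s) * gsq Ω (G s) ≤ ν * G0 ^ 2 * (t - s) := by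
      have : ν * (t - s) * gsq Ω (G s) ≤ ν * (t - s) * G0 ^ 2 :=
        mul_le_mul_of_nonneg_left hgs (mul_nonneg hν.le (by linarith))
      linarith
    have n3 : 2 * C0 * G0 * ∫ τ in s..t, Y τ ≤ (2 + 4 * C0) * G0 * ∫ τ in s..t, Y τ := by
      have : 0 ≤ G0 * ∫ τ in s..t, Y τ := mul_nonneg hG0' hYst
      nlinarith
    linarith
  · -- the second consequence
    intro hD σ hσ hmσ
    have hσ0 : 0 ≤ σ := hs.trans hσ.1.le
    have hσT : σ ≤ T := hσ.2.le.trans ht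
    set Γ : ℝ := Real.sqrt (gsq Ω (G σ)) + G0 with hΓ
    have hGΓ : G0 ≤ Γ := by
      rw [hΓ]
      linarith [Real.sqrt_nonneg (gsq Ω (G σ))]
    have hΓ0 : 0 ≤ Γ := hG0'.trans hGΓ
    have hgσ : gsq Ω (G σ) ≤ Γ ^ 2 := by
      have e := Real.sq_sqrt (gsq_nonneg Ω (G σ))
      rw [← e]
      exact pow_le_pow_left₀ (Real.sqrt_nonneg _) (by rw [hΓ]; linarith) 2
    have e1 := (h3 Ω ν T u₀ f u G hO hB hν h K hK s σ hs hσ.1.le hσT hm).2
    obtain ⟨i2, e2⟩ := h3 Ω ν T u₀ f u G hO hB hν h K hK σ t hσ0 hσ.2.le ht hmσ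
    have k1 := key1 σ hσ.1.le hσ.2.le
    set W : ℝ := Real.sqrt (nm Ω (fun x => u σ x - u s x)) with hW
    have hW0 : 0 ≤ W := Real.sqrt_nonneg _
    set P : ℝ := Γ ^ (3 / 2 : ℝ) with hP
    have hP0 : 0 ≤ P := Real.rpow_nonneg hΓ0 _
    have hYb : IntervalIntegrable Y volume σ t := Int_ii hYi hσ.1.le hσ.2.le le_rfl
    have hYa : IntervalIntegrable Y volume s σ := Int_ii hYi le_rfl hσ.1.le hσ.2.le
    have k2 : ∫ τ in σ..t, |Bf Ω (u τ) (G σ) (fun x => u τ x - u σ x)| ≤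
        C0 * Γ * (∫ τ in σ..t, Y τ) + C0 * (G0 * W * P) * (t - σ) := by
      have hI' : IntervalIntegrable (fun τ => |Bf Ω (u τ) (G σ) (fun x => u τ x - u σ x)|)
          volume σ t := (Int_ii i2 le_rfl hσ.2.le le_rfl).abs
      have e3 : ∫ τ in σ..t, (C0 * Γ * Y τ + C0 * (G0 * W * P)) =
          C0 * Γ * (∫ τ in σ..t, Y τ) + C0 * (G0 * W * P) * (t - σ) := by
        rw [intervalIntegral.integral_add (hYb.const_mul _) intervalIntegrable_const,
          intervalIntegral.integral_const_mul, intervalIntegral.integral_const, smul_eq_mul]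
        ring
      rw [← e3]
      refine Int_mono hσ0 hσ.2.le ht hI' ((hYb.const_mul _).add intervalIntegrable_const) ?_
      filter_upwards [h.grad_mem] with τ hτ
      have e := hT (u s) (u τ) (u σ) (G s) (G τ) (G σ) G0 hm hτ hmσ hG0
      refine e.trans (le_of_eq ?_)
      rw [← hΓ, ← hW, ← hP, hY]
      ring
    have sF := intervalIntegral.integral_add_adjacent_intervals
      (fni s σ hs hσ.1.le hσT) (fni σ t hσ0 hσ.2.le ht)
    have sY := intervalIntegral.integral_add_adjacent_intervals hYa hYb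
    have hYa0 : 0 ≤ ∫ τ in s..σ, Y τ :=
      intervalIntegral.integral_nonneg hσ.1.le fun τ _ => hYn τ
    have hYb0 : 0 ≤ ∫ τ in σ..t, Y τ :=
      intervalIntegral.integral_nonneg hσ.2.le fun τ _ => hYn τ
    have hF0 : 0 ≤ ∫ τ in s..t, fn Ω f τ :=
      intervalIntegral.integral_nonneg hst.le fun τ _ => Real.sqrt_nonneg _
    have n0 : 0 ≤ nm Ω (fun x => u t x - u σ x) ^ 2 / 2 := by positivity
    have m1 : ν * (σ - s) * gsq Ω (G s) ≤ ν * (σ - s) * Γ ^ 2 :=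
      mul_le_mul_of_nonneg_left (hgs.trans (pow_le_pow_left₀ hG0' hGΓ 2))
        (mul_nonneg hν.le (by linarith [hσ.1]))
    have m2 : ν * (t - σ) * gsq Ω (G σ) ≤ ν * (t - σ) * Γ ^ 2 :=
      mul_le_mul_of_nonneg_left hgσ (mul_nonneg hν.le (by linarith [hσ.2]))
    have m3 : 2 * C0 * G0 * (∫ τ in s..σ, Y τ) ≤ 2 * C0 * Γ * (∫ τ in s..σ, Y τ) :=
      mul_le_mul_of_nonneg_right (by nlinarith) hYa0
    have m4 : C0 * Γ * (∫ τ in σ..t, Y τ) ≤ 2 * C0 * Γ * (∫ τ in σ..t, Y τ) :=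
      mul_le_mul_of_nonneg_right (by nlinarith [mul_nonneg hC0.le hΓ0]) hYb0
    have q1 : 0 ≤ G0 * W * P := by positivity
    have m5 : C0 * (G0 * W * P) * (t - σ) ≤ C0 * (G0 * W * P) * (t - s) :=
      mul_le_mul_of_nonneg_left (by linarith [hσ.1]) (by positivity)
    have q2 : 0 ≤ ν * (t - s) * Γ ^ 2 := mul_nonneg (mul_nonneg hν.le (by linarith)) (sq_nonneg _)
    have q3 : 0 ≤ 2 * Real.sqrt K * (∫ τ in s..t, fn Ω f τ) := by positivity
    have q4 : 0 ≤ Γ * (∫ τ in s..t, Y τ) := mul_nonneg hΓ0 hYst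
    have q5 : 0 ≤ (t - s) * G0 * W * P := by
      have : 0 ≤ t - s := by linarith
      positivity
    set F := ∫ τ in s..t, fn Ω f τ
    set Yt := ∫ τ in s..t, Y τ
    have main : nm Ω (fun x => u σ x - u s x) ^ 2 ≤
        2 * (ν * (t - s) * Γ ^ 2) + 2 * (2 * Real.sqrt K * F) + 4 * C0 * (Γ * Yt) +
          2 * C0 * ((t - s) * G0 * W * P) := by
      have r1 : 2 * Real.sqrt K * (∫ τ in s..σ, fn Ω f τ) +
          2 * Real.sqrt K * (∫ τ in σ..t, fn Ω f τ) = 2 * Real.sqrt K * F := by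
        rw [← mul_add, sF]
      have r2 : 2 * C0 * Γ * (∫ τ in s..σ, Y τ) + 2 * C0 * Γ * (∫ τ in σ..t, Y τ) =
          2 * C0 * Γ * Yt := by
        rw [← mul_add, sY]
      linarith
    refine main.trans ?_
    have r3 : 0 ≤ C0 * (ν * (t - s) * Γ ^ 2) := mul_nonneg hC0.le q2
    have r4 : 0 ≤ C0 * (2 * Real.sqrt K * F) := mul_nonneg hC0.le q3
    have r5 : 0 ≤ C0 * ((t - s) * G0 * W * P) := mul_nonneg hC0.le q5
    linarith

end Pool.Agent.Helper83.WC
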