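import Pool.Agent.Helper83.WC.St
import Pool.Agent.Helper7.NT.Sel
import Pool.Agent.Helper52.NSE.Drop2

/-!
# Project WC, module KK: the window inequality for the energy defect
-/

set_option autoImplicit false

open MeasureTheory Set Filter Topology
open scoped ENNReal

noncomputable section

namespace Pool.Agent.Helper83.WC

open Pool.Agent.Helper52.NSE (E3 MemH1s IsWeakSolution gradSq kin defect nm gsq nm_nonneg
  gsq_nonneg ii_of sqrt_int)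
open Pool.Agent.Helper7.NT (sel_avg sel_anti)
open Pool.Agent.Helper60.EC (fn)

theorem KK_fn_int {Ω : Set E3} {ν T : ℝ} {u₀ : E3 → E3} {f u : ℝ → E3 → E3}
    {G : ℝ → Fin 3 → E3 → E3} (h : IsWeakSolution Ω ν T u₀ f u G) :
    IntegrableOn (fun τ => fn Ω f τ) (Icc 0 T) := h.nmf_int

theorem KK_X {r a : ℝ} (hr : 0 < r) (ha : 0 ≤ a) :
    r ^ (4 / 3 : ℝ) * Real.sqrt (a / r) ^ (10 / 3 : ℝ) = a ^ (5 / 3 : ℝ) * r ^ (-(1 / 3) : ℝ) := by
  rw [Real.sqrt_eq_rpow, ← Real.rpow_mul (by positivity), Real.div_rpow ha hr.le]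
  have h1 : (1 / 2 : ℝ) * (10 / 3) = 5 / 3 := by norm_num
  rw [h1, ← mul_div_assoc, mul_comm, mul_div_assoc, ← Real.rpow_sub hr]
  norm_num

theorem KK_Γ {Ω : Set E3} {ν T : ℝ} {u₀ : E3 → E3} {f u : ℝ → E3 → E3}
    {G : ℝ → Fin 3 → E3 → E3} (h : IsWeakSolution Ω ν T u₀ f u G) (G0 : ℝ) :
    IntegrableOn (fun τ => (Real.sqrt (gsq Ω (G τ)) + G0) ^ 2) (Icc 0 T) := by
  have h1 : IntegrableOn (fun τ => gsq Ω (G τ)) (Icc 0 T) := h.gsq_int
  have h2 : IntegrableOn (fun τ => Real.sqrt (gsq Ω (G τ))) (Icc 0 T) :=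
    sqrt_int h1 fun _ => gsq_nonneg _ _
  have h3 : IntegrableOn (fun _ : ℝ => G0 ^ 2) (Icc 0 T) := by
    rw [integrableOn_const_iff]
    right
    exact isCompact_Icc.measure_lt_top
  have h4 := (h1.add (h2.const_mul (2 * G0))).add h3
  refine h4.congr_fun (fun τ _ => ?_) measurableSet_Icc
  have := Real.sq_sqrt (gsq_nonneg Ω (G τ))
  simp only [Pi.add_apply]
  nlinarith

theorem wKK (h1 : StInt) (h2 : StAlg) : StKK := by
  intro Ω ν T u₀ f u G hO hb hν h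
  obtain ⟨K, hK⟩ := h.bound
  obtain ⟨C, hC, hInt⟩ := h1 Ω ν T u₀ f u G hO hb hν h K hK
  obtain ⟨C', hC', hAlg⟩ := h2 C ν hC hν
  have hsK : 0 ≤ Real.sqrt K := Real.sqrt_nonneg _
  have hCC : 0 < C * C' := mul_pos hC hC'
  refine ⟨2 * ν + C * C' + (1 + C * C') * (2 * Real.sqrt K) + 1, by positivity, ?_⟩
  intro t r hr hrt htT
  have hgI : IntegrableOn (fun τ => gsq Ω (G τ)) (Icc 0 T) := h.gsq_int
  have hfI := KK_fn_int h
  have ha0 : 0 ≤ t - 2 * r := by linarith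
  have hg0 : ∀ τ, 0 ≤ gsq Ω (G τ) := fun τ => gsq_nonneg _ _
  have hf0 : ∀ τ, 0 ≤ fn Ω f τ := fun τ => Real.sqrt_nonneg _
  obtain ⟨s, hs, hsm, hsle⟩ := sel_avg hgI (S := {s | MemH1s Ω (u s) (G s)}) h.grad_mem ha0
    (show t - 2 * r < t - r by linarith) (by linarith)
  have hs0 : 0 ≤ s := ha0.trans hs.1.le
  have hst : s < t := by linarith [hs.2]
  obtain ⟨Dw, hDw⟩ : ∃ Dw, Dw = ∫ τ in (t - 2 * r)..t, gsq Ω (G τ) := ⟨_, rfl⟩
  obtain ⟨Fn, hFn⟩ : ∃ Fn, Fn = ∫ τ in (t - 2 * r)..t, fn Ω f τ := ⟨_, rfl⟩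
  have hDw0 : 0 ≤ Dw := hDw ▸ intervalIntegral.integral_nonneg (by linarith) fun x _ => hg0 x
  have hFn0 : 0 ≤ Fn := hFn ▸ intervalIntegral.integral_nonneg (by linarith) fun x _ => hf0 x
  refine ⟨s, hs, ?_⟩
  have hsum : ∫ τ in (t - 2 * r)..t, (gradSq Ω (G τ) + fn Ω f τ) = Dw + Fn := by
    rw [hDw, hFn, ← intervalIntegral.integral_add (ii_of hgI ha0 (by linarith) htT)
      (ii_of hfI ha0 (by linarith) htT)]
    rfl
  have hgs : ∫ τ in (t - 2 * r)..t, gradSq Ω (G τ) = Dw := by rw [hDw]; rfl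
  show defect Ω ν f u G t ≤ defect Ω ν f u G s + _ * ((∫ τ in (t - 2 * r)..t,
    gradSq Ω (G τ)) ^ (5 / 3 : ℝ) * r ^ (-(1 / 3) : ℝ) +
      ∫ τ in (t - 2 * r)..t, (gradSq Ω (G τ) + fn Ω f τ))
  rw [hsum, hgs]
  obtain ⟨X, hX⟩ : ∃ X, X = Dw ^ (5 / 3 : ℝ) * r ^ (-(1 / 3) : ℝ) := ⟨_, rfl⟩
  have hX0 : 0 ≤ X := by rw [hX]; positivity
  rw [← hX]
  by_cases hcase : defect Ω ν f u G t ≤ defect Ω ν f u G s
  · have : 0 ≤ (2 * ν + C * C' + (1 + C * C') * (2 * Real.sqrt K) + 1) * (X + (Dw + Fn)) := by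
      positivity
    linarith
  rw [not_le] at hcase
  obtain ⟨G0, hG0⟩ : ∃ G0, G0 = Real.sqrt (Dw / r) := ⟨_, rfl⟩
  have hG00 : 0 ≤ G0 := hG0 ▸ Real.sqrt_nonneg _
  have hG2 : r * G0 ^ 2 = Dw := by
    rw [hG0, Real.sq_sqrt (by positivity)]
    field_simp
  -- the choice of `s`
  have hw1 : (∫ τ in (t - 2 * r)..(t - r), gsq Ω (G τ)) ≤ Dw := by
    have e1 : (∫ τ in (t - 2 * r)..(t - r), gsq Ω (G τ)) + (∫ τ in (t - r)..t, gsq Ω (G τ)) =
        Dw := by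
      rw [hDw]
      exact intervalIntegral.integral_add_adjacent_intervals
        (ii_of hgI ha0 (by linarith) (by linarith)) (ii_of hgI (by linarith) (by linarith) htT)
    have e2 : 0 ≤ ∫ τ in (t - r)..t, gsq Ω (G τ) :=
      intervalIntegral.integral_nonneg (by linarith) fun x _ => hg0 x
    linarith
  have hsG : Real.sqrt (gsq Ω (G s)) ≤ G0 := by
    rw [hG0]
    apply Real.sqrt_le_sqrt
    rw [le_div_iff₀ hr]
    have : (t - r - (t - 2 * r)) * gsq Ω (G s) ≤ Dw := hsle.trans hw1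
    nlinarith
  have hws : (∫ τ in s..t, gsq Ω (G τ)) ≤ Dw := by
    rw [hDw]
    exact sel_anti htT hgI hg0 ha0 hs.1.le hst.le
  have hfs : (∫ τ in s..t, fn Ω f τ) ≤ Fn := by
    rw [hFn]
    exact sel_anti htT hfI hf0 ha0 hs.1.le hst.le
  have hfs0 : 0 ≤ ∫ τ in s..t, fn Ω f τ :=
    intervalIntegral.integral_nonneg hst.le fun x _ => hf0 x
  obtain ⟨hi, hd, hp⟩ := hInt s t G0 hs0 hst htT hsm hsG
  have hp' := hp hcase.le
  obtain ⟨F, hF⟩ : ∃ F, F = 2 * Real.sqrt K * (∫ τ in s..t, fn Ω f τ) := ⟨_, rfl⟩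
  have hF0 : 0 ≤ F := hF ▸ by positivity
  have hFle : F ≤ 2 * Real.sqrt K * Fn := by
    rw [hF]; exact mul_le_mul_of_nonneg_left hfs (by positivity)
  have hsub : Ioo s t ⊆ Icc 0 T := fun x hx => ⟨hs0.trans hx.1.le, hx.2.le.trans htT⟩
  have hΓI := KK_Γ h G0
  have hΓ : ∫ τ in s..t, (Real.sqrt (gsq Ω (G τ)) + G0) ^ 2 ≤ 6 * r * G0 ^ 2 := by
    have e1 : ∫ τ in s..t, (Real.sqrt (gsq Ω (G τ)) + G0) ^ 2 ≤
        ∫ τ in s..t, (2 * gsq Ω (G τ) + 2 * G0 ^ 2) := by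
      refine intervalIntegral.integral_mono_on hst.le (ii_of hΓI hs0 hst.le htT)
        (((ii_of hgI hs0 hst.le htT).const_mul 2).add (by simp)) fun τ _ => ?_
      have := Real.sq_sqrt (hg0 τ)
      nlinarith [sq_nonneg (Real.sqrt (gsq Ω (G τ)) - G0)]
    have e2 : ∫ τ in s..t, (2 * gsq Ω (G τ) + 2 * G0 ^ 2) =
        2 * (∫ τ in s..t, gsq Ω (G τ)) + (t - s) * (2 * G0 ^ 2) := by
      rw [intervalIntegral.integral_add ((ii_of hgI hs0 hst.le htT).const_mul 2) (by simp),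
        intervalIntegral.integral_const_mul, intervalIntegral.integral_const, smul_eq_mul]
    have e3 : (t - s) * (2 * G0 ^ 2) ≤ 2 * r * (2 * G0 ^ 2) :=
      mul_le_mul_of_nonneg_right (by linarith [hs.1]) (by positivity)
    rw [e2] at e1
    nlinarith
  have hA := hAlg s t r G0 F (fun τ => nm Ω (fun x => u τ x - u s x))
    (fun τ => Real.sqrt (gsq Ω (G τ)) + G0) hr hst (by linarith [hs.1]) hG00 hF0
    (fun τ => nm_nonneg _ _) (fun τ => by have := Real.sqrt_nonneg (gsq Ω (G τ)); linarith)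
    (hΓI.mono_set hsub) hΓ hi (by
      have m1 : ∀ᵐ σ ∂(volume.restrict (Ioo s t)), MemH1s Ω (u σ) (G σ) :=
        ae_restrict_of_ae_restrict_of_subset hsub h.grad_mem
      filter_upwards [m1, ae_restrict_mem measurableSet_Ioo] with σ hσ1 hσ2
      have := hp' σ hσ2 hσ1
      rw [← hF] at this
      exact this)
  rw [hG2, hG0, KK_X hr hDw0, ← hX, ← hG0] at hA
  obtain ⟨Y, hY⟩ : ∃ Y, Y = ∫ τ in s..t, Real.sqrt (nm Ω (fun x => u τ x - u s x)) *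
    (Real.sqrt (gsq Ω (G τ)) + G0) ^ (3 / 2 : ℝ) := ⟨_, rfl⟩
  rw [← hY] at hA hd
  rw [← hF] at hd
  have k1 : C * G0 * Y ≤ C * (C' * (Dw + F + X)) := by
    rw [mul_assoc]
    exact mul_le_mul_of_nonneg_left hA hC.le
  have k2 : ν * G0 ^ 2 * (t - s) ≤ 2 * ν * Dw := by
    have : ν * G0 ^ 2 * (t - s) ≤ ν * G0 ^ 2 * (2 * r) :=
      mul_le_mul_of_nonneg_left (by linarith [hs.1]) (by positivity)
    nlinarith
  have k3 : (1 + C * C') * F ≤ (1 + C * C') * (2 * Real.sqrt K * Fn) :=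
    mul_le_mul_of_nonneg_left hFle (by positivity)
  have k4 : defect Ω ν f u G t - defect Ω ν f u G s ≤
      (2 * ν + C * C') * Dw + (1 + C * C') * (2 * Real.sqrt K) * Fn + C * C' * X := by
    nlinarith
  have z1 : 0 ≤ (2 * ν + C * C') * Fn := by positivity
  have z2 : 0 ≤ (1 + C * C') * (2 * Real.sqrt K) * Dw := by positivity
  have z3 : 0 ≤ (2 * ν + (1 + C * C') * (2 * Real.sqrt K)) * X := by positivity
  nlinarith

end Pool.Agent.Helper83.WC
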