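import Pool.Agent.Helper83.WC.StB

/-! Project WC, Lyr: from the distribution function to integrals over sets -/

set_option autoImplicit false

open MeasureTheory Set Filter Topology
open scoped ENNReal

noncomputable section

namespace Pool.Agent.Helper83.WC

/-- the integral of the bound for the distribution function -/
theorem Lyr_calc {m C : ℝ} (hm : 0 < m) (hC : 0 ≤ C) {Φ : ℝ → ℝ≥0∞}
    (h1 : ∀ l, 0 < l → Φ l ≤ ENNReal.ofReal m)
    (h2 : ∀ l, 0 < l → Φ l ≤ ENNReal.ofReal (C * l ^ (-4 : ℝ))) :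
    ENNReal.ofReal 2 * ∫⁻ l in Ioi (0 : ℝ), Φ l * ENNReal.ofReal (l ^ ((2 : ℝ) - 1)) ≤
      ENNReal.ofReal ((1 + C) * m ^ (1 / 2 : ℝ)) := by
  set l₀ : ℝ := m ^ (-(1 / 4) : ℝ) with hl₀
  have hl₀pos : 0 < l₀ := Real.rpow_pos_of_pos hm _
  have e0 : l₀ ^ 2 = m ^ (-(1 / 2) : ℝ) := by
    rw [hl₀, ← Real.rpow_natCast, ← Real.rpow_mul hm.le]
    norm_num
  have e1 : m * l₀ ^ 2 = m ^ (1 / 2 : ℝ) := by
    rw [e0]
    nth_rewrite 1 [← Real.rpow_one m]
    rw [← Real.rpow_add hm]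
    norm_num
  have e2 : l₀ ^ (-2 : ℝ) = m ^ (1 / 2 : ℝ) := by
    rw [hl₀, ← Real.rpow_mul hm.le]
    norm_num
  have hsplit : Ioi (0 : ℝ) = Ioc 0 l₀ ∪ Ioi l₀ := (Ioc_union_Ioi_eq_Ioi hl₀pos.le).symm
  have hle : ∫⁻ l in Ioi (0 : ℝ), Φ l * ENNReal.ofReal (l ^ ((2 : ℝ) - 1)) ≤
      (∫⁻ l in Ioc (0 : ℝ) l₀, Φ l * ENNReal.ofReal (l ^ ((2 : ℝ) - 1))) +
        ∫⁻ l in Ioi l₀, Φ l * ENNReal.ofReal (l ^ ((2 : ℝ) - 1)) := by
    rw [hsplit]
    exact lintegral_union_le _ _ _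
  have hA : ∫⁻ l in Ioc (0 : ℝ) l₀, Φ l * ENNReal.ofReal (l ^ ((2 : ℝ) - 1)) ≤
      ENNReal.ofReal (m * (l₀ ^ 2 / 2)) := by
    have k1 : ∫⁻ l in Ioc (0 : ℝ) l₀, Φ l * ENNReal.ofReal (l ^ ((2 : ℝ) - 1)) ≤
        ∫⁻ l in Ioc (0 : ℝ) l₀, ENNReal.ofReal (m * l) := by
      refine setLIntegral_mono' measurableSet_Ioc fun l hl => ?_
      rw [show (2 : ℝ) - 1 = 1 by norm_num, Real.rpow_one, ENNReal.ofReal_mul hm.le]
      gcongr
      exact h1 l hl.1
    refine k1.trans (le_of_eq ?_)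
    rw [← ofReal_integral_eq_lintegral_ofReal]
    · congr 1
      rw [← intervalIntegral.integral_of_le hl₀pos.le, intervalIntegral.integral_const_mul,
        integral_id]
      ring
    · exact (continuous_const.mul continuous_id).integrableOn_Ioc
    · filter_upwards [ae_restrict_mem measurableSet_Ioc] with l hl
      exact mul_nonneg hm.le hl.1.le
  have hB : ∫⁻ l in Ioi l₀, Φ l * ENNReal.ofReal (l ^ ((2 : ℝ) - 1)) ≤
      ENNReal.ofReal (C * (l₀ ^ (-2 : ℝ) / 2)) := by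
    have k1 : ∫⁻ l in Ioi l₀, Φ l * ENNReal.ofReal (l ^ ((2 : ℝ) - 1)) ≤
        ∫⁻ l in Ioi l₀, ENNReal.ofReal (C * l ^ (-3 : ℝ)) := by
      refine setLIntegral_mono' measurableSet_Ioi fun l hl => ?_
      have hl0 : 0 < l := hl₀pos.trans hl
      have e : C * l ^ (-3 : ℝ) = (C * l ^ (-4 : ℝ)) * l ^ ((2 : ℝ) - 1) := by
        rw [mul_assoc, ← Real.rpow_add hl0]
        norm_num
      rw [e, ENNReal.ofReal_mul (by positivity)]
      gcongr
      exact h2 l hl0
    refine k1.trans (le_of_eq ?_)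
    rw [← ofReal_integral_eq_lintegral_ofReal]
    · congr 1
      rw [integral_const_mul, integral_Ioi_rpow_of_lt (by norm_num) hl₀pos]
      norm_num
    · exact (integrableOn_Ioi_rpow_of_lt (by norm_num) hl₀pos).const_mul C
    · filter_upwards [ae_restrict_mem measurableSet_Ioi] with l hl
      have hl0 : 0 < l := hl₀pos.trans hl
      positivity
  calc ENNReal.ofReal 2 * ∫⁻ l in Ioi (0 : ℝ), Φ l * ENNReal.ofReal (l ^ ((2 : ℝ) - 1))
      ≤ ENNReal.ofReal 2 * (ENNReal.ofReal (m * (l₀ ^ 2 / 2)) +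
          ENNReal.ofReal (C * (l₀ ^ (-2 : ℝ) / 2))) := by
        gcongr
        exact hle.trans (add_le_add hA hB)
    _ = ENNReal.ofReal ((1 + C) * m ^ (1 / 2 : ℝ)) := by
        rw [← ENNReal.ofReal_add (by positivity) (by positivity),
          ← ENNReal.ofReal_mul (by norm_num)]
        congr 1
        rw [e2, ← e1]
        ring

theorem wLyr : StLyr := by
  intro T t δ C n hn hmeas hC hδ ht hdist E hE hsub
  have hEI : E ⊆ Icc 0 T := fun x hx => (hsub hx).2
  have hfin : volume E ≠ ⊤ := ((measure_mono hEI).trans_lt (by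
    rw [Real.volume_Icc]; exact ENNReal.ofReal_lt_top)).ne
  have hmE : AEStronglyMeasurable n (volume.restrict E) :=
    hmeas.mono_measure (Measure.restrict_mono hEI le_rfl)
  have hint : ∫ τ in E, n τ ^ 2 =
      (∫⁻ τ in E, ENNReal.ofReal (n τ ^ (2 : ℝ))).toReal := by
    rw [integral_eq_lintegral_of_nonneg_ae]
    · simp only [Real.rpow_two]
    · exact Eventually.of_forall fun τ => sq_nonneg _
    · exact hmE.pow 2
  set m := (volume E).toReal with hm
  show ∫ τ in E, n τ ^ 2 ≤ (1 + C) * m ^ (1 / 2 : ℝ)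
  rcases (ENNReal.toReal_nonneg : 0 ≤ m).eq_or_lt with h0 | hmpos
  · have hE0 : volume E = 0 := by
      rcases (ENNReal.toReal_eq_zero_iff _).1 (hm ▸ h0.symm) with h | h
      · exact h
      · exact absurd h hfin
    rw [Measure.restrict_eq_zero.2 hE0, integral_zero_measure]
    have : 0 ≤ m ^ (1 / 2 : ℝ) := Real.rpow_nonneg ENNReal.toReal_nonneg _
    positivity
  · rw [hint]
    refine ENNReal.toReal_le_of_le_ofReal (by positivity) ?_
    rw [lintegral_rpow_eq_lintegral_meas_lt_mul (volume.restrict E)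
      (Eventually.of_forall hn) hmE.aemeasurable (by norm_num : (0 : ℝ) < 2)]
    refine Lyr_calc hmpos hC (fun l _ => ?_) (fun l hl => ?_)
    · refine (measure_mono (subset_univ _)).trans ?_
      rw [Measure.restrict_apply_univ, ENNReal.ofReal_toReal hfin]
    · refine le_trans ?_ (hdist l hl)
      rw [Measure.restrict_apply' hE]
      refine measure_mono ?_
      rintro s ⟨hs1, hs2⟩
      exact ⟨(hsub hs2).1, (hsub hs2).2.1, hs1⟩

end Pool.Agent.Helper83.WC
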