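import Pool.Agent.Helper83.WC.St

/-!
# Project WC, module Mx: the running maximum
-/

set_option autoImplicit false

open MeasureTheory Set Filter Topology

noncomputable section

namespace Pool.Agent.Helper83.WC

theorem Mx_usc {T : ℝ} {D : ℝ → ℝ} (h : Usc T D) {b : ℝ} (hb : b ≤ T) :
    UpperSemicontinuousOn D (Icc 0 b) := by
  intro x hx y hy
  have hx' : x ∈ Icc 0 T := ⟨hx.1, hx.2.trans hb⟩
  have h1 := h x hx' ((y - D x) / 2) (by linarith)
  have h2 : ∀ᶠ t in 𝓝[Icc 0 b] x, D t ≤ D x + (y - D x) / 2 :=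
    h1.filter_mono (nhdsWithin_mono x (Icc_subset_Icc_right hb))
  filter_upwards [h2] with t ht
  linarith

/-- the maximum on `[0, b]` is attained -/
theorem Mx_att {T : ℝ} {D : ℝ → ℝ} (h : Usc T D) {b : ℝ} (h0 : 0 ≤ b) (hb : b ≤ T) :
    ∃ t ∈ Icc 0 b, D t = Mx D b ∧ ∀ s ∈ Icc 0 b, D s ≤ Mx D b := by
  obtain ⟨t, ht, hm⟩ := UpperSemicontinuousOn.exists_isMaxOn (s := Icc 0 b) ⟨0, left_mem_Icc.2 h0⟩
    isCompact_Icc (Mx_usc h hb)
  have hg : IsGreatest (D '' Icc 0 b) (D t) := by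
    refine ⟨mem_image_of_mem _ ht, ?_⟩
    rintro _ ⟨s, hs, rfl⟩
    exact hm hs
  have he : D t = Mx D b := (hg.csSup_eq).symm
  exact ⟨t, ht, he, fun s hs => he ▸ hm hs⟩

theorem Mx_le {T : ℝ} {D : ℝ → ℝ} (h : Usc T D) {b c : ℝ} (h0 : 0 ≤ b) (hb : b ≤ T)
    (hc : ∀ s ∈ Icc 0 b, D s ≤ c) : Mx D b ≤ c := by
  obtain ⟨t, ht, he, -⟩ := Mx_att h h0 hb
  exact he ▸ hc t ht

theorem Mx_ge {T : ℝ} {D : ℝ → ℝ} (h : Usc T D) {b s : ℝ} (h0 : 0 ≤ s) (hs : s ≤ b) (hb : b ≤ T) :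
    D s ≤ Mx D b := by
  obtain ⟨t, ht, he, hm⟩ := Mx_att h (h0.trans hs) hb
  exact hm s ⟨h0, hs⟩

theorem Mx_mono {T : ℝ} {D : ℝ → ℝ} (h : Usc T D) {a b : ℝ} (h0 : 0 ≤ a) (hab : a ≤ b)
    (hb : b ≤ T) : Mx D a ≤ Mx D b :=
  Mx_le h h0 (hab.trans hb) fun _ hs => Mx_ge h hs.1 (hs.2.trans hab) hb

theorem wMx : StMx := by
  intro T D hT hU hN
  have hmono : MonotoneOn (Mx D) (Icc 0 T) := fun a ha b hb hab => Mx_mono hU ha.1 hab hb.2
  refine ⟨?_, hmono, fun t ht => Mx_ge hU ht.1 le_rfl ht.2, ?_, ?_⟩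
  · -- continuity
    intro t₀ ht₀
    rw [ContinuousWithinAt, Metric.tendsto_nhds]
    intro ε hε
    -- upper bound
    have hup : ∀ᶠ t in 𝓝[Icc 0 T] t₀, Mx D t ≤ Mx D t₀ + ε / 2 := by
      have h1 := hU t₀ ht₀ (ε / 2) (by linarith)
      rw [Filter.Eventually, Metric.mem_nhdsWithin_iff] at h1
      obtain ⟨δ, hδ, hs⟩ := h1
      rw [Filter.Eventually, Metric.mem_nhdsWithin_iff]
      refine ⟨δ, hδ, ?_⟩
      rintro t ⟨ht, htT⟩
      refine Mx_le hU htT.1 htT.2 ?_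
      intro s hs'
      rcases le_or_gt s t₀ with hst | hst
      · have := Mx_ge hU hs'.1 hst ht₀.2
        linarith
      · have h2 : s ∈ Metric.ball t₀ δ := by
          rw [Metric.mem_ball, Real.dist_eq] at ht ⊢
          rw [abs_of_pos (by linarith)]
          have : t - t₀ ≤ |t - t₀| := le_abs_self _
          linarith [hs'.2]
        have h3 : D s ≤ D t₀ + ε / 2 := hs ⟨h2, ⟨hs'.1, hs'.2.trans htT.2⟩⟩
        have := Mx_ge hU ht₀.1 le_rfl ht₀.2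
        linarith
    -- lower bound
    have hlow : ∀ᶠ t in 𝓝[Icc 0 T] t₀, Mx D t₀ ≤ Mx D t + ε / 2 := by
      rcases eq_or_lt_of_le ht₀.1 with h0 | h0
      · filter_upwards [self_mem_nhdsWithin] with t ht
        have := Mx_mono hU ht₀.1 (h0 ▸ ht.1) ht.2
        linarith
      · obtain ⟨a, ha, he, -⟩ := Mx_att hU ht₀.1 ht₀.2
        -- a point `s < t₀` with `Mx D t₀ ≤ D s + ε / 2`
        obtain ⟨s, hs0, hst, hD⟩ : ∃ s, 0 ≤ s ∧ s < t₀ ∧ Mx D t₀ ≤ D s + ε / 2 := by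
          rcases eq_or_lt_of_le ha.2 with h1 | h1
          · obtain ⟨s, hs, hs0, hD⟩ := hN t₀ ⟨h0, ht₀.2⟩ (ε / 2) 1 (by linarith) one_pos
            exact ⟨s, hs0, hs.2, by rw [← he, h1]; exact hD⟩
          · exact ⟨a, ha.1, h1, by linarith⟩
        have hev : ∀ᶠ t in 𝓝[Icc 0 T] t₀, s < t :=
          (lt_mem_nhds hst).filter_mono nhdsWithin_le_nhds
        filter_upwards [hev, self_mem_nhdsWithin] with t ht htT
        have := Mx_ge hU hs0 ht.le htT.2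
        linarith
    filter_upwards [hup, hlow] with t h1 h2
    rw [Real.dist_eq, abs_lt]
    constructor <;> linarith
  · obtain ⟨t, ht, he, -⟩ := Mx_att hU le_rfl hT.le
    have : t = 0 := le_antisymm ht.2 ht.1
    rw [← he, this]
  · intro a b ha hab hb hlt
    obtain ⟨t, ht, he, -⟩ := Mx_att hU (ha.trans hab.le) hb
    have hat : a < t := by
      by_contra hcon
      push Not at hcon
      have := Mx_ge hU ht.1 hcon (hab.le.trans hb)
      linarith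
    refine ⟨t, ⟨hat, ht.2⟩, he, le_antisymm (Mx_mono hU ht.1 ht.2 hb) ?_⟩
    rw [← he]
    exact Mx_ge hU ht.1 le_rfl (ht.2.trans hb)

end Pool.Agent.Helper83.WC
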