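import Pool.Agent.Helper83.WC.St

/-! # Project WC, module Ovl -/

set_option autoImplicit false

open MeasureTheory Set Filter Topology
open scoped ENNReal

noncomputable section

namespace Pool.Agent.Helper83.WC

/-- one cell -/
def Ovl_I (c r : ℝ) (i : ℕ) (j : ℕ) : Set ℝ :=
  Ioc (c + j * r + ((i : ℝ) - 2) * r) (c + j * r + ((i : ℝ) - 1) * r)

theorem Ovl_disj {c r : ℝ} (hr : 0 < r) (i : ℕ) {j k : ℕ} (hjk : j ≠ k) :
    Disjoint (Ovl_I c r i j) (Ovl_I c r i k) := by
  wlog h : j < k generalizing j k with H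
  · exact (H hjk.symm (lt_of_le_of_ne (not_lt.1 h) hjk.symm)).symm
  rw [Set.disjoint_left]
  intro x hx hx'
  unfold Ovl_I at hx hx'
  rw [mem_Ioc] at hx hx'
  have h1 : (j : ℝ) + 1 ≤ k := by exact_mod_cast h
  have h2 : ((j : ℝ) + 1) * r ≤ k * r := mul_le_mul_of_nonneg_right h1 hr.le
  nlinarith [hx.2, hx'.1]

theorem Ovl_sub {c r : ℝ} (hr : 0 < r) {i : ℕ} (hi : i < 3) (j : ℕ) :
    Ovl_I c r i j ⊆ Cl c r j := by
  intro x hx
  unfold Ovl_I at hx
  unfold Cl
  rw [mem_Ioc] at hx ⊢
  have h0 : (0 : ℝ) ≤ i := Nat.cast_nonneg i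
  have h2 : (i : ℝ) ≤ 2 := by exact_mod_cast (by omega : i ≤ 2)
  constructor
  · nlinarith [hx.1, mul_nonneg h0 hr.le]
  · nlinarith [hx.2, mul_le_mul_of_nonneg_right h2 hr.le]

theorem wOvl : StOvl := by
  intro h T c r S h0 hh hr hS
  classical
  have hmeas : ∀ j, MeasurableSet (Cl c r j) := fun j => measurableSet_Ioc
  have hU : MeasurableSet (⋃ j ∈ S, Cl c r j) := Finset.measurableSet_biUnion S fun j _ => hmeas j
  have hUT : (⋃ j ∈ S, Cl c r j) ⊆ Icc 0 T := iUnion₂_subset hS
  constructor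
  · have h1 : ∀ j ∈ S, (∫ τ in (c + j * r - 2 * r)..(c + j * r + r), h τ) =
        ∑ i ∈ Finset.range 3, ∫ τ in Ovl_I c r i j, h τ := by
      intro j hj
      have hj' := hS j hj
      unfold Cl at hj'
      have ii : ∀ i < 3, IntegrableOn h (Ovl_I c r i j) := fun i hi =>
        hh.mono_set ((Ovl_sub hr hi j).trans (hS j hj))
      have v : ∀ i : ℕ, i < 3 → (∫ τ in Ovl_I c r i j, h τ) =
          ∫ τ in (c + j * r + ((i : ℝ) - 2) * r)..(c + j * r + ((i : ℝ) - 1) * r), h τ := by
        intro i _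
        rw [intervalIntegral.integral_of_le (by nlinarith)]
        rfl
      have w : ∀ i : ℕ, i < 3 → IntervalIntegrable h volume
          (c + j * r + ((i : ℝ) - 2) * r) (c + j * r + ((i : ℝ) - 1) * r) := by
        intro i hi
        rw [intervalIntegrable_iff_integrableOn_Ioc_of_le (by nlinarith)]
        exact ii i hi
      rw [Finset.sum_range_succ, Finset.sum_range_succ, Finset.sum_range_succ,
        Finset.sum_range_zero, zero_add, v 0 (by norm_num), v 1 (by norm_num), v 2 (by norm_num)]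
      have w0 := w 0 (by norm_num)
      have w1 := w 1 (by norm_num)
      have w2 := w 2 (by norm_num)
      have e0 : c + j * r + (((0 : ℕ) : ℝ) - 2) * r = c + j * r - 2 * r := by push_cast; ring
      have e1 : c + j * r + (((0 : ℕ) : ℝ) - 1) * r = c + j * r - r := by push_cast; ring
      have e2 : c + j * r + (((1 : ℕ) : ℝ) - 2) * r = c + j * r - r := by push_cast; ring
      have e3 : c + j * r + (((1 : ℕ) : ℝ) - 1) * r = c + j * r := by push_cast; ring
      have e4 : c + j * r + (((2 : ℕ) : ℝ) - 2) * r = c + j * r := by push_cast; ring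
      have e5 : c + j * r + (((2 : ℕ) : ℝ) - 1) * r = c + j * r + r := by push_cast; ring
      rw [e0, e1] at w0
      rw [e2, e3] at w1
      rw [e4, e5] at w2
      rw [e0, e1, e2, e3, e4, e5, intervalIntegral.integral_add_adjacent_intervals w0 w1,
        intervalIntegral.integral_add_adjacent_intervals (w0.trans w1) w2]
    rw [Finset.sum_congr rfl h1, Finset.sum_comm]
    have h2 : ∀ i ∈ Finset.range 3, ∑ j ∈ S, (∫ τ in Ovl_I c r i j, h τ) ≤
        ∫ τ in ⋃ j ∈ S, Cl c r j, h τ := by
      intro i hi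
      rw [Finset.mem_range] at hi
      have hm : ∀ j ∈ S, MeasurableSet (Ovl_I c r i j) := fun j _ => measurableSet_Ioc
      rw [← integral_biUnion_finset S hm (fun j _ k _ hjk => Ovl_disj hr i hjk)
        (fun j hj => hh.mono_set ((Ovl_sub hr hi j).trans (hS j hj)))]
      refine setIntegral_mono_set (hh.mono_set hUT) (ae_of_all _ fun x => h0 x) ?_
      exact (iUnion₂_mono fun j _ => Ovl_sub hr hi j).eventuallyLE
    refine (Finset.sum_le_sum h2).trans ?_
    rw [Finset.sum_const, Finset.card_range, nsmul_eq_mul]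
    norm_num
  · have h1 : volume (⋃ j ∈ S, Cl c r j) ≤ ∑ j ∈ S, volume (Cl c r j) :=
      measure_biUnion_finset_le S _
    have h2 : ∑ j ∈ S, volume (Cl c r j) = ENNReal.ofReal (3 * (S.card : ℝ) * r) := by
      have h3 : ∀ j ∈ S, volume (Cl c r j) = ENNReal.ofReal (3 * r) := by
        intro j _
        unfold Cl
        rw [Real.volume_Ioc]
        congr 1
        ring
      rw [Finset.sum_congr rfl h3, Finset.sum_const, nsmul_eq_mul,
        show 3 * (S.card : ℝ) * r = (S.card : ℝ) * (3 * r) by ring,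
        ENNReal.ofReal_mul (Nat.cast_nonneg _), ENNReal.ofReal_natCast]
    rw [h2] at h1
    exact ENNReal.toReal_le_of_le_ofReal (by positivity) h1

end Pool.Agent.Helper83.WC
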