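import Pool.Agent.Helper83.WC.StB
import Pool.Agent.Helper7.NT.RV

/-!
# Project WC, module RVp: the real-variable theorem
-/

set_option autoImplicit false

open MeasureTheory Set Filter Topology
open scoped ENNReal

namespace Pool.Agent.Helper83.WC

/-- `Mx D` is constant on the right end of an interval without mass -/
theorem RVp_const {T : ℝ} {D : ℝ → ℝ} {μ : Measure ℝ} {Z : Set ℝ} (hS : Sing T D μ Z)
    {a t : ℝ} (ha : 0 ≤ a) (hat : a < t) (ht : t ≤ T) (h : μ (Ioo a t) = 0) {s : ℝ}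
    (hs : s ∈ Ioo a t) : Mx D t ≤ Mx D s := by
  have h1 : μ (Ioc s t) = 0 := by
    have h2 : Ioc s t ⊆ Ioo a t ∪ {t} := by
      intro x hx
      rcases eq_or_lt_of_le hx.2 with h3 | h3
      · exact Or.inr h3
      · exact Or.inl ⟨hs.1.trans hx.1, h3⟩
    refine measure_mono_null h2 ?_
    rw [measure_union_null_iff]
    exact ⟨h, hS.atom t⟩
  rw [hS.ioc s t (ha.trans hs.1.le) hs.2.le ht, ENNReal.ofReal_eq_zero] at h1
  linarith

/-- where `D` is below its running maximum, this maximum is constant -/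
theorem RVp_below (hMx : StMx) {T : ℝ} {D : ℝ → ℝ} (hT : 0 < T) (hU : Usc T D)
    (hJ : NoJump T D) {t : ℝ} (ht : t ∈ Ioc 0 T) (hlt : D t < Mx D t) :
    ∃ δ : ℝ, 0 < δ ∧ ∀ s ∈ Ioo (t - δ) t, 0 ≤ s → Mx D t ≤ Mx D s := by
  obtain ⟨hc, hmono, hle, h0, hlast⟩ := hMx T D hT hU hJ
  set η : ℝ := (Mx D t - D t) / 2 with hη
  have hη0 : 0 < η := by rw [hη]; linarith
  have htI : t ∈ Icc 0 T := ⟨ht.1.le, ht.2⟩
  have h1 := hU t htI η hη0
  rw [eventually_nhdsWithin_iff, Metric.eventually_nhds_iff] at h1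
  obtain ⟨δ, hδ, hb⟩ := h1
  refine ⟨δ, hδ, fun s hs hs0 => ?_⟩
  by_contra hcon
  push Not at hcon
  obtain ⟨x, hx, hx1, -⟩ := hlast s t hs0 hs.2 ht.2 hcon
  have h2 := hb (y := x) (by
    rw [Real.dist_eq, abs_lt]
    constructor <;> linarith [hx.1, hx.2, hs.1]) ⟨hs0.trans hx.1.le, hx.2.trans ht.2⟩
  rw [hx1] at h2
  rw [hη] at h2
  linarith

theorem wRVp (hMx : StMx) (hSing : StSing) (hLoc : StLoc) (hVit : StVit) : StRVp := by
  intro T D g b F h A B C hT hU hJ hZ hg hb hF hh hgi hbi hFi hhi hA hW hB hW4 hC hI t ht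
  obtain ⟨μ, Z, hS⟩ := hSing T D hT hU hJ hZ
  obtain ⟨hc, hmono, hle, h0, hlast⟩ := hMx T D hT hU hJ
  -- a lemma
  have hcase : ∀ t ∈ Ioc 0 T, ∀ (P : ℝ → Prop), (∀ s, Mx D t ≤ Mx D s → P s) →
      (∀ δ : ℝ, 0 < δ → ∃ s ∈ Ioo (t - δ) t, 0 ≤ s ∧ (D t = Mx D t → P s)) →
      ∀ δ : ℝ, 0 < δ → ∃ s ∈ Ioo (t - δ) t, 0 ≤ s ∧ P s := by
    intro t ht P hP1 hP2 δ hδ
    rcases eq_or_lt_of_le (hle t ⟨ht.1.le, ht.2⟩) with he | hlt
    · obtain ⟨s, hs, hs0, hs1⟩ := hP2 δ hδ
      exact ⟨s, hs, hs0, hs1 he⟩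
    · obtain ⟨δ', hδ', hb'⟩ := RVp_below hMx hT hU hJ ht hlt
      have h1 : max (t - min δ δ') 0 < t := max_lt (by linarith [lt_min hδ hδ']) ht.1
      obtain ⟨s, hs1, hs2⟩ := exists_between h1
      have hs3 : t - min δ δ' < s := (le_max_left _ _).trans_lt hs1
      have hs4 : 0 ≤ s := ((le_max_right _ _).trans_lt hs1).le
      refine ⟨s, ⟨by linarith [min_le_left δ δ'], hs2⟩, hs4, hP1 s (hb' s ⟨by
        linarith [min_le_right δ δ'], hs2⟩ hs4)⟩
  have hm : ∀ t ∈ Icc 0 T, Mx D t ≤ Mx D 0 := by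
    refine Pool.Agent.Helper7.NT.rv (D := Mx D) (g := h) hhi hh (C := C) hC ?_ ?_ ?_
    · intro x hx η hη
      have h1 := (hc x hx).eventually (gt_mem_nhds (show Mx D x < Mx D x + η by linarith))
      exact h1.mono fun s hs => hs.le
    · have hpos : ∀ᵐ s ∂(volume.restrict (Icc 0 T)), s ∈ Ioc 0 T := by
        rw [ae_restrict_iff' measurableSet_Icc]
        have h1 : ∀ᵐ s : ℝ, s ≠ 0 := by
          rw [ae_iff]
          simp
        filter_upwards [h1] with s hs1 hs2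
        exact ⟨lt_of_le_of_ne hs2.1 (Ne.symm hs1), hs2.2⟩
      filter_upwards [hZ, hpos] with t ht ht' η δ hη hδ
      refine hcase t ht' (fun s => s ≤ t → Mx D t ≤ Mx D s + η * (t - s)) (fun s hs hst => by
        nlinarith [mul_nonneg hη.le (sub_nonneg.2 hst)]) (fun δ hδ => ?_) δ hδ |>.imp
          fun s hs => ⟨hs.1, hs.2.1, hs.2.2 hs.1.2.le⟩
      obtain ⟨s, hs, hs0, hs1⟩ := ht η δ hη hδ
      refine ⟨s, hs, hs0, fun he _ => ?_⟩
      have := hle s ⟨hs0, hs.2.le.trans ht'.2⟩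
      linarith
    · intro t ht
      rcases hI t ht with ⟨M, hM⟩ | ⟨L, δ, hL, hδ, hw⟩ | ⟨L, δ, hL, hδ, hw⟩ | htC
      · refine Or.inl ⟨max M 0, ?_⟩
        refine fun δ hδ => (hcase t ht (fun s => 0 ≤ s → s ≤ t →
          Mx D t ≤ Mx D s + max M 0 * ∫ τ in s..t, h τ) (fun s hs hs0 hst => ?_)
          (fun δ hδ => ?_) δ hδ).imp fun s hs => ⟨hs.1, hs.2.1, hs.2.2 hs.2.1 hs.1.2.le⟩
        · have h1 : 0 ≤ ∫ τ in s..t, h τ :=
            intervalIntegral.integral_nonneg hst fun τ _ => zero_le_one.trans (hh τ)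
          nlinarith [mul_nonneg (le_max_right M 0) h1]
        · obtain ⟨s, hs, hs0, hs1⟩ := hM δ hδ
          refine ⟨s, hs, hs0, fun he _ hst => ?_⟩
          have h2 := hle s ⟨hs0, hs.2.le.trans ht.2⟩
          have h1 : 0 ≤ ∫ τ in s..t, h τ :=
            intervalIntegral.integral_nonneg hst fun τ _ => zero_le_one.trans (hh τ)
          have h3 := mul_le_mul_of_nonneg_right (le_max_left M 0) h1
          linarith
      · refine Or.inl ⟨0, fun δ' hδ' => ?_⟩
        have h1 : max (t - δ) 0 < t := max_lt (by linarith) ht.1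
        have h2 : μ (Ioo (max (t - δ) 0) t) = 0 :=
          hLoc T D g F A L _ t μ Z hT hU hJ hg hF hgi hFi hA hW hL (le_max_right _ _) h1 ht.2
            (fun E hE hEs => hw E hE fun x hx => by
              have h3 := hEs hx
              exact ⟨⟨lt_of_le_of_lt (le_max_left _ _) h3.1.1, h3.1.2⟩, h3.2⟩) hS
        obtain ⟨s, hs1, hs2⟩ := exists_between (max_lt h1 (show t - δ' < t by linarith))
        refine ⟨s, ⟨(le_max_right _ _).trans_lt hs1, hs2⟩,
          ((le_max_right _ _).trans (le_max_left _ _)).trans hs1.le, ?_⟩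
        have := RVp_const hS (le_max_right _ _) h1 ht.2 h2
          ⟨(le_max_left _ _).trans_lt hs1, hs2⟩
        linarith
      · refine Or.inl ⟨0, fun δ' hδ' => ?_⟩
        have h1 : max (t - δ) 0 < t := max_lt (by linarith) ht.1
        have h2 : μ (Ioo (max (t - δ) 0) t) = 0 :=
          hVit T D g b F B L _ t μ Z hT hU hJ hg hb hF hgi hbi hFi hB hW4 hL
            (le_max_right _ _) h1 ht.2
            (fun E hE hEs => hw E hE fun x hx => by
              have h3 := hEs hx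
              exact ⟨⟨lt_of_le_of_lt (le_max_left _ _) h3.1.1, h3.1.2⟩, h3.2⟩) hS
        obtain ⟨s, hs1, hs2⟩ := exists_between (max_lt h1 (show t - δ' < t by linarith))
        refine ⟨s, ⟨(le_max_right _ _).trans_lt hs1, hs2⟩,
          ((le_max_right _ _).trans (le_max_left _ _)).trans hs1.le, ?_⟩
        have := RVp_const hS (le_max_right _ _) h1 ht.2 h2
          ⟨(le_max_left _ _).trans_lt hs1, hs2⟩
        linarith
      · refine Or.inr ⟨htC, fun η δ hη hδ => ?_⟩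
        refine (hcase t ht (fun s => Mx D t ≤ Mx D s + η) (fun s hs => by linarith)
          (fun δ hδ => ?_) δ hδ)
        obtain ⟨s, hs, hs0, hs1⟩ := hJ t ht η δ hη hδ
        refine ⟨s, hs, hs0, fun he => ?_⟩
        have := hle s ⟨hs0, hs.2.le.trans ht.2⟩
        linarith
  have h1 := hle t ht
  have h2 := hm t ht
  linarith

end Pool.Agent.Helper83.WC
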