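import Pool.Agent.Helper83.WC.St

/-!
# Project WC, module Sing: the Stieltjes measure of the running maximum is singular
-/

set_option autoImplicit false

open MeasureTheory Set Filter Topology
open scoped ENNReal

noncomputable section

namespace Pool.Agent.Helper83.WC

/-- descent from the left for the running maximum -/
theorem Sing_step {T : ℝ} {D : ℝ → ℝ} (hmono : MonotoneOn (Mx D) (Icc 0 T))
    (hle : ∀ t ∈ Icc 0 T, D t ≤ Mx D t)
    (hlast : ∀ a b : ℝ, 0 ≤ a → a < b → b ≤ T → Mx D a < Mx D b →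
      ∃ t ∈ Ioc a b, D t = Mx D b ∧ Mx D t = Mx D b)
    {x : ℝ} (hx0 : 0 < x) (hxT : x ≤ T)
    (hae : ∀ η δ : ℝ, 0 < η → 0 < δ → ∃ s ∈ Ioo (x - δ) x, 0 ≤ s ∧ D x ≤ D s + η * (x - s))
    {η δ : ℝ} (hη : 0 < η) (hδ : 0 < δ) :
    ∃ s ∈ Ioo (x - δ) x, 0 ≤ s ∧ Mx D x ≤ Mx D s + η * (x - s) := by
  obtain ⟨s0, hs0, hs0x⟩ : ∃ s0, max 0 (x - δ) < s0 ∧ s0 < x :=
    exists_between (max_lt hx0 (by linarith))
  have hs00 : 0 < s0 := (le_max_left _ _).trans_lt hs0
  have hs0δ : x - δ < s0 := (le_max_right _ _).trans_lt hs0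
  have hm : Mx D s0 ≤ Mx D x := hmono ⟨hs00.le, hs0x.le.trans hxT⟩ ⟨hx0.le, hxT⟩ hs0x.le
  rcases hm.lt_or_eq with h | h
  · obtain ⟨t, ht, h1, h2⟩ := hlast s0 x hs00.le hs0x hxT h
    rcases ht.2.lt_or_eq with h3 | h3
    · refine ⟨t, ⟨hs0δ.trans ht.1, h3⟩, hs00.le.trans ht.1.le, ?_⟩
      rw [h2]
      nlinarith
    · subst h3
      obtain ⟨s, hs, hs0', hs1⟩ := hae η δ hη hδ
      refine ⟨s, hs, hs0', ?_⟩
      rw [← h1]
      have := hle s ⟨hs0', hs.2.le.trans hxT⟩
      linarith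
  · refine ⟨s0, ⟨hs0δ, hs0x⟩, hs00.le, ?_⟩
    rw [h]
    nlinarith

/-- a monotone function with such a descent has derivative zero where it is differentiable -/
theorem Sing_deriv {m : ℝ → ℝ} {x d : ℝ} (hm : HasDerivAt m d x) (hd : 0 ≤ d)
    (h : ∀ η δ : ℝ, 0 < η → 0 < δ → ∃ s ∈ Ioo (x - δ) x, m x ≤ m s + η * (x - s)) : d = 0 := by
  by_contra hne
  have hd' : 0 < d := lt_of_le_of_ne hd (Ne.symm hne)
  have h1 : Tendsto (slope m x) (𝓝[<] x) (𝓝 d) :=
    (hasDerivAt_iff_tendsto_slope.1 hm).mono_left (nhdsWithin_mono x (fun y hy => ne_of_lt hy))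
  have h2 : ∀ᶠ s in 𝓝[<] x, d / 2 < slope m x s := h1.eventually (lt_mem_nhds (by linarith))
  obtain ⟨l, hl, hl2⟩ := (mem_nhdsLT_iff_exists_Ioo_subset' (show x - 1 < x by linarith)).1 h2
  obtain ⟨s, hs, hs2⟩ := h (d / 2) (x - l) (by linarith) (sub_pos.2 hl)
  rw [sub_sub_cancel] at hs
  have h3 : d / 2 < slope m x s := hl2 hs
  rw [slope_def_field] at h3
  have h4 : 0 < x - s := sub_pos.2 hs.2
  have h5 : (m s - m x) / (s - x) = (m x - m s) / (x - s) := by
    rw [← neg_div_neg_eq]; ring_nf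
  rw [h5, lt_div_iff₀ h4] at h3
  linarith

theorem wSing (hMx : StMx) : StSing := by
  intro T D hT husc hnj hae
  obtain ⟨hcont, hmono, hle, -, hlast⟩ := hMx T D hT husc hnj
  set c : ℝ → ℝ := fun t => max 0 (min t T) with hc
  have hcmem : ∀ t, c t ∈ Icc 0 T := fun t => ⟨le_max_left _ _, max_le hT.le (min_le_right _ _)⟩
  have hcmono : Monotone c := fun a b hab => max_le_max le_rfl (min_le_min hab le_rfl)
  have hccont : Continuous c := by
    rw [hc]
    exact continuous_const.max (continuous_id.min continuous_const)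
  have hcid : ∀ t ∈ Icc 0 T, c t = t := fun t ht => by
    simp only [hc]
    rw [min_eq_left ht.2, max_eq_right ht.1]
  set m : ℝ → ℝ := fun t => Mx D (c t) with hm
  have hm_mono : Monotone m := fun a b hab => hmono (hcmem a) (hcmem b) (hcmono hab)
  have hm_cont : Continuous m := hcont.comp_continuous hccont hcmem
  let f : StieltjesFunction ℝ :=
    ⟨m, hm_mono, fun x => hm_cont.continuousAt.continuousWithinAt⟩
  have hfa : ∀ x, f x = m x := fun _ => rfl
  have hfm : ∀ x ∈ Icc 0 T, f x = Mx D x := fun x hx => by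
    rw [hfa, hm]; simp only; rw [hcid x hx]
  -- the derivative vanishes almost everywhere
  have hder : ∀ᵐ x : ℝ, (f.measure.rnDeriv volume x).toReal = 0 := by
    have h1 := f.ae_hasDerivAt
    have h2 : ∀ᵐ t : ℝ, t ∈ Icc 0 T → ∀ η δ : ℝ, 0 < η → 0 < δ →
        ∃ s ∈ Ioo (t - δ) t, 0 ≤ s ∧ D t ≤ D s + η * (t - s) :=
      (ae_restrict_iff' measurableSet_Icc).1 hae
    have h3 : ∀ᵐ t : ℝ, t ≠ 0 := by
      rw [ae_iff]; simp
    filter_upwards [h1, h2, h3] with x hx1 hx2 hx3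
    refine Sing_deriv (m := f) hx1 ENNReal.toReal_nonneg fun η δ hη hδ => ?_
    rcases lt_or_gt_of_ne hx3 with h4 | h4
    · refine ⟨x - δ / 2, ⟨by linarith, by linarith⟩, ?_⟩
      have e1 : f x = f (x - δ / 2) := by
        rw [hfa, hfa, hm]
        simp only [hc]
        rw [min_eq_left (by linarith), min_eq_left (by linarith), max_eq_left h4.le,
          max_eq_left (by linarith)]
      rw [e1]
      nlinarith
    · rcases le_or_gt x T with h5 | h5
      · obtain ⟨s, hs, hs0, hs1⟩ := Sing_step hmono hle hlast h4 h5 (hx2 ⟨h4.le, h5⟩) hη hδ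
        refine ⟨s, hs, ?_⟩
        rw [hfm x ⟨h4.le, h5⟩, hfm s ⟨hs0, hs.2.le.trans h5⟩]
        exact hs1
      · obtain ⟨s, hs, hsx⟩ : ∃ s, max T (x - δ) < s ∧ s < x :=
          exists_between (max_lt h5 (by linarith))
        have h6 : T < s := (le_max_left _ _).trans_lt hs
        have h7 : x - δ < s := (le_max_right _ _).trans_lt hs
        refine ⟨s, ⟨h7, hsx⟩, ?_⟩
        have e1 : f x = f s := by
          rw [hfa, hfa, hm]
          simp only [hc]
          rw [min_eq_right h5.le, min_eq_right h6.le]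
        rw [e1]
        nlinarith
  have hrn : f.measure.rnDeriv volume =ᵐ[volume] 0 := by
    filter_upwards [hder, Measure.rnDeriv_lt_top f.measure volume] with x h1 h2
    rw [Pi.zero_apply]
    exact ((ENNReal.toReal_eq_zero_iff _).1 h1).resolve_right h2.ne
  have hsing : f.measure ⟂ₘ volume := (Measure.rnDeriv_eq_zero _ _).1 hrn
  obtain ⟨Y, hY1, hY2, hY3⟩ := hsing
  refine ⟨f.measure, Yᶜ, ?_, ?_, ?_, hY1.compl, hY3, by rwa [compl_compl]⟩
  · apply f.isFiniteMeasure_of_forall_abs_le (C := max |Mx D 0| |Mx D T|)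
    intro x
    rw [hfa]
    have h1 : Mx D 0 ≤ m x := hmono ⟨le_rfl, hT.le⟩ (hcmem x) (hcmem x).1
    have h2 : m x ≤ Mx D T := hmono (hcmem x) ⟨hT.le, le_rfl⟩ (hcmem x).2
    exact abs_le_max_abs_abs h1 h2
  · intro a b ha hab hb
    rw [f.measure_Ioc, hfm a ⟨ha, hab.trans hb⟩, hfm b ⟨ha.trans hab, hb⟩]
  · intro x
    rw [f.measure_singleton]
    have : Function.leftLim f x = f x := by
      apply ContinuousWithinAt.leftLim_eq
      exact hm_cont.continuousAt.continuousWithinAt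
    rw [this, sub_self, ENNReal.ofReal_zero]

end Pool.Agent.Helper83.WC
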