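import Pool.Agent.Helper83.WC.StB

/-!
# Project WC: stopping radii
-/

set_option autoImplicit false

open MeasureTheory Set Filter Topology
open scoped ENNReal

noncomputable section

namespace Pool.Agent.Helper83.WC

theorem wStp : StStp := by
  classical
  intro μ E l m _ hl hm hE
  have hbd : ∀ x ρ : ℝ, 0 < ρ → ENNReal.ofReal (2 * l * ρ) ≤ μ (Metric.closedBall x ρ) →
      2 * l * ρ ≤ m := by
    intro x ρ hρ h
    have h1 : ENNReal.ofReal (2 * l * ρ) ≤ ENNReal.ofReal m :=
      (h.trans (measure_mono (subset_univ _))).trans hm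
    rcases ENNReal.ofReal_le_ofReal_iff'.1 h1 with h2 | h2
    · exact h2
    · have : 0 < 2 * l * ρ := by positivity
      linarith
  -- the stopping radius
  have hch : ∀ x : ℝ, ∃ ρ : ℝ, x ∈ E → 0 < ρ ∧ 2 * l * ρ ≤ m ∧
      ENNReal.ofReal (2 * l * ρ) ≤ μ (Metric.closedBall x ρ) ∧
      μ (Metric.closedBall x (25 * ρ)) ≤ ENNReal.ofReal (50 * l * ρ) := by
    intro x
    by_cases hx : x ∈ E
    · set A : Set ℝ := {ρ : ℝ | 0 < ρ ∧ ENNReal.ofReal (2 * l * ρ) ≤ μ (Metric.closedBall x ρ)}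
        with hA
      obtain ⟨ρ₀, hρ₀, hρ₀'⟩ := hE x hx
      have hne : A.Nonempty := ⟨ρ₀, hρ₀, hρ₀'⟩
      have hbdd : BddAbove A := by
        refine ⟨m / (2 * l), ?_⟩
        rintro ρ ⟨h1, h2⟩
        have h3 := hbd x ρ h1 h2
        rw [le_div_iff₀ (by positivity)]
        linarith
      have hR0 : 0 < sSup A := lt_of_lt_of_le hρ₀ (le_csSup hbdd ⟨hρ₀, hρ₀'⟩)
      obtain ⟨ρ, ⟨h1, h2⟩, h3⟩ := exists_lt_of_lt_csSup hne (half_lt_self hR0)
      refine ⟨ρ, fun _ => ⟨h1, hbd x ρ h1 h2, h2, ?_⟩⟩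
      by_contra hcon
      rw [not_le] at hcon
      have h4 : 25 * ρ ∈ A := by
        refine ⟨by positivity, ?_⟩
        have e : 2 * l * (25 * ρ) = 50 * l * ρ := by ring
        rw [e]
        exact hcon.le
      have h5 := le_csSup hbdd h4
      linarith
    · exact ⟨0, fun h => absurd h hx⟩
  choose ρ hρ using hch
  obtain ⟨S, hSE, hdis, hcov⟩ := Vitali.exists_disjoint_subfamily_covering_enlargement_closedBall
    E (fun x : ℝ => x) (fun x => 5 * ρ x) (5 * (m / (2 * l))) (by
      intro x hx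
      have h1 := (hρ x hx).2.1
      have h2 : ρ x ≤ m / (2 * l) := by
        rw [le_div_iff₀ (by positivity)]
        linarith
      linarith) 5 (by norm_num)
  have hcount : S.Countable := by
    refine hdis.countable_of_nonempty_interior fun x hx => ⟨x, ?_⟩
    refine mem_interior.2 ⟨Metric.ball x (5 * ρ x), Metric.ball_subset_closedBall,
      Metric.isOpen_ball, Metric.mem_ball_self ?_⟩
    have := (hρ x (hSE hx)).1
    linarith
  refine ⟨S, ρ, hSE, hcount, fun x hx => ?_, hdis, ?_⟩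
  · have h := hρ x (hSE hx)
    exact ⟨h.1, h.2.1, h.2.2.1⟩
  · have h1 : E ⊆ ⋃ x ∈ S, Metric.closedBall x (25 * ρ x) := by
      intro a ha
      obtain ⟨b, hb, hab⟩ := hcov a ha
      have h2 : a ∈ Metric.closedBall a (5 * ρ a) := by
        refine Metric.mem_closedBall_self ?_
        have := (hρ a ha).1
        linarith
      have h3 := hab h2
      have e : 5 * (5 * ρ b) = 25 * ρ b := by ring
      rw [e] at h3
      exact mem_biUnion hb h3
    calc μ E ≤ μ (⋃ x ∈ S, Metric.closedBall x (25 * ρ x)) := measure_mono h1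
      _ ≤ ∑' x : S, μ (Metric.closedBall (x : ℝ) (25 * ρ x)) := measure_biUnion_le μ hcount _
      _ ≤ ∑' x : S, ENNReal.ofReal (50 * l * ρ x) :=
          ENNReal.tsum_le_tsum fun x => (hρ x (hSE x.2)).2.2.2

end Pool.Agent.Helper83.WC
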