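import Pool.Agent.Helper83.WC.St
import Pool.Agent.Helper7.NT.AeL
import Pool.Agent.Helper7.NT.Anti
import Pool.Agent.Helper7.NT.HoS
import Pool.Agent.Helper7.NT.Sob
import Pool.Agent.Helper7.NT.Tri
import Pool.Agent.Helper7.NT.Vsp

/-! Project WC, Tri: the flux with a reference field -/

set_option autoImplicit false

open MeasureTheory Set Filter Topology
open scoped ENNReal

noncomputable section

namespace Pool.Agent.Helper83.WC

open Pool.Agent.Helper52.NSE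
open Pool.Agent.Helper7.NT (Bf gp Bf_le_q Bf_sub_right Bf_sub_mid Bf_self sobolev ael_six
  memH1s_sub gsq_sub_le hos_scalar tri_int th n6)

theorem Tri_th : th 6 = 1 / 4 := by
  unfold th
  norm_num

/-- the right-hand side of Hölder's inequality -/
def Tri_R (Ω : Set E3) (v w : E3 → E3) (A : Fin 3 → E3 → E3) : ℝ≥0∞ :=
  3 * ENNReal.ofReal (Real.sqrt (gsq Ω A)) *
    (eLpNorm v 6 (volume.restrict Ω) * eLpNorm w 2 (volume.restrict Ω) ^ (2 * th 6) *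
      eLpNorm w 6 (volume.restrict Ω) ^ (1 - 2 * th 6))

theorem Tri_swap {Ω : Set E3} {v w : E3 → E3} {A : Fin 3 → E3 → E3}
    (hv : AEStronglyMeasurable v (volume.restrict Ω))
    (hw : AEStronglyMeasurable w (volume.restrict Ω))
    (hA : ∀ i, MemLp (A i) 2 (volume.restrict Ω)) : ‖Bf Ω w A v‖ₑ ≤ Tri_R Ω v w A := by
  unfold Bf Tri_R
  refine (enorm_integral_le_lintegral_enorm _).trans ?_
  have h1 : ∀ x, ‖∑ i, (w x) i * inner ℝ (v x) (A i x)‖ₑ ≤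
      ∑ i, ‖v x‖ₑ * (‖w x‖ₑ * ‖A i x‖ₑ) := by
    intro x
    refine (enorm_sum_le _ _).trans (Finset.sum_le_sum fun i _ => ?_)
    rw [enorm_mul]
    have h2 : ‖(w x) i‖ₑ ≤ ‖w x‖ₑ := by
      rw [← ofReal_norm, ← ofReal_norm]
      exact ENNReal.ofReal_le_ofReal (PiLp.norm_apply_le (w x) i)
    have h3 : ‖(inner ℝ (v x) (A i x) : ℝ)‖ₑ ≤ ‖v x‖ₑ * ‖A i x‖ₑ := by
      rw [← ofReal_norm, ← ofReal_norm, ← ofReal_norm, ← ENNReal.ofReal_mul (norm_nonneg _)]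
      exact ENNReal.ofReal_le_ofReal (norm_inner_le_norm _ _)
    calc ‖(w x) i‖ₑ * ‖(inner ℝ (v x) (A i x) : ℝ)‖ₑ ≤ ‖w x‖ₑ * (‖v x‖ₑ * ‖A i x‖ₑ) := by gcongr
      _ = _ := by ring
  refine (lintegral_mono h1).trans ?_
  rw [lintegral_finsetSum' (f := fun i x => ‖v x‖ₑ * (‖w x‖ₑ * ‖A i x‖ₑ)) _
    fun i _ => hv.enorm.mul (hw.enorm.mul (hA i).1.enorm)]
  have h2 : ∀ i ∈ (Finset.univ : Finset (Fin 3)),
      ∫⁻ x, ‖v x‖ₑ * (‖w x‖ₑ * ‖A i x‖ₑ) ∂(volume.restrict Ω) ≤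
      ENNReal.ofReal (Real.sqrt (gsq Ω A)) *
      (eLpNorm v 6 (volume.restrict Ω) * eLpNorm w 2 (volume.restrict Ω) ^ (2 * th 6) *
        eLpNorm w 6 (volume.restrict Ω) ^ (1 - 2 * th 6)) := by
    intro i _
    refine (hos_scalar (q := 6) (by norm_num) hv hw (hA i).1).trans ?_
    have h3 : eLpNorm (A i) 2 (volume.restrict Ω) ≤ ENNReal.ofReal (Real.sqrt (gsq Ω A)) := by
      rw [nm_eq (hA i)]
      exact ENNReal.ofReal_le_ofReal (nm_le_gsq hA i)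
    gcongr
  refine (Finset.sum_le_sum h2).trans ?_
  rw [Finset.sum_const, Finset.card_univ, Fintype.card_fin, nsmul_eq_mul, Nat.cast_ofNat,
    ← mul_assoc 3]

/-- real form of the right-hand side -/
theorem Tri_real {Ω : Set E3} {CS : ℝ} (hCS : 0 < CS)
    (hS : ∀ (w : E3 → E3) (G : Fin 3 → E3 → E3), MemH1s Ω w G →
      eLpNorm w 6 (volume.restrict Ω) ≤ ENNReal.ofReal (CS * Real.sqrt (gsq Ω G)))
    {v w : E3 → E3} {V W A : Fin 3 → E3 → E3} (hv : MemH1s Ω v V) (hw : MemH1s Ω w W) {X : ℝ}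
    (hX : ‖X‖ₑ ≤ Tri_R Ω v w A) :
    |X| ≤ 3 * (CS * Real.sqrt CS) * (Real.sqrt (gsq Ω A) * Real.sqrt (gsq Ω V) *
      Real.sqrt (nm Ω w) * Real.sqrt (Real.sqrt (gsq Ω W))) := by
  have hn := nm_nonneg Ω w
  have h1 : Tri_R Ω v w A ≤ ENNReal.ofReal (3 * Real.sqrt (gsq Ω A) *
      ((CS * Real.sqrt (gsq Ω V)) * Real.sqrt (nm Ω w) *
        Real.sqrt (CS * Real.sqrt (gsq Ω W)))) := by
    unfold Tri_R
    rw [Tri_th]
    have e1 : (2 * (1 / 4) : ℝ) = 1 / 2 := by norm_num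
    have e2 : (1 - 1 / 2 : ℝ) = 1 / 2 := by norm_num
    rw [e1, e2, ENNReal.ofReal_mul (by positivity), ENNReal.ofReal_mul (by norm_num),
      ENNReal.ofReal_mul (by positivity), ENNReal.ofReal_mul (by positivity),
      Real.sqrt_eq_rpow (nm Ω w), Real.sqrt_eq_rpow (CS * Real.sqrt (gsq Ω W)),
      ← ENNReal.ofReal_rpow_of_nonneg hn (by norm_num),
      ← ENNReal.ofReal_rpow_of_nonneg (by positivity : 0 ≤ CS * Real.sqrt (gsq Ω W))
        (by norm_num : (0 : ℝ) ≤ 1 / 2), nm_eq hw.toL2.memLp, ENNReal.ofReal_ofNat]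
    have h2 := hS v V hv
    have h3 := hS w W hw
    gcongr
  have h2 := hX.trans h1
  rw [← ofReal_norm, Real.norm_eq_abs, ENNReal.ofReal_le_ofReal_iff (by positivity)] at h2
  refine h2.trans (le_of_eq ?_)
  rw [Real.sqrt_mul hCS.le]
  ring

theorem Tri_left {Ω : Set E3} (hb : Bornology.IsBounded Ω) {v b w : E3 → E3}
    {A : Fin 3 → E3 → E3} (hv : MemLp v 6 (volume.restrict Ω))
    (hb6 : MemLp b 6 (volume.restrict Ω)) (hw : MemLp w 6 (volume.restrict Ω))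
    (hA : ∀ i, MemLp (A i) 2 (volume.restrict Ω)) :
    Bf Ω (fun x => v x - b x) A w = Bf Ω v A w - Bf Ω b A w := by
  unfold Bf
  rw [← integral_sub (tri_int hb hv hw hA) (tri_int hb hb6 hw hA)]
  refine integral_congr_ae (Eventually.of_forall fun x => ?_)
  simp only []
  rw [← Finset.sum_sub_distrib]
  refine Finset.sum_congr rfl fun i _ => ?_
  rw [PiLp.sub_apply, sub_mul]

theorem Tri_g {Ω : Set E3} {G A : Fin 3 → E3 → E3}
    (hG : ∀ i, MemLp (G i) 2 (volume.restrict Ω)) (hA : ∀ i, MemLp (A i) 2 (volume.restrict Ω))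
    {G0 : ℝ} (h0 : Real.sqrt (gsq Ω A) ≤ G0) :
    Real.sqrt (gsq Ω (fun i x => G i x - A i x)) ≤ 4 * (Real.sqrt (gsq Ω G) + G0) ∧
    Real.sqrt (gsq Ω (fun i x => G i x - A i x)) ≤ 2 * (Real.sqrt (gsq Ω G) + G0) := by
  have h1 := gsq_sub_le hG hA
  have h2 := Real.sqrt_nonneg (gsq Ω G)
  have h3 := Real.sqrt_nonneg (gsq Ω A)
  have h4 : Real.sqrt (gsq Ω (fun i x => G i x - A i x)) ≤ 2 * (Real.sqrt (gsq Ω G) + G0) := by
    rw [Real.sqrt_le_left (by linarith)]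
    have e1 := Real.sq_sqrt (gsq_nonneg Ω G)
    have e2 := Real.sq_sqrt (gsq_nonneg Ω A)
    nlinarith
  exact ⟨by linarith, h4⟩

/-- the final computation -/
theorem Tri_fin {K gB gW gZ G0 Γa Γv sw sz t1 t2 t3 t4 t5 t6 S : ℝ} (hK : 0 ≤ K)
    (hgB : 0 ≤ gB) (hgW : 0 ≤ gW) (hgZ : 0 ≤ gZ) (hB : gB ≤ G0) (hW : gW ≤ 4 * Γv)
    (hZ : gZ ≤ 4 * Γa) (ha : G0 ≤ Γa) (hv : G0 ≤ Γv) (hsw : 0 ≤ sw) (hsz : 0 ≤ sz)
    (h1 : |t1| ≤ K * (gB * gB * sw * Real.sqrt gW)) (h2 : |t2| ≤ K * (gB * gW * sw * Real.sqrt gW))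
    (h3 : |t3| ≤ K * (gZ * gB * sw * Real.sqrt gW)) (h4 : |t4| ≤ K * (gZ * gW * sw * Real.sqrt gW))
    (h5 : |t5| ≤ K * (gB * gB * sz * Real.sqrt gZ)) (h6 : |t6| ≤ K * (gB * gZ * sw * Real.sqrt gW))
    (hS : S = t1 + t2 + t3 + t4 - t5 - t6) :
    |S| ≤ 60 * K * (Γa * sw * (Γv * Real.sqrt Γv) + G0 * sz * (Γa * Real.sqrt Γa)) := by
  have hG0 : 0 ≤ G0 := hgB.trans hB
  have hΓa : 0 ≤ Γa := hG0.trans ha
  have hΓv : 0 ≤ Γv := hG0.trans hv
  have hsW : Real.sqrt gW ≤ 2 * Real.sqrt Γv := by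
    have := Real.sqrt_le_sqrt hW
    rwa [Real.sqrt_mul (by norm_num), show (4 : ℝ) = 2 ^ 2 by norm_num,
      Real.sqrt_sq (by norm_num)] at this
  have hsZ : Real.sqrt gZ ≤ 2 * Real.sqrt Γa := by
    have := Real.sqrt_le_sqrt hZ
    rwa [Real.sqrt_mul (by norm_num), show (4 : ℝ) = 2 ^ 2 by norm_num,
      Real.sqrt_sq (by norm_num)] at this
  have q1 : gB * gB ≤ Γa * Γv := mul_le_mul (hB.trans ha) (hB.trans hv) hgB hΓa
  have q2 : gB * gW ≤ Γa * (4 * Γv) := mul_le_mul (hB.trans ha) hW hgW hΓa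
  have q3 : gZ * gB ≤ 4 * Γa * Γv := mul_le_mul hZ (hB.trans hv) hgB (by positivity)
  have q4 : gZ * gW ≤ 4 * Γa * (4 * Γv) := mul_le_mul hZ hW hgW (by positivity)
  have q6 : gB * gZ ≤ Γv * (4 * Γa) := mul_le_mul (hB.trans hv) hZ hgZ hΓv
  have q5 : gB * gB ≤ G0 * Γa := mul_le_mul hB (hB.trans ha) hgB hG0
  have hs : |S| ≤ |t1| + |t2| + |t3| + |t4| + |t5| + |t6| := by
    rw [hS]
    have a1 := abs_sub (t1 + t2 + t3 + t4 - t5) t6
    have a2 := abs_sub (t1 + t2 + t3 + t4) t5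
    have a3 := abs_add_le (t1 + t2 + t3) t4
    have a4 := abs_add_le (t1 + t2) t3
    have a5 := abs_add_le t1 t2
    linarith
  have hsum : gB * gB + gB * gW + gZ * gB + gZ * gW + gB * gZ ≤ 29 * (Γa * Γv) := by nlinarith
  have hw0 : (gB * gB + gB * gW + gZ * gB + gZ * gW + gB * gZ) * (sw * Real.sqrt gW) ≤
      29 * (Γa * Γv) * (sw * (2 * Real.sqrt Γv)) := by
    apply mul_le_mul hsum _ (by positivity) (by positivity)
    exact mul_le_mul_of_nonneg_left hsW hsw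
  have hz0 : gB * gB * (sz * Real.sqrt gZ) ≤ G0 * Γa * (sz * (2 * Real.sqrt Γa)) := by
    apply mul_le_mul q5 _ (by positivity) (by positivity)
    exact mul_le_mul_of_nonneg_left hsZ hsz
  have k1 := mul_le_mul_of_nonneg_left hw0 hK
  have k2 := mul_le_mul_of_nonneg_left hz0 hK
  have p1 : 0 ≤ K * (Γa * sw * (Γv * Real.sqrt Γv)) := by positivity
  have p2 : 0 ≤ K * (G0 * sz * (Γa * Real.sqrt Γa)) := by positivity
  have e1 : K * (29 * (Γa * Γv) * (sw * (2 * Real.sqrt Γv))) =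
      58 * (K * (Γa * sw * (Γv * Real.sqrt Γv))) := by ring
  have e2 : K * (G0 * Γa * (sz * (2 * Real.sqrt Γa))) =
      2 * (K * (G0 * sz * (Γa * Real.sqrt Γa))) := by ring
  rw [e1] at k1
  rw [e2] at k2
  nlinarith

theorem Tri_pow {x : ℝ} (hx : 0 ≤ x) : x ^ (3 / 2 : ℝ) = x * Real.sqrt x := by
  rw [Real.sqrt_eq_rpow, show (3 / 2 : ℝ) = 1 + 1 / 2 by norm_num,
    Real.rpow_add_of_nonneg hx (by norm_num) (by norm_num), Real.rpow_one]

theorem wTri : StTri := by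
  intro Ω hO hb
  obtain ⟨CS, hCS, hS⟩ := sobolev (Ω := Ω) hO hb
  refine ⟨60 * (3 * (CS * Real.sqrt CS)), by positivity, ?_⟩
  intro b v a B V A G0 hB hV hA hG0
  have hw := memH1s_sub hV hB
  have hz := memH1s_sub hA hB
  have b6 := (ael_six hS hCS hB).1
  have v6 := (ael_six hS hCS hV).1
  have a6 := (ael_six hS hCS hA).1
  have w6 := (ael_six hS hCS hw).1
  have z6 := (ael_six hS hCS hz).1
  have gBm := hB.grad_memLp
  have gVm := hV.grad_memLp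
  have gAm := hA.grad_memLp
  have gZm := hz.grad_memLp
  -- the decomposition
  have d0 : Bf Ω v A (fun x => v x - a x) =
      Bf Ω v A (fun x => v x - b x) - Bf Ω v A (fun x => a x - b x) := by
    rw [← Bf_sub_right hb v6 w6 z6 gAm]
    congr 1
    funext x
    abel
  have d1 := Bf_sub_mid hb v6 w6 gAm gBm
  have d2 := Bf_sub_mid hb v6 z6 gAm gBm
  have d3 : Bf Ω v (fun i x => A i x - B i x) (fun x => a x - b x) = 0 :=
    Bf_self hO hb hV.toL2 v6 hz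
  have d4 := Tri_left hb v6 b6 w6 gBm
  have d5 := Tri_left hb v6 b6 w6 gZm
  have d6 := Tri_left hb v6 b6 z6 gBm
  have hK : 0 ≤ 3 * (CS * Real.sqrt CS) := by positivity
  -- the estimates
  have t1 := Tri_real hCS hS (A := B) hB hw (Bf_le_q (Ω := Ω) (q := 6) (by norm_num) hB.1 hw.1 gBm)
  have t2 := Tri_real hCS hS (A := B) hw hw (Bf_le_q (Ω := Ω) (q := 6) (by norm_num) hw.1 hw.1 gBm)
  have t3 := Tri_real hCS hS (A := fun i x => A i x - B i x) hB hw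
    (Bf_le_q (Ω := Ω) (q := 6) (by norm_num) hB.1 hw.1 gZm)
  have t4 := Tri_real hCS hS (A := fun i x => A i x - B i x) hw hw
    (Bf_le_q (Ω := Ω) (q := 6) (by norm_num) hw.1 hw.1 gZm)
  have t5 := Tri_real hCS hS (A := B) hB hz (Bf_le_q (Ω := Ω) (q := 6) (by norm_num) hB.1 hz.1 gBm)
  have t6 := Tri_real hCS hS (A := B) hz hw (Tri_swap hz.1 hw.1 gBm)
  have hΓa : 0 ≤ Real.sqrt (gsq Ω A) + G0 :=
    add_nonneg (Real.sqrt_nonneg _) ((Real.sqrt_nonneg _).trans hG0)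
  have hΓv : 0 ≤ Real.sqrt (gsq Ω V) + G0 :=
    add_nonneg (Real.sqrt_nonneg _) ((Real.sqrt_nonneg _).trans hG0)
  rw [Tri_pow hΓa, Tri_pow hΓv]
  have hA0 := Real.sqrt_nonneg (gsq Ω A)
  have hV0 := Real.sqrt_nonneg (gsq Ω V)
  exact Tri_fin hK (Real.sqrt_nonneg _) (Real.sqrt_nonneg _) (Real.sqrt_nonneg _) hG0
    (Tri_g gVm gBm hG0).1 (Tri_g gAm gBm hG0).1 (by linarith) (by linarith)
    (Real.sqrt_nonneg _) (Real.sqrt_nonneg _) t1 t2 t3 t4 t5 t6 (by linarith)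

end Pool.Agent.Helper83.WC
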