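import Pool.Agent.Helper83.WC.St

/-! Project WC, Loc: no mass on an interval with the weak bound -/

set_option autoImplicit false

open MeasureTheory Set Filter Topology
open scoped ENNReal

noncomputable section

namespace Pool.Agent.Helper83.WC

/-- the choice of `V` -/
theorem Loc_V {T : ℝ} {F : ℝ → ℝ} (hF : ∀ t, 0 ≤ F t) (hFi : IntegrableOn F (Icc 0 T)) {p q : ℝ}
    (hp : 0 ≤ p) (hq : q ≤ T) {Z : Set ℝ} (hZ : volume Z = 0) {ε : ℝ} (hε : 0 < ε) :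
    ∃ V : Set ℝ, IsOpen V ∧ V ⊆ Ioo p q ∧ Z ∩ Ioo p q ⊆ V ∧ ∫ τ in V, F τ ≤ ε := by
  set ν := (volume.restrict (Icc 0 T)).withDensity (fun t => ENNReal.ofReal (F t)) with hν
  have hfin : IsFiniteMeasure ν := isFiniteMeasure_withDensity_ofReal hFi.2
  have h0 : ν (Z ∩ Ioo p q) = 0 := by
    apply withDensity_absolutelyContinuous (volume.restrict (Icc 0 T)) _
    apply le_antisymm _ bot_le
    exact ((Measure.restrict_apply_le _ _).trans (measure_mono inter_subset_left)).trans hZ.le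
  obtain ⟨U, hU1, hU2, hU3⟩ := (Z ∩ Ioo p q).exists_isOpen_le_add ν
    (ε := ENNReal.ofReal ε) (by simpa using hε)
  rw [h0, zero_add] at hU3
  have hVs : U ∩ Ioo p q ⊆ Icc 0 T := fun x hx =>
    ⟨hp.trans hx.2.1.le, hx.2.2.le.trans hq⟩
  have hVm : MeasurableSet (U ∩ Ioo p q) := hU2.measurableSet.inter measurableSet_Ioo
  refine ⟨U ∩ Ioo p q, hU2.inter isOpen_Ioo, inter_subset_right,
    subset_inter hU1 inter_subset_right, ?_⟩
  have h1 : ENNReal.ofReal (∫ τ in U ∩ Ioo p q, F τ) = ν (U ∩ Ioo p q) := by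
    rw [ofReal_integral_eq_lintegral_ofReal (hFi.mono_set hVs)
      (Filter.Eventually.of_forall fun t => hF t), hν, withDensity_apply _ hVm,
      Measure.restrict_restrict hVm, inter_eq_self_of_subset_left hVs]
  have h2 : ENNReal.ofReal (∫ τ in U ∩ Ioo p q, F τ) ≤ ENNReal.ofReal ε := by
    rw [h1]
    exact (measure_mono inter_subset_left).trans hU3
  exact (ENNReal.ofReal_le_ofReal_iff hε.le).1 h2

/-- the cells outside `V` -/
theorem Loc_out {T : ℝ} {D : ℝ → ℝ} {μ : Measure ℝ} {Z : Set ℝ} (hμ : Sing T D μ Z) {p q : ℝ}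
    (hp : 0 ≤ p) (hq : q ≤ T) {V K : Set ℝ} (hZV : Z ∩ Ioo p q ⊆ V) {ε : ℝ} (hε : 0 < ε)
    (hK : μ (V \ K) < ENNReal.ofReal ε) {δ : ℝ} (hδ : Metric.thickening δ K ⊆ V) {p' q' r : ℝ}
    {n : ℕ} (hr : 0 < r) (hrδ : 3 * r ≤ δ) (hn : p' + n * r = q') (hpp : p < p') (hqq : q' < q)
    (hm : ∀ a b : ℝ, 0 ≤ a → a ≤ b → b ≤ T → Mx D a ≤ Mx D b) {N : Finset ℕ}
    (hN : ∀ j ∈ N, j < n ∧ ¬ Cl p' r j ⊆ V) :
    ∑ j ∈ N, (Mx D (p' + j * r + r) - Mx D (p' + j * r)) ≤ ε := by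
  have hc : ∀ j ∈ N, p' ≤ p' + j * r ∧ p' + j * r + r ≤ q' := by
    intro j hj
    have h1 : (j : ℝ) + 1 ≤ n := by exact_mod_cast (hN j hj).1
    have h2 : 0 ≤ (j : ℝ) * r := by positivity
    refine ⟨by linarith, ?_⟩
    nlinarith
  have hd : ((N : Set ℕ)).PairwiseDisjoint fun j : ℕ => Ioc (p' + j * r) (p' + j * r + r) := by
    have key : ∀ i j : ℕ, i < j → Disjoint (Ioc (p' + i * r) (p' + i * r + r))
        (Ioc (p' + j * r) (p' + j * r + r)) := by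
      intro i j hij
      rw [Set.disjoint_left]
      intro x hx hx'
      have h1 : (i : ℝ) + 1 ≤ j := by exact_mod_cast hij
      have h2 := hx.2
      have h3 := hx'.1
      nlinarith
    intro i _ j _ hij
    rcases lt_or_gt_of_ne hij with h | h
    · exact key i j h
    · exact (key j i h).symm
  have h1 := measure_biUnion_finset (μ := μ) hd fun j _ => measurableSet_Ioc
  have h2 : ∀ j ∈ N, μ (Ioc (p' + j * r) (p' + j * r + r)) =
      ENNReal.ofReal (Mx D (p' + j * r + r) - Mx D (p' + j * r)) := by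
    intro j hj
    obtain ⟨a1, a2⟩ := hc j hj
    exact hμ.ioc _ _ (by linarith) (by linarith) (by linarith)
  have h3 : ∀ j ∈ N, 0 ≤ Mx D (p' + j * r + r) - Mx D (p' + j * r) := by
    intro j hj
    obtain ⟨a1, a2⟩ := hc j hj
    have := hm (p' + j * r) (p' + j * r + r) (by linarith) (by linarith) (by linarith)
    linarith
  rw [Finset.sum_congr rfl h2, ← ENNReal.ofReal_sum_of_nonneg h3] at h1
  have h4 : (⋃ j ∈ N, Ioc (p' + j * r) (p' + j * r + r)) ⊆ Zᶜ ∪ (V \ K) := by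
    intro x hx
    simp only [mem_iUnion] at hx
    obtain ⟨j, hj, hx⟩ := hx
    obtain ⟨a1, a2⟩ := hc j hj
    have hxpq : x ∈ Ioo p q := ⟨by linarith [hx.1], by linarith [hx.2]⟩
    by_cases hxV : x ∈ V
    · right
      refine ⟨hxV, fun hxK => ?_⟩
      apply (hN j hj).2
      intro y hy
      apply hδ
      rw [Metric.mem_thickening_iff]
      refine ⟨x, hxK, ?_⟩
      unfold Cl at hy
      rw [Real.dist_eq, abs_lt]
      have b1 := hx.1
      have b2 := hx.2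
      have b3 := hy.1
      have b4 := hy.2
      constructor <;> linarith
    · left
      intro hxZ
      exact hxV (hZV ⟨hxZ, hxpq⟩)
  have h5 : μ (⋃ j ∈ N, Ioc (p' + j * r) (p' + j * r + r)) ≤ ENNReal.ofReal ε := by
    refine (measure_mono h4).trans ((measure_union_le _ _).trans ?_)
    rw [hμ.compl, zero_add]
    exact hK.le
  rw [h1] at h5
  exact (ENNReal.ofReal_le_ofReal_iff hε.le).1 h5

/-- powers in one cell -/
theorem Loc_pow {A m Dj Fj r : ℝ} (hA : 0 < A) (hr : 0 < r) (hm : 0 ≤ m) (hD : 0 ≤ Dj)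
    (h1 : m ≤ A * (Dj ^ (5 / 3 : ℝ) * r ^ (-(1 / 3) : ℝ) + Fj)) (h2 : 2 * A * Fj < m) :
    m ^ (3 / 5 : ℝ) ≤ (2 * A) ^ (3 / 5 : ℝ) * r ^ (-(1 / 5) : ℝ) * Dj := by
  have h3 : m ≤ 2 * A * (Dj ^ (5 / 3 : ℝ) * r ^ (-(1 / 3) : ℝ)) := by nlinarith
  have h4 := Real.rpow_le_rpow hm h3 (by norm_num : (0 : ℝ) ≤ 3 / 5)
  refine h4.trans (le_of_eq ?_)
  have hA2 : 0 ≤ 2 * A := by positivity
  have hDp : 0 ≤ Dj ^ (5 / 3 : ℝ) := Real.rpow_nonneg hD _
  have hrp : 0 ≤ r ^ (-(1 / 3) : ℝ) := Real.rpow_nonneg hr.le _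
  rw [Real.mul_rpow hA2 (mul_nonneg hDp hrp), Real.mul_rpow hDp hrp, ← Real.rpow_mul hD,
    ← Real.rpow_mul hr.le]
  have e1 : (5 / 3 * (3 / 5) : ℝ) = 1 := by norm_num
  have e2 : (-(1 / 3) * (3 / 5) : ℝ) = -(1 / 5) := by norm_num
  rw [e1, e2, Real.rpow_one]
  ring

/-- the cells inside `V` -/
theorem Loc_in (hCnt : StCnt) (hOvl : StOvl) {T : ℝ} {D g F : ℝ → ℝ} {A L p q : ℝ}
    (hg : ∀ t, 0 ≤ g t) (hF : ∀ t, 0 ≤ F t) (hgi : IntegrableOn g (Icc 0 T))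
    (hFi : IntegrableOn F (Icc 0 T)) (hA : 0 < A) (hL : 0 ≤ L) (hp : 0 ≤ p) (hq : q ≤ T)
    (hWL : WL T g L p q) {V : Set ℝ} (hV : V ⊆ Ioo p q) {ε : ℝ}
    (hVF : ∫ τ in V, F τ ≤ ε) {p' r x : ℝ} (hr : 0 < r) (hx : 0 ≤ x) {J : Finset ℕ}
    (hJ : ∀ j ∈ J, Cl p' r j ⊆ V)
    (hm : ∀ j ∈ J, 0 ≤ Mx D (p' + j * r + r) - Mx D (p' + j * r) ∧
      Mx D (p' + j * r + r) - Mx D (p' + j * r) ≤ x)
    (hcel : ∀ j ∈ J, Mx D (p' + j * r + r) - Mx D (p' + j * r) ≤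
      A * ((∫ τ in (p' + j * r - 2 * r)..(p' + j * r + r), g τ) ^ (5 / 3 : ℝ) *
        r ^ (-(1 / 3) : ℝ) + ∫ τ in (p' + j * r - 2 * r)..(p' + j * r + r), F τ)) :
    ∑ j ∈ J, (Mx D (p' + j * r + r) - Mx D (p' + j * r)) ≤
      6 * A * ε + 4 * ((2 * A) ^ (3 / 5 : ℝ) * (3 * L * 3 ^ (1 / 5 : ℝ))) ^ (5 / 4 : ℝ) *
        x ^ (1 / 4 : ℝ) := by
  classical
  set m : ℕ → ℝ := fun j => Mx D (p' + j * r + r) - Mx D (p' + j * r) with hmdef
  set Dj : ℕ → ℝ := fun j => ∫ τ in (p' + j * r - 2 * r)..(p' + j * r + r), g τ with hDj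
  set Fj : ℕ → ℝ := fun j => ∫ τ in (p' + j * r - 2 * r)..(p' + j * r + r), F τ with hFj
  have hDj0 : ∀ j, 0 ≤ Dj j := fun j =>
    intervalIntegral.integral_nonneg (by linarith) fun t _ => hg t
  have hFj0 : ∀ j, 0 ≤ Fj j := fun j =>
    intervalIntegral.integral_nonneg (by linarith) fun t _ => hF t
  have hVT : V ⊆ Icc 0 T := fun y hy => ⟨hp.trans (hV hy).1.le, (hV hy).2.le.trans hq⟩
  rw [← Finset.sum_filter_add_sum_filter_not J (fun j => m j ≤ 2 * A * Fj j)]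
  apply add_le_add
  · -- the first kind
    set J1 := J.filter (fun j => m j ≤ 2 * A * Fj j) with hJ1
    have a1 : ∑ j ∈ J1, m j ≤ ∑ j ∈ J1, 2 * A * Fj j :=
      Finset.sum_le_sum fun j hj => (Finset.mem_filter.1 hj).2
    have a2 := (hOvl F T p' r J1 hF hFi hr fun j hj =>
      (hJ j (Finset.mem_filter.1 hj).1).trans hVT).1
    have a3 : (⋃ j ∈ J1, Cl p' r j) ⊆ V := by
      intro y hy
      simp only [mem_iUnion] at hy
      obtain ⟨j, hj, hy⟩ := hy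
      exact hJ j (Finset.mem_filter.1 hj).1 hy
    have a4 : ∫ τ in ⋃ j ∈ J1, Cl p' r j, F τ ≤ ∫ τ in V, F τ :=
      setIntegral_mono_set (hFi.mono_set hVT) (Filter.Eventually.of_forall fun t => hF t)
        (LE.le.eventuallyLE a3)
    rw [← Finset.mul_sum] at a1
    have a5 : ∑ j ∈ J1, Fj j ≤ 3 * ε := by
      have : ∑ j ∈ J1, Fj j ≤ 3 * ∫ τ in ⋃ j ∈ J1, Cl p' r j, F τ := a2
      linarith
    have a6 := mul_le_mul_of_nonneg_left a5 (by positivity : 0 ≤ 2 * A)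
    linarith
  · -- the second kind
    set J2 := J.filter (fun j => ¬ m j ≤ 2 * A * Fj j) with hJ2
    apply hCnt J2 m _ x (by positivity) hx
    · intro j hj
      exact hm j (Finset.mem_filter.1 hj).1
    · intro S hS
      have hSJ : ∀ j ∈ S, j ∈ J := fun j hj => (Finset.mem_filter.1 (hS hj)).1
      have a1 : ∑ j ∈ S, m j ^ (3 / 5 : ℝ) ≤
          ∑ j ∈ S, (2 * A) ^ (3 / 5 : ℝ) * r ^ (-(1 / 5) : ℝ) * Dj j := by
        refine Finset.sum_le_sum fun j hj => ?_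
        have h1 := (Finset.mem_filter.1 (hS hj)).2
        exact Loc_pow hA hr (hm j (hSJ j hj)).1 (hDj0 j) (hcel j (hSJ j hj)) (not_le.1 h1)
      rw [← Finset.mul_sum] at a1
      obtain ⟨a2, a3⟩ := hOvl g T p' r S hg hgi hr fun j hj => (hJ j (hSJ j hj)).trans hVT
      have a4 : (⋃ j ∈ S, Cl p' r j) ⊆ V := by
        intro y hy
        simp only [mem_iUnion] at hy
        obtain ⟨j, hj, hy⟩ := hy
        exact hJ j (hSJ j hj) hy
      have a5 : MeasurableSet (⋃ j ∈ S, Cl p' r j) :=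
        S.measurableSet_biUnion fun j _ => measurableSet_Ioc
      have a6 := hWL _ a5 fun y hy => ⟨hV (a4 hy), hVT (a4 hy)⟩
      have a7 : (volume (⋃ j ∈ S, Cl p' r j)).toReal ^ (1 / 5 : ℝ) ≤
          (3 * (S.card : ℝ) * r) ^ (1 / 5 : ℝ) :=
        Real.rpow_le_rpow ENNReal.toReal_nonneg a3 (by norm_num)
      have a8 : (3 * (S.card : ℝ) * r) ^ (1 / 5 : ℝ) =
          3 ^ (1 / 5 : ℝ) * (S.card : ℝ) ^ (1 / 5 : ℝ) * r ^ (1 / 5 : ℝ) := by
        rw [Real.mul_rpow (by positivity) hr.le, Real.mul_rpow (by norm_num) (by positivity)]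
      have a9 : r ^ (-(1 / 5) : ℝ) * r ^ (1 / 5 : ℝ) = 1 := by
        rw [← Real.rpow_add hr]
        norm_num
      have b1 : ∑ j ∈ S, Dj j ≤ 3 * (L * (3 ^ (1 / 5 : ℝ) * (S.card : ℝ) ^ (1 / 5 : ℝ) *
          r ^ (1 / 5 : ℝ))) := by
        rw [← a8]
        have c1 := mul_le_mul_of_nonneg_left a7 hL
        have c2 : ∑ j ∈ S, Dj j ≤ 3 * ∫ τ in ⋃ j ∈ S, Cl p' r j, g τ := a2
        linarith
      have b2 := mul_le_mul_of_nonneg_left b1
        (by positivity : 0 ≤ (2 * A) ^ (3 / 5 : ℝ) * r ^ (-(1 / 5) : ℝ))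
      refine a1.trans (b2.trans (le_of_eq ?_))
      calc (2 * A) ^ (3 / 5 : ℝ) * r ^ (-(1 / 5) : ℝ) * (3 * (L * (3 ^ (1 / 5 : ℝ) *
            (S.card : ℝ) ^ (1 / 5 : ℝ) * r ^ (1 / 5 : ℝ))))
          = (2 * A) ^ (3 / 5 : ℝ) * (3 * L * 3 ^ (1 / 5 : ℝ)) * (S.card : ℝ) ^ (1 / 5 : ℝ) *
            (r ^ (-(1 / 5) : ℝ) * r ^ (1 / 5 : ℝ)) := by ring
        _ = _ := by rw [a9, mul_one]

/-- one interval -/
theorem Loc_main (hMx : StMx) (hCnt : StCnt) (hCel : StCel) (hOvl : StOvl) {T : ℝ}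
    {D g F : ℝ → ℝ} {A L p q : ℝ} {μ : Measure ℝ} {Z : Set ℝ} (hT : 0 < T) (hU : Usc T D)
    (hNJ : NoJump T D) (hg : ∀ t, 0 ≤ g t) (hF : ∀ t, 0 ≤ F t) (hgi : IntegrableOn g (Icc 0 T))
    (hFi : IntegrableOn F (Icc 0 T)) (hA : 0 < A) (hW : Win T D g F A) (hL : 0 ≤ L) (hp : 0 ≤ p)
    (hq : q ≤ T) (hWL : WL T g L p q) (hμ : Sing T D μ Z) {p' q' : ℝ} (hpp : p < p')
    (hpq : p' < q') (hqq : q' < q) {ε : ℝ} (hε : 0 < ε) :
    Mx D q' - Mx D p' ≤ (6 * A + 2) * ε := by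
  have hfin := hμ.fin
  obtain ⟨hcont, hmono, -, -, -⟩ := hMx T D hT hU hNJ
  have hm : ∀ a b : ℝ, 0 ≤ a → a ≤ b → b ≤ T → Mx D a ≤ Mx D b := fun a b h1 h2 h3 =>
    hmono ⟨h1, h2.trans h3⟩ ⟨h1.trans h2, h3⟩ h2
  obtain ⟨V, hVo, hV, hZV, hVF⟩ := Loc_V hF hFi hp hq hμ.null hε
  obtain ⟨K, hKV, hKc, hK⟩ := hVo.measurableSet.exists_isCompact_sdiff_lt (μ := μ)
    (measure_ne_top μ V) (ε := ENNReal.ofReal ε) (by simpa using hε)
  obtain ⟨δ, hδ0, hδ⟩ := hKc.exists_thickening_subset_open hVo hKV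
  -- the constant
  set B : ℝ := ((2 * A) ^ (3 / 5 : ℝ) * (3 * L * 3 ^ (1 / 5 : ℝ))) ^ (5 / 4 : ℝ) with hB
  have hB0 : 0 ≤ B := by positivity
  set x : ℝ := (ε / (4 * B + 1)) ^ (4 : ℕ) with hx
  have hx0 : 0 < x := by positivity
  have hx1 : 4 * B * x ^ (1 / 4 : ℝ) ≤ ε := by
    have e1 : x ^ (1 / 4 : ℝ) = ε / (4 * B + 1) := by
      rw [hx, ← Real.rpow_natCast, ← Real.rpow_mul (by positivity)]
      norm_num
    rw [e1, mul_div_assoc', div_le_iff₀ (by positivity)]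
    nlinarith
  obtain ⟨η, hη0, hη⟩ := Metric.uniformContinuousOn_iff.1
    (isCompact_Icc.uniformContinuousOn_of_continuous hcont) x hx0
  -- the mesh
  have hp'0 : 0 < p' := hp.trans_lt hpp
  obtain ⟨ρ, hρ0, hρ1, hρ2, hρ3⟩ : ∃ ρ : ℝ, 0 < ρ ∧ 2 * ρ ≤ p' ∧ 3 * ρ ≤ δ ∧ ρ < η := by
    refine ⟨min (p' / 2) (min (δ / 3) (η / 2)), by positivity, ?_, ?_, ?_⟩
    · have := min_le_left (p' / 2) (min (δ / 3) (η / 2))
      linarith
    · have := (min_le_right (p' / 2) (min (δ / 3) (η / 2))).trans (min_le_left _ _)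
      linarith
    · have := (min_le_right (p' / 2) (min (δ / 3) (η / 2))).trans (min_le_right _ _)
      linarith
  obtain ⟨n, hn⟩ := exists_nat_gt ((q' - p') / ρ)
  have hn0 : (0 : ℝ) < n := lt_trans (div_pos (by linarith) hρ0) hn
  set r : ℝ := (q' - p') / n with hr
  have hr0 : 0 < r := div_pos (by linarith) hn0
  have hrρ : r < ρ := by
    rw [hr, div_lt_iff₀ hn0]
    rw [div_lt_iff₀ hρ0] at hn
    linarith
  have hnr : p' + n * r = q' := by
    rw [hr, mul_div_cancel₀ _ hn0.ne']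
    ring
  classical
  have hc : ∀ j ∈ Finset.range n, p' ≤ p' + j * r ∧ p' + j * r + r ≤ q' := by
    intro j hj
    have h1 : (j : ℝ) + 1 ≤ n := by exact_mod_cast Finset.mem_range.1 hj
    have h2 : 0 ≤ (j : ℝ) * r := by positivity
    refine ⟨by linarith, ?_⟩
    nlinarith
  have htel : ∑ j ∈ Finset.range n, (Mx D (p' + j * r + r) - Mx D (p' + j * r)) =
      Mx D q' - Mx D p' := by
    have h1 := Finset.sum_range_sub (fun j : ℕ => Mx D (p' + j * r)) n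
    rw [hnr] at h1
    have e0 : p' + ((0 : ℕ) : ℝ) * r = p' := by simp
    rw [e0] at h1
    rw [← h1]
    refine Finset.sum_congr rfl fun j _ => ?_
    congr 2
    push_cast
    ring
  rw [← htel, ← Finset.sum_filter_add_sum_filter_not (Finset.range n) (fun j => Cl p' r j ⊆ V)]
  have hJ := Loc_in hCnt hOvl hg hF hgi hFi hA hL hp hq hWL hV hVF (D := D)
    (p' := p') (x := x) hr0 hx0.le (J := (Finset.range n).filter (fun j => Cl p' r j ⊆ V))
    (fun j hj => (Finset.mem_filter.1 hj).2)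
    (fun j hj => by
      obtain ⟨a1, a2⟩ := hc j (Finset.mem_filter.1 hj).1
      have h1 := hm (p' + j * r) (p' + j * r + r) (by linarith) (by linarith) (by linarith)
      refine ⟨by linarith, ?_⟩
      have h2 := hη (p' + j * r + r) ⟨by linarith, by linarith⟩ (p' + j * r)
        ⟨by linarith, by linarith⟩ (by
          rw [Real.dist_eq, add_sub_cancel_left, abs_of_pos hr0]
          linarith)
      rw [Real.dist_eq, abs_lt] at h2
      exact h2.2.le)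
    (fun j hj => by
      obtain ⟨a1, a2⟩ := hc j (Finset.mem_filter.1 hj).1
      exact hCel T D g F A hT hU hNJ hg hF hgi hFi hA hW (p' + j * r) r hr0 (by linarith)
        (by linarith))
  have hN := Loc_out hμ hp hq hZV hε hK hδ hr0 (by linarith) hnr hpp hqq hm
    (N := (Finset.range n).filter (fun j => ¬ Cl p' r j ⊆ V))
    (fun j hj => ⟨Finset.mem_range.1 (Finset.mem_filter.1 hj).1, (Finset.mem_filter.1 hj).2⟩)
  rw [← hB] at hJ
  linarith

theorem wLoc (hMx : StMx) (hCnt : StCnt) (hCel : StCel) (hOvl : StOvl) : StLoc := by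
  intro T D g F A L p q μ Z hT hU hNJ hg hF hgi hFi hA hW hL hp hpq hq hWL hμ
  have h1 : ∀ p' q' : ℝ, p < p' → q' < q → μ (Ioc p' q') = 0 := by
    intro p' q' hpp hqq
    rcases le_or_gt q' p' with h | h
    · rw [Ioc_eq_empty (not_lt.2 h)]
      exact measure_empty
    · rw [hμ.ioc p' q' (by linarith) h.le (by linarith)]
      apply ENNReal.ofReal_eq_zero.2
      apply le_of_forall_pos_le_add
      intro ε hε
      have h2 := Loc_main hMx hCnt hCel hOvl hT hU hNJ hg hF hgi hFi hA hW hL hp hq hWL hμ hpp h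
        hqq (ε := ε / (6 * A + 2)) (by positivity)
      have e : (6 * A + 2) * (ε / (6 * A + 2)) = ε := by
        field_simp
      linarith
  have h2 : Ioo p q ⊆ ⋃ n : ℕ, Ioc (p + 1 / ((n : ℝ) + 1)) (q - 1 / ((n : ℝ) + 1)) := by
    intro y hy
    obtain ⟨n, hn⟩ := exists_nat_one_div_lt (show (0 : ℝ) < min (y - p) (q - y) by
      apply lt_min
      · linarith [hy.1]
      · linarith [hy.2])
    rw [mem_iUnion]
    have a1 := hn.trans_le (min_le_left _ _)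
    have a2 := hn.trans_le (min_le_right _ _)
    exact ⟨n, by linarith, by linarith⟩
  refine measure_mono_null h2 ?_
  rw [measure_iUnion_null_iff]
  intro n
  have : (0 : ℝ) < 1 / ((n : ℝ) + 1) := by positivity
  exact h1 _ _ (by linarith) (by linarith)

end Pool.Agent.Helper83.WC
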