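import Pool.Agent.Helper83.WC.StB
import Pool.Agent.Helper83.WC.M_Loc

/-! Project WC, Vit: no mass on an interval with the weak bound for the `L⁴` norm -/

set_option autoImplicit false

open MeasureTheory Set Filter Topology
open scoped ENNReal

noncomputable section

namespace Pool.Agent.Helper83.WC

/-- sums of integrals over disjoint intervals -/
theorem Vit_sum {T : ℝ} {h : ℝ → ℝ} (hh : ∀ t, 0 ≤ h t) (hi : IntegrableOn h (Icc 0 T))
    {V : Set ℝ} (hVT : V ⊆ Icc 0 T) {ρ : ℝ → ℝ} {S : Finset ℝ}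
    (hρ : ∀ x ∈ S, 0 < ρ x) (hSV : ∀ x ∈ S, Ioc (x - 5 * ρ x) (x + ρ x) ⊆ V)
    (hd : ((S : Set ℝ)).PairwiseDisjoint fun x : ℝ => Ioc (x - 5 * ρ x) (x + ρ x)) :
    ∑ x ∈ S, (∫ τ in (x - 5 * ρ x)..(x + ρ x), h τ) =
      ∫ τ in ⋃ x ∈ S, Ioc (x - 5 * ρ x) (x + ρ x), h τ ∧
    (∫ τ in ⋃ x ∈ S, Ioc (x - 5 * ρ x) (x + ρ x), h τ) ≤ ∫ τ in V, h τ := by
  constructor
  · rw [integral_biUnion_finset S (fun x _ => measurableSet_Ioc) hd
      (fun x hx => hi.mono_set ((hSV x hx).trans hVT))]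
    refine Finset.sum_congr rfl fun x hx => ?_
    rw [intervalIntegral.integral_of_le (by linarith [hρ x hx])]
  · refine setIntegral_mono_set (hi.mono_set hVT) (Filter.Eventually.of_forall fun t => hh t)
      (LE.le.eventuallyLE ?_)
    intro y hy
    simp only [mem_iUnion] at hy
    obtain ⟨x, hx, hy⟩ := hy
    exact hSV x hx hy

/-- one stopping interval -/
theorem Vit_one (hMx : StMx) (hCelq : StCelq) {T : ℝ} {D g b F : ℝ → ℝ} {A : ℝ}
    {μ : Measure ℝ} {Z : Set ℝ} (hT : 0 < T) (hU : Usc T D) (hNJ : NoJump T D)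
    (hg : ∀ t, 0 ≤ g t) (hb : ∀ t, 0 ≤ b t) (hF : ∀ t, 0 ≤ F t) (hgi : IntegrableOn g (Icc 0 T))
    (hbi : IntegrableOn b (Icc 0 T)) (hFi : IntegrableOn F (Icc 0 T)) (hA : 0 < A)
    (hW : Win4 T D g b F A) (hμ : Sing T D μ Z) {x ρ l : ℝ} (hρ : 0 < ρ) (hl : 0 < l)
    (h0 : 0 ≤ x - 5 * ρ) (h1 : x + ρ ≤ T)
    (h2 : ENNReal.ofReal (2 * l * ρ) ≤ μ (Metric.closedBall x ρ)) :
    2 * l * ρ ≤ A * (Real.sqrt ((∫ τ in (x - 5 * ρ)..(x + ρ), g τ) / (2 * ρ)) *
      (∫ τ in (x - 5 * ρ)..(x + ρ), b τ) + ∫ τ in (x - 5 * ρ)..(x + ρ), F τ) := by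
  have h3 := hCelq T D g b F A hT hU hNJ hg hb hF hgi hbi hFi hA hW (x - ρ) (2 * ρ)
    (by linarith) (by linarith) (by linarith)
  have e1 : x - ρ + 2 * ρ = x + ρ := by ring
  have e2 : x - ρ - 2 * (2 * ρ) = x - 5 * ρ := by ring
  rw [e1, e2] at h3
  refine le_trans ?_ h3
  have h4 : μ (Metric.closedBall x ρ) ≤ ENNReal.ofReal (Mx D (x + ρ) - Mx D (x - ρ)) := by
    rw [← hμ.ioc (x - ρ) (x + ρ) (by linarith) (by linarith) h1]
    have h5 : Metric.closedBall x ρ ⊆ {x - ρ} ∪ Ioc (x - ρ) (x + ρ) := by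
      intro y hy
      rw [Real.closedBall_eq_Icc] at hy
      rcases eq_or_lt_of_le hy.1 with h | h
      · left
        exact h.symm
      · right
        exact ⟨h, hy.2⟩
    refine (measure_mono h5).trans ((measure_union_le _ _).trans ?_)
    rw [hμ.atom, zero_add]
  by_contra hcon
  push Not at hcon
  have h5 : 0 < 2 * l * ρ := by positivity
  have h6 := (ENNReal.ofReal_lt_ofReal_iff h5).2 hcon
  exact absurd (h2.trans h4) (not_le.2 h6)

/-- the bound for the points with a large ball inside `V` -/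
theorem Vit_level (hMx : StMx) (hCelq : StCelq) (hStp : StStp) (hAbs : StAbs) {T : ℝ}
    {D g b F : ℝ → ℝ} {A L p q : ℝ} {μ : Measure ℝ} {Z : Set ℝ} (hT : 0 < T) (hU : Usc T D)
    (hNJ : NoJump T D) (hg : ∀ t, 0 ≤ g t) (hb : ∀ t, 0 ≤ b t) (hF : ∀ t, 0 ≤ F t)
    (hgi : IntegrableOn g (Icc 0 T)) (hbi : IntegrableOn b (Icc 0 T))
    (hFi : IntegrableOn F (Icc 0 T)) (hA : 0 < A) (hW : Win4 T D g b F A) (hL : 0 ≤ L)
    (hp : 0 ≤ p) (hq : q ≤ T) (hWL : WL4 T b L p q) (hμ : Sing T D μ Z) {ε k m l : ℝ}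
    (hε : 0 ≤ ε) (hk : 0 < k) (hl : 0 < l) (hm : μ univ ≤ ENNReal.ofReal m) {V : Set ℝ}
    (hV : V ⊆ Ioo p q) (hVg : ∫ τ in V, g τ ≤ ε) (hVF : ∫ τ in V, F τ ≤ ε) {E : Set ℝ}
    (hE1 : ∀ x ∈ E, ∃ ρ : ℝ, 0 < ρ ∧ ENNReal.ofReal (2 * l * ρ) ≤ μ (Metric.closedBall x ρ))
    (hE2 : ∀ x ∈ E, Metric.closedBall x (5 * m / (2 * l)) ⊆ V) :
    μ E ≤ ENNReal.ofReal (50 * (A * ε + 10 * L ^ 2 / k ^ 2 + A ^ 2 * k ^ 2 * ε)) := by
  obtain ⟨S, ρ, hSE, -, hS, hdis, hcov⟩ := hStp μ E l m hμ.fin hl hm hE1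
  have hVT : V ⊆ Icc 0 T := fun y hy => ⟨hp.trans (hV hy).1.le, (hV hy).2.le.trans hq⟩
  have hball : ∀ x ∈ S, Metric.closedBall x (5 * ρ x) ⊆ V := by
    intro x hx
    refine (Metric.closedBall_subset_closedBall ?_).trans (hE2 x (hSE hx))
    rw [le_div_iff₀ (by positivity)]
    nlinarith [(hS x hx).2.1]
  have hIoc : ∀ x ∈ S, Ioc (x - 5 * ρ x) (x + ρ x) ⊆ Metric.closedBall x (5 * ρ x) := by
    intro x hx y hy
    rw [Real.closedBall_eq_Icc]
    exact ⟨hy.1.le, by linarith [hy.2, (hS x hx).1]⟩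
  have hend : ∀ x ∈ S, 0 ≤ x - 5 * ρ x ∧ x + ρ x ≤ T := by
    intro x hx
    have h1 : x - 5 * ρ x ∈ Metric.closedBall x (5 * ρ x) := by
      rw [Real.closedBall_eq_Icc]
      exact ⟨le_rfl, by linarith [(hS x hx).1]⟩
    have h2 : x + ρ x ∈ Metric.closedBall x (5 * ρ x) := by
      rw [Real.closedBall_eq_Icc]
      exact ⟨by linarith [(hS x hx).1], by linarith [(hS x hx).1]⟩
    exact ⟨(hVT (hball x hx h1)).1, (hVT (hball x hx h2)).2⟩
  have hfinite : ∀ S' : Finset ℝ, (∀ x ∈ S', x ∈ S) →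
      ∑ x ∈ S', l * ρ x ≤ A * ε + 10 * L ^ 2 / k ^ 2 + A ^ 2 * k ^ 2 * ε := by
    intro S' hS'
    have hd : ∀ S'' ⊆ S', ((S'' : Set ℝ)).PairwiseDisjoint
        fun x : ℝ => Ioc (x - 5 * ρ x) (x + ρ x) := by
      intro S'' hS'' x hx y hy hxy
      have hxS := hS' x (hS'' hx)
      have hyS := hS' y (hS'' hy)
      exact (hdis hxS hyS hxy).mono (hIoc x hxS) (hIoc y hyS)
    have hsub : ∀ S'' ⊆ S', ∀ x ∈ S'', Ioc (x - 5 * ρ x) (x + ρ x) ⊆ V := fun S'' hS'' x hx =>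
      (hIoc x (hS' x (hS'' hx))).trans (hball x (hS' x (hS'' hx)))
    have hpos : ∀ S'' ⊆ S', ∀ x ∈ S'', 0 < ρ x := fun S'' hS'' x hx =>
      (hS x (hS' x (hS'' hx))).1
    refine hAbs S' ρ (fun x => ∫ τ in (x - 5 * ρ x)..(x + ρ x), g τ)
      (fun x => ∫ τ in (x - 5 * ρ x)..(x + ρ x), b τ)
      (fun x => ∫ τ in (x - 5 * ρ x)..(x + ρ x), F τ) l A L ε k hl hA hL hε hk ?_ ?_ ?_ ?_
    · intro x hx
      have hxS := hS' x hx
      have hρx := (hS x hxS).1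
      obtain ⟨a1, a2⟩ := hend x hxS
      refine ⟨hρx, intervalIntegral.integral_nonneg (by linarith) fun t _ => hg t,
        intervalIntegral.integral_nonneg (by linarith) fun t _ => hb t,
        intervalIntegral.integral_nonneg (by linarith) fun t _ => hF t, ?_⟩
      exact Vit_one hMx hCelq hT hU hNJ hg hb hF hgi hbi hFi hA hW hμ hρx hl a1 a2
        (hS x hxS).2.2
    · obtain ⟨a1, a2⟩ := Vit_sum hg hgi hVT (hpos S' (Finset.Subset.refl _))
        (hsub S' (Finset.Subset.refl _)) (hd S' (Finset.Subset.refl _))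
      exact (a1.le.trans a2).trans hVg
    · obtain ⟨a1, a2⟩ := Vit_sum hF hFi hVT (hpos S' (Finset.Subset.refl _))
        (hsub S' (Finset.Subset.refl _)) (hd S' (Finset.Subset.refl _))
      exact (a1.le.trans a2).trans hVF
    · intro S'' hS''
      obtain ⟨a1, -⟩ := Vit_sum hb hbi hVT (hpos S'' hS'') (hsub S'' hS'') (hd S'' hS'')
      have a2 : (⋃ x ∈ S'', Ioc (x - 5 * ρ x) (x + ρ x)) ⊆ V := by
        intro y hy
        simp only [mem_iUnion] at hy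
        obtain ⟨x, hx, hy⟩ := hy
        exact hsub S'' hS'' x hx hy
      have a3 := hWL (⋃ x ∈ S'', Ioc (x - 5 * ρ x) (x + ρ x))
        (S''.measurableSet_biUnion fun x _ => measurableSet_Ioc)
        (fun y hy => ⟨hV (a2 hy), hVT (a2 hy)⟩)
      have a4 : (volume (⋃ x ∈ S'', Ioc (x - 5 * ρ x) (x + ρ x))).toReal ≤
          10 * ∑ x ∈ S'', ρ x := by
        have b1 : volume (⋃ x ∈ S'', Ioc (x - 5 * ρ x) (x + ρ x)) ≤
            ENNReal.ofReal (∑ x ∈ S'', 6 * ρ x) := by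
          refine (measure_biUnion_finset_le S'' _).trans ?_
          rw [ENNReal.ofReal_sum_of_nonneg fun x hx => by
            have := hpos S'' hS'' x hx
            positivity]
          refine Finset.sum_le_sum fun x hx => ?_
          rw [Real.volume_Ioc]
          apply ENNReal.ofReal_le_ofReal
          linarith
        have b2 : 0 ≤ ∑ x ∈ S'', ρ x := Finset.sum_nonneg fun x hx => (hpos S'' hS'' x hx).le
        have b3 := ENNReal.toReal_mono ENNReal.ofReal_ne_top b1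
        rw [← Finset.mul_sum, ENNReal.toReal_ofReal (by positivity)] at b3
        linarith
      have a5 : (volume (⋃ x ∈ S'', Ioc (x - 5 * ρ x) (x + ρ x))).toReal ^ (1 / 2 : ℝ) ≤
          Real.sqrt (10 * ∑ x ∈ S'', ρ x) := by
        rw [← Real.sqrt_eq_rpow]
        exact Real.sqrt_le_sqrt a4
      exact (a1.le.trans a3).trans (mul_le_mul_of_nonneg_left a5 hL)
  refine hcov.trans ?_
  rw [ENNReal.tsum_eq_iSup_sum]
  refine iSup_le fun s => ?_
  have h1 : ∑ x ∈ s, ENNReal.ofReal (50 * l * ρ x) =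
      ENNReal.ofReal (∑ x ∈ s, 50 * l * ρ x) := by
    rw [ENNReal.ofReal_sum_of_nonneg fun x _ => by
      have := (hS x x.2).1
      positivity]
  rw [h1]
  apply ENNReal.ofReal_le_ofReal
  have h2 := hfinite (s.map (Function.Embedding.subtype _)) (fun x hx => by
    rw [Finset.mem_map] at hx
    obtain ⟨y, -, rfl⟩ := hx
    exact y.2)
  rw [Finset.sum_map] at h2
  have h3 : ∑ x ∈ s, 50 * l * ρ x = 50 * ∑ x ∈ s, l * ρ x := by
    rw [Finset.mul_sum]
    exact Finset.sum_congr rfl fun x _ => by ring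
  rw [h3]
  exact mul_le_mul_of_nonneg_left h2 (by norm_num)

/-- the bound for all `ε`, `k` -/
theorem Vit_main (hMx : StMx) (hCelq : StCelq) (hDen : StDen) (hStp : StStp) (hAbs : StAbs)
    {T : ℝ} {D g b F : ℝ → ℝ} {A L p q : ℝ} {μ : Measure ℝ} {Z : Set ℝ} (hT : 0 < T)
    (hU : Usc T D) (hNJ : NoJump T D) (hg : ∀ t, 0 ≤ g t) (hb : ∀ t, 0 ≤ b t)
    (hF : ∀ t, 0 ≤ F t) (hgi : IntegrableOn g (Icc 0 T)) (hbi : IntegrableOn b (Icc 0 T))
    (hFi : IntegrableOn F (Icc 0 T)) (hA : 0 < A) (hW : Win4 T D g b F A) (hL : 0 ≤ L)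
    (hp : 0 ≤ p) (hq : q ≤ T) (hWL : WL4 T b L p q) (hμ : Sing T D μ Z) {ε k : ℝ}
    (hε : 0 < ε) (hk : 0 < k) :
    μ (Ioo p q) ≤ ENNReal.ofReal (50 * (A * ε + 10 * L ^ 2 / k ^ 2 + A ^ 2 * k ^ 2 * ε)) := by
  have hfin := hμ.fin
  obtain ⟨V, hVo, hV, hZV, hVF⟩ := Loc_V (F := fun t => g t + F t)
    (fun t => add_nonneg (hg t) (hF t)) (hgi.add hFi) hp hq hμ.null hε
  have hVT : V ⊆ Icc 0 T := fun y hy => ⟨hp.trans (hV hy).1.le, (hV hy).2.le.trans hq⟩
  rw [integral_add (hgi.mono_set hVT) (hFi.mono_set hVT)] at hVF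
  have hg0 : 0 ≤ ∫ τ in V, g τ := integral_nonneg fun t => hg t
  have hF0 : 0 ≤ ∫ τ in V, F τ := integral_nonneg fun t => hF t
  set m : ℝ := (μ univ).toReal with hm
  have hm0 : 0 ≤ m := ENNReal.toReal_nonneg
  have hm1 : μ univ ≤ ENNReal.ofReal m := by
    rw [hm, ENNReal.ofReal_toReal (measure_ne_top μ univ)]
  have hden := hDen μ Z hfin hμ.meas hμ.null hμ.compl
  set P : ℝ → Prop := fun x => ∀ l δ : ℝ, 0 < l → 0 < δ → ∃ ρ ∈ Ioo 0 δ,
      ENNReal.ofReal (2 * l * ρ) ≤ μ (Metric.closedBall x ρ) with hP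
  have hnull : μ {x | ¬ P x} = 0 := hden
  set E : ℕ → Set ℝ := fun n => {x | P x ∧ Metric.closedBall x (5 * m / (2 * ((n : ℝ) + 1))) ⊆ V}
    with hE
  have hmono : Monotone E := by
    intro n n' hn x hx
    refine ⟨hx.1, (Metric.closedBall_subset_closedBall ?_).trans hx.2⟩
    have h1 : (n : ℝ) ≤ n' := by exact_mod_cast hn
    apply div_le_div_of_nonneg_left (by positivity) (by positivity)
    linarith
  have hlev : ∀ n : ℕ, μ (E n) ≤
      ENNReal.ofReal (50 * (A * ε + 10 * L ^ 2 / k ^ 2 + A ^ 2 * k ^ 2 * ε)) := by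
    intro n
    refine Vit_level hMx hCelq hStp hAbs hT hU hNJ hg hb hF hgi hbi hFi hA hW hL hp hq hWL hμ
      hε.le hk (l := (n : ℝ) + 1) (by positivity) hm1 hV (by linarith) (by linarith)
      (fun x hx => ?_) (fun x hx => hx.2)
    obtain ⟨ρ, hρ1, hρ2⟩ := hx.1 ((n : ℝ) + 1) 1 (by positivity) one_pos
    exact ⟨ρ, hρ1.1, hρ2⟩
  have hcov : Ioo p q ⊆ (Zᶜ ∪ {x | ¬ P x}) ∪ ⋃ n, E n := by
    intro x hx
    by_cases hxZ : x ∈ Z
    · by_cases hxP : P x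
      · right
        have hxV : x ∈ V := hZV ⟨hxZ, hx⟩
        obtain ⟨r, hr0, hr⟩ := Metric.isOpen_iff.1 hVo x hxV
        obtain ⟨n, hn⟩ := exists_nat_gt (5 * m / (2 * r))
        rw [mem_iUnion]
        refine ⟨n, hxP, fun y hy => hr ?_⟩
        rw [Metric.mem_closedBall] at hy
        rw [Metric.mem_ball]
        refine hy.trans_lt ?_
        rw [div_lt_iff₀ (by positivity)] at hn ⊢
        nlinarith
      · left
        right
        exact hxP
    · left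
      left
      exact hxZ
  have h1 : μ (⋃ n, E n) ≤
      ENNReal.ofReal (50 * (A * ε + 10 * L ^ 2 / k ^ 2 + A ^ 2 * k ^ 2 * ε)) := by
    rw [hmono.measure_iUnion]
    exact iSup_le hlev
  refine (measure_mono hcov).trans ((measure_union_le _ _).trans ?_)
  have h2 : μ (Zᶜ ∪ {x | ¬ P x}) = 0 := measure_union_null hμ.compl hnull
  rw [h2, zero_add]
  exact h1

theorem wVit (hMx : StMx) (hCelq : StCelq) (hDen : StDen) (hStp : StStp) (hAbs : StAbs) :
    StVit := by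
  intro T D g b F A L p q μ Z hT hU hNJ hg hb hF hgi hbi hFi hA hW hL hp hpq hq hWL hμ
  have hfin := hμ.fin
  have key : ∀ η : ℝ, 0 < η → (μ (Ioo p q)).toReal ≤ η := by
    intro η hη
    -- choose `k` with `50 * 10 L² / k² ≤ η / 2`, then `ε`
    obtain ⟨k, hk, hk1⟩ : ∃ k : ℝ, 0 < k ∧ 500 * L ^ 2 / k ^ 2 ≤ η / 2 := by
      refine ⟨Real.sqrt (1000 * L ^ 2 / η + 1), Real.sqrt_pos.2 (by positivity), ?_⟩
      rw [Real.sq_sqrt (by positivity), div_le_iff₀ (by positivity)]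
      have e : η / 2 * (1000 * L ^ 2 / η + 1) = 500 * L ^ 2 + η / 2 := by
        field_simp
        ring
      rw [e]
      linarith
    set c : ℝ := 50 * (A + A ^ 2 * k ^ 2) with hc
    have hc0 : 0 < c := by positivity
    have h1 := Vit_main hMx hCelq hDen hStp hAbs hT hU hNJ hg hb hF hgi hbi hFi hA hW hL hp hq
      hWL hμ (ε := η / (2 * c)) (by positivity) hk
    have h2 := ENNReal.toReal_mono ENNReal.ofReal_ne_top h1
    rw [ENNReal.toReal_ofReal (by positivity)] at h2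
    refine h2.trans ?_
    have e1 : 50 * (A * (η / (2 * c)) + 10 * L ^ 2 / k ^ 2 + A ^ 2 * k ^ 2 * (η / (2 * c))) =
        c * (η / (2 * c)) + 500 * L ^ 2 / k ^ 2 := by
      rw [hc]
      ring
    have e2 : c * (η / (2 * c)) = η / 2 := by
      field_simp
    rw [e1, e2]
    linarith
  have h1 : (μ (Ioo p q)).toReal ≤ 0 := le_of_forall_pos_le_add fun η hη => by
    rw [zero_add]
    exact key η hη
  have h2 : (μ (Ioo p q)).toReal = 0 := le_antisymm h1 ENNReal.toReal_nonneg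
  rcases (ENNReal.toReal_eq_zero_iff _).1 h2 with h3 | h3
  · exact h3
  · exact absurd h3 (measure_ne_top μ _)

end Pool.Agent.Helper83.WC
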