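import Pool.Agent.Helper83.WC.St

/-!
# Project WC, module WkA: from the distribution function to integrals over sets
-/

set_option autoImplicit false

open MeasureTheory Set Filter Topology
open scoped ENNReal

noncomputable section

namespace Pool.Agent.Helper83.WC

open Pool.Agent.Helper52.NSE (E3 MemH1s IsWeakSolution gradSq kin defect nm gsq
  IsSmoothBoundedDomain)
open Pool.Agent.Helper83.CR (DissipationCritical)

theorem WkA_core {g : ℝ → ℝ} (hg : ∀ τ, 0 ≤ g τ) {E : Set ℝ} (hE : MeasurableSet E)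
    (hgi : IntegrableOn g E) (hfin : volume E ≠ ∞) {C : ℝ} (hC : 0 ≤ C)
    (h : ∀ l : ℝ, 0 < l → volume {s | s ∈ E ∧ l < Real.sqrt (g s)} ≤
      ENNReal.ofReal (C * l ^ (-(5 / 2) : ℝ))) :
    ∫ τ in E, g τ ≤ (1 + 4 * C) * (volume E).toReal ^ (1 / 5 : ℝ) := by
  rcases eq_or_ne (volume E) 0 with h0 | h0
  · rw [setIntegral_measure_zero _ h0, h0]
    simp
  set m : ℝ := (volume E).toReal with hm
  have hmpos : 0 < m := ENNReal.toReal_pos h0 hfin
  have hvE : volume E = ENNReal.ofReal m := (ENNReal.ofReal_toReal hfin).symm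
  set c : ℝ := m ^ (-(4 / 5) : ℝ) with hc
  have hcpos : 0 < c := Real.rpow_pos_of_pos hmpos _
  have hlay : ∫⁻ τ in E, ENNReal.ofReal (g τ) =
      ∫⁻ l in Ioi (0 : ℝ), (volume.restrict E) {a | l < g a} :=
    lintegral_eq_lintegral_meas_lt (volume.restrict E) (Eventually.of_forall hg)
      hgi.aestronglyMeasurable.aemeasurable
  have hsplit : ∫⁻ l in Ioi (0 : ℝ), (volume.restrict E) {a | l < g a} ≤
      (∫⁻ l in Ioc (0 : ℝ) c, (volume.restrict E) {a | l < g a}) +
        ∫⁻ l in Ioi c, (volume.restrict E) {a | l < g a} := by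
    rw [← Ioc_union_Ioi_eq_Ioi hcpos.le]
    exact lintegral_union_le _ _ _
  have hfirst : (∫⁻ l in Ioc (0 : ℝ) c, (volume.restrict E) {a | l < g a}) ≤
      ENNReal.ofReal (m ^ (1 / 5 : ℝ)) := by
    calc (∫⁻ l in Ioc (0 : ℝ) c, (volume.restrict E) {a | l < g a})
        ≤ ∫⁻ l in Ioc (0 : ℝ) c, volume E := by
          refine lintegral_mono fun l => ?_
          refine (measure_mono (subset_univ _)).trans ?_
          rw [Measure.restrict_apply_univ]
      _ = volume E * ENNReal.ofReal c := by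
          rw [setLIntegral_const, Real.volume_Ioc, sub_zero]
      _ = ENNReal.ofReal (m ^ (1 / 5 : ℝ)) := by
          rw [hvE, ← ENNReal.ofReal_mul hmpos.le]
          congr 1
          rw [hc]
          nth_rewrite 1 [← Real.rpow_one m]
          rw [← Real.rpow_add hmpos]
          norm_num
  have hsecond : (∫⁻ l in Ioi c, (volume.restrict E) {a | l < g a}) ≤
      ENNReal.ofReal (4 * C * m ^ (1 / 5 : ℝ)) := by
    calc (∫⁻ l in Ioi c, (volume.restrict E) {a | l < g a})
        ≤ ∫⁻ l in Ioi c, ENNReal.ofReal (C * l ^ (-(5 / 4) : ℝ)) := by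
          refine setLIntegral_mono_ae' measurableSet_Ioi (Eventually.of_forall fun l hl => ?_)
          have hl0 : 0 < l := hcpos.trans hl
          have h1 := h (Real.sqrt l) (Real.sqrt_pos.2 hl0)
          have e1 : Real.sqrt l ^ (-(5 / 2) : ℝ) = l ^ (-(5 / 4) : ℝ) := by
            rw [Real.sqrt_eq_rpow, ← Real.rpow_mul hl0.le]
            norm_num
          rw [e1] at h1
          refine le_trans ?_ h1
          rw [Measure.restrict_apply' hE]
          refine measure_mono fun s hs => ⟨hs.2, ?_⟩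
          exact Real.sqrt_lt_sqrt hl0.le hs.1
      _ = ENNReal.ofReal (∫ l in Ioi c, C * l ^ (-(5 / 4) : ℝ)) := by
          rw [ofReal_integral_eq_lintegral_ofReal]
          · exact (integrableOn_Ioi_rpow_of_lt (by norm_num) hcpos).const_mul C
          · refine (ae_restrict_iff' measurableSet_Ioi).2 (Eventually.of_forall fun l hl => ?_)
            have hl0 : 0 < l := hcpos.trans hl
            exact mul_nonneg hC (Real.rpow_nonneg hl0.le _)
      _ = ENNReal.ofReal (4 * C * m ^ (1 / 5 : ℝ)) := by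
          congr 1
          rw [integral_const_mul, integral_Ioi_rpow_of_lt (by norm_num) hcpos]
          have e2 : c ^ (-(5 / 4) + 1 : ℝ) = m ^ (1 / 5 : ℝ) := by
            rw [hc, ← Real.rpow_mul hmpos.le]
            norm_num
          rw [e2]
          ring
  have htot : ∫⁻ τ in E, ENNReal.ofReal (g τ) ≤
      ENNReal.ofReal ((1 + 4 * C) * m ^ (1 / 5 : ℝ)) := by
    rw [hlay]
    refine hsplit.trans ((add_le_add hfirst hsecond).trans (le_of_eq ?_))
    rw [← ENNReal.ofReal_add (Real.rpow_nonneg hmpos.le _)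
      (mul_nonneg (by positivity) (Real.rpow_nonneg hmpos.le _))]
    congr 1
    ring
  rw [integral_eq_lintegral_of_nonneg_ae (Eventually.of_forall hg) hgi.aestronglyMeasurable]
  exact ENNReal.toReal_le_of_le_ofReal
    (mul_nonneg (by positivity) (Real.rpow_nonneg hmpos.le _)) htot

theorem wWkA : StWkA := by
  intro Ω ν T u₀ f u G hw t ht hwk
  obtain ⟨C, δ, hδ, hC⟩ := hwk
  have hg : ∀ τ, 0 ≤ gradSq Ω (G τ) := fun τ => by
    unfold gradSq
    exact integral_nonneg fun x => Finset.sum_nonneg fun i _ => by positivity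
  have hgi : IntegrableOn (fun τ => gradSq Ω (G τ)) (Icc 0 T) := hw.grad_int
  have hWL : WL T (fun τ => gradSq Ω (G τ)) (1 + 4 * max C 0) (t - δ) t := by
    intro E hE hEs
    have hfin : volume E ≠ ∞ := by
      refine ne_top_of_le_ne_top ?_ (measure_mono (hEs.trans inter_subset_right))
      rw [Real.volume_Icc]
      exact ENNReal.ofReal_ne_top
    refine WkA_core (C := max C 0) hg hE (hgi.mono_set (hEs.trans inter_subset_right)) hfin
      (le_max_right _ _) fun l hl => ?_
    refine (measure_mono ?_).trans ((hC l hl).trans (ENNReal.ofReal_le_ofReal ?_))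
    · intro s hs
      exact ⟨(hEs hs.1).1, (hEs hs.1).2.1, hs.2⟩
    · exact mul_le_mul_of_nonneg_right (le_max_left _ _) (Real.rpow_nonneg hl.le _)
  have hL0 : 0 ≤ 1 + 4 * max C 0 := by
    have := le_max_right C 0
    linarith
  refine ⟨⟨1 + 4 * max C 0, δ, hL0, hδ, hWL⟩, 1 + 4 * max C 0, fun δ' hδ' => ?_⟩
  obtain ⟨s, hs, hst⟩ : ∃ s, max 0 (max (t - δ) (t - δ')) < s ∧ s < t :=
    exists_between (max_lt ht.1 (max_lt (by linarith) (by linarith)))
  have h1 : 0 < s := (le_max_left _ _).trans_lt hs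
  have h2 : t - δ < s := ((le_max_left _ _).trans (le_max_right _ _)).trans_lt hs
  have h3 : t - δ' < s := ((le_max_right _ _).trans (le_max_right _ _)).trans_lt hs
  refine ⟨s, ⟨h3, hst⟩, h1.le, ?_⟩
  rw [intervalIntegral.integral_of_le hst.le, integral_Ioc_eq_integral_Ioo]
  have h4 := hWL (Ioo s t) measurableSet_Ioo
    (fun x hx => ⟨⟨h2.trans hx.1, hx.2⟩, (h1.trans hx.1).le, hx.2.le.trans ht.2⟩)
  rwa [Real.volume_Ioo, ENNReal.toReal_ofReal (sub_nonneg.2 hst.le)] at h4

end Pool.Agent.Helper83.WC
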