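import Pool.Agent.Helper83.WC.StB
import Pool.Agent.Helper7.NT.Sel
import Pool.Agent.Helper7.NT.HoS
import Pool.Agent.Helper52.NSE.Drop2

/-!
# Project WC, module Wq: the window inequality with the `L⁴` norms
-/

set_option autoImplicit false

open MeasureTheory Set Filter Topology
open scoped ENNReal

noncomputable section

namespace Pool.Agent.Helper83.WC

open Pool.Agent.Helper52.NSE (E3 MemH1s IsWeakSolution gradSq kin defect nm gsq nm_nonneg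
  gsq_nonneg ii_of nm_eq nm_le_gsq)
open Pool.Agent.Helper7.NT (Bf sel_avg sel_anti)
open Pool.Agent.Helper60.EC (fn)

theorem Wq_norm4 (w : E3 → E3) (μ : Measure E3) :
    eLpNorm w 4 μ = (∫⁻ x, ‖w x‖ₑ ^ (4 : ℝ) ∂μ) ^ (1 / 4 : ℝ) := by
  rw [eLpNorm_eq_lintegral_rpow_enorm_toReal (by norm_num) (by norm_num)]
  norm_num

theorem Wq_scalar {μ : Measure E3} {v w a : E3 → E3}
    (hv : AEStronglyMeasurable v μ) (hw : AEStronglyMeasurable w μ)
    (ha : AEStronglyMeasurable a μ) :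
    ∫⁻ x, ‖v x‖ₑ * (‖w x‖ₑ * ‖a x‖ₑ) ∂μ ≤ eLpNorm a 2 μ * (eLpNorm v 4 μ * eLpNorm w 4 μ) := by
  have key := ENNReal.lintegral_prod_norm_pow_le (μ := μ) (Finset.univ : Finset (Fin 3))
    (f := ![fun x => ‖v x‖ₑ ^ (4 : ℝ), fun x => ‖w x‖ₑ ^ (4 : ℝ), fun x => ‖a x‖ₑ ^ (2 : ℝ)])
    (by
      intro i _
      fin_cases i
      · exact hv.enorm.pow_const _
      · exact hw.enorm.pow_const _
      · exact ha.enorm.pow_const _)
    (p := ![1 / 4, 1 / 4, 1 / 2])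
    (by
      rw [Fin.sum_univ_three]
      show (1 / 4 : ℝ) + 1 / 4 + 1 / 2 = 1
      norm_num)
    (by
      intro i _
      fin_cases i
      · show (0 : ℝ) ≤ 1 / 4
        norm_num
      · show (0 : ℝ) ≤ 1 / 4
        norm_num
      · show (0 : ℝ) ≤ 1 / 2
        norm_num)
  simp only [Fin.prod_univ_three] at key
  have hl : ∀ x, ‖v x‖ₑ * (‖w x‖ₑ * ‖a x‖ₑ) =
      (‖v x‖ₑ ^ (4 : ℝ)) ^ (1 / 4 : ℝ) * (‖w x‖ₑ ^ (4 : ℝ)) ^ (1 / 4 : ℝ) *
        (‖a x‖ₑ ^ (2 : ℝ)) ^ (1 / 2 : ℝ) := by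
    intro x
    rw [← ENNReal.rpow_mul, ← ENNReal.rpow_mul, ← ENNReal.rpow_mul]
    norm_num
    ring
  calc ∫⁻ x, ‖v x‖ₑ * (‖w x‖ₑ * ‖a x‖ₑ) ∂μ = _ := lintegral_congr hl
    _ ≤ _ := key
    _ = _ := by
      rw [Wq_norm4, Wq_norm4, Pool.Agent.Helper7.NT.hos_two]
      simp only [Matrix.cons_val_zero, Matrix.cons_val_one, Matrix.cons_val]
      ring

theorem Wq_Bf {Ω : Set E3} {v w : E3 → E3} {A : Fin 3 → E3 → E3}
    (hv : AEStronglyMeasurable v (volume.restrict Ω))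
    (hw : AEStronglyMeasurable w (volume.restrict Ω))
    (hA : ∀ i, MemLp (A i) 2 (volume.restrict Ω)) :
    ‖Bf Ω v A w‖ₑ ≤ 3 * ENNReal.ofReal (Real.sqrt (gsq Ω A)) *
      (eLpNorm v 4 (volume.restrict Ω) * eLpNorm w 4 (volume.restrict Ω)) := by
  unfold Bf
  refine (enorm_integral_le_lintegral_enorm _).trans ?_
  have h1 : ∀ x, ‖∑ i, (v x) i * inner ℝ (w x) (A i x)‖ₑ ≤
      ∑ i, ‖v x‖ₑ * (‖w x‖ₑ * ‖A i x‖ₑ) := by
    intro x
    refine (enorm_sum_le _ _).trans (Finset.sum_le_sum fun i _ => ?_)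
    rw [enorm_mul]
    have h2 : ‖(v x) i‖ₑ ≤ ‖v x‖ₑ := by
      rw [← ofReal_norm, ← ofReal_norm]
      exact ENNReal.ofReal_le_ofReal (PiLp.norm_apply_le (v x) i)
    have h3 : ‖(inner ℝ (w x) (A i x) : ℝ)‖ₑ ≤ ‖w x‖ₑ * ‖A i x‖ₑ := by
      rw [← ofReal_norm, ← ofReal_norm, ← ofReal_norm, ← ENNReal.ofReal_mul (norm_nonneg _)]
      exact ENNReal.ofReal_le_ofReal (norm_inner_le_norm _ _)
    gcongr
  refine (lintegral_mono h1).trans ?_
  rw [lintegral_finsetSum' (f := fun i x => ‖v x‖ₑ * (‖w x‖ₑ * ‖A i x‖ₑ)) _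
    fun i _ => hv.enorm.mul (hw.enorm.mul (hA i).1.enorm)]
  have h2 : ∀ i ∈ (Finset.univ : Finset (Fin 3)),
      ∫⁻ x, ‖v x‖ₑ * (‖w x‖ₑ * ‖A i x‖ₑ) ∂(volume.restrict Ω) ≤
      ENNReal.ofReal (Real.sqrt (gsq Ω A)) *
      (eLpNorm v 4 (volume.restrict Ω) * eLpNorm w 4 (volume.restrict Ω)) := by
    intro i _
    refine (Wq_scalar hv hw (hA i).1).trans ?_
    have h3 : eLpNorm (A i) 2 (volume.restrict Ω) ≤ ENNReal.ofReal (Real.sqrt (gsq Ω A)) := by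
      rw [nm_eq (hA i)]
      exact ENNReal.ofReal_le_ofReal (nm_le_gsq hA i)
    gcongr
  refine (Finset.sum_le_sum h2).trans ?_
  rw [Finset.sum_const, Finset.card_univ, Fintype.card_fin, nsmul_eq_mul, Nat.cast_ofNat,
    ← mul_assoc 3]

theorem Wq_Bf_real {Ω : Set E3} {v w : E3 → E3} {A : Fin 3 → E3 → E3}
    (hv : AEStronglyMeasurable v (volume.restrict Ω))
    (hw : AEStronglyMeasurable w (volume.restrict Ω))
    (hA : ∀ i, MemLp (A i) 2 (volume.restrict Ω))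
    (hv4 : eLpNorm v 4 (volume.restrict Ω) < ⊤) (hw4 : eLpNorm w 4 (volume.restrict Ω) < ⊤) :
    |Bf Ω v A (fun x => v x - w x)| ≤ 3 * Real.sqrt (gsq Ω A) *
      (2 * (eLpNorm v 4 (volume.restrict Ω)).toReal ^ 2 +
        (eLpNorm w 4 (volume.restrict Ω)).toReal ^ 2) := by
  have h1 := Wq_Bf hv (hv.sub hw) hA
  have h2 : eLpNorm (v - w) 4 (volume.restrict Ω) ≤
      eLpNorm v 4 (volume.restrict Ω) + eLpNorm w 4 (volume.restrict Ω) :=
    eLpNorm_sub_le hv hw (by norm_num)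
  have h3 : ‖Bf Ω v A (v - w)‖ₑ ≤ 3 * ENNReal.ofReal (Real.sqrt (gsq Ω A)) *
      (eLpNorm v 4 (volume.restrict Ω) *
        (eLpNorm v 4 (volume.restrict Ω) + eLpNorm w 4 (volume.restrict Ω))) := by
    refine h1.trans ?_
    gcongr
  have h4 : (3 * ENNReal.ofReal (Real.sqrt (gsq Ω A)) *
      (eLpNorm v 4 (volume.restrict Ω) *
        (eLpNorm v 4 (volume.restrict Ω) + eLpNorm w 4 (volume.restrict Ω)))) ≠ ⊤ := by
    refine ENNReal.mul_ne_top (ENNReal.mul_ne_top (by norm_num) ENNReal.ofReal_ne_top) ?_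
    exact ENNReal.mul_ne_top hv4.ne (ENNReal.add_ne_top.2 ⟨hv4.ne, hw4.ne⟩)
  have h5 := ENNReal.toReal_mono h4 h3
  rw [toReal_enorm, Real.norm_eq_abs, ENNReal.toReal_mul, ENNReal.toReal_mul, ENNReal.toReal_mul,
    ENNReal.toReal_add hv4.ne hw4.ne, ENNReal.toReal_ofReal (Real.sqrt_nonneg _)] at h5
  have h6 : (3 : ℝ≥0∞).toReal = 3 := by norm_num
  rw [h6] at h5
  refine h5.trans (mul_le_mul_of_nonneg_left ?_ (by positivity))
  nlinarith [sq_nonneg ((eLpNorm v 4 (volume.restrict Ω)).toReal -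
    (eLpNorm w 4 (volume.restrict Ω)).toReal), sq_nonneg ((eLpNorm v 4 (volume.restrict Ω)).toReal),
    sq_nonneg ((eLpNorm w 4 (volume.restrict Ω)).toReal)]

theorem Wq_zero {T a b : ℝ} {α : ℝ → ℝ} (hα : IntegrableOn α (Icc 0 T)) (h0 : ∀ τ, 0 ≤ α τ)
    (ha : 0 ≤ a) (hab : a < b) (hb : b ≤ T) : ∀ᵐ s ∂(volume.restrict (Icc 0 T)),
      s ∈ Ioo a b → ∫ τ in a..b, α τ = 0 → α s = 0 := by
  by_cases hz : ∫ τ in a..b, α τ = 0
  · rw [intervalIntegral.integral_of_le hab.le,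
      setIntegral_eq_zero_iff_of_nonneg_ae (Eventually.of_forall h0)
      (hα.mono_set fun x hx => ⟨ha.trans hx.1.le, hx.2.trans hb⟩)] at hz
    have h1 := (ae_restrict_iff' measurableSet_Ioc).1 hz
    refine ae_restrict_of_ae ?_
    filter_upwards [h1] with s hs h2 _
    exact hs ⟨h2.1, h2.2.le⟩
  · exact Eventually.of_forall fun s _ h => absurd h hz

theorem Wq_sel {T a b : ℝ} {α β : ℝ → ℝ} (hα : IntegrableOn α (Icc 0 T))
    (hβ : IntegrableOn β (Icc 0 T)) (α0 : ∀ τ, 0 ≤ α τ) (β0 : ∀ τ, 0 ≤ β τ) {S : Set ℝ}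
    (hS : ∀ᵐ s ∂(volume.restrict (Icc 0 T)), s ∈ S) (ha : 0 ≤ a) (hab : a < b) (hb : b ≤ T) :
    ∃ s ∈ Ioo a b, s ∈ S ∧ (b - a) * α s ≤ 2 * ∫ τ in a..b, α τ ∧
      (b - a) * β s ≤ 2 * ∫ τ in a..b, β τ := by
  obtain ⟨I, hI⟩ : ∃ I, I = ∫ τ in a..b, α τ := ⟨_, rfl⟩
  obtain ⟨J, hJ⟩ : ∃ J, J = ∫ τ in a..b, β τ := ⟨_, rfl⟩
  have hI0 : 0 ≤ I := hI ▸ intervalIntegral.integral_nonneg hab.le fun x _ => α0 x
  have hJ0 : 0 ≤ J := hJ ▸ intervalIntegral.integral_nonneg hab.le fun x _ => β0 x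
  have z1 := Wq_zero hα α0 ha hab hb
  have z2 := Wq_zero hβ β0 ha hab hb
  have hint : IntegrableOn (fun τ => α τ * I⁻¹ + β τ * J⁻¹) (Icc 0 T) :=
    (hα.mul_const _).add (hβ.mul_const _)
  obtain ⟨s, hs, hsS, hle⟩ := sel_avg hint
    (S := {s | s ∈ S ∧ (s ∈ Ioo a b → ∫ τ in a..b, α τ = 0 → α s = 0) ∧
      (s ∈ Ioo a b → ∫ τ in a..b, β τ = 0 → β s = 0)}) (by
        filter_upwards [hS, z1, z2] with s h1 h2 h3 using ⟨h1, h2, h3⟩) ha hab hb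
  have e1 : ∫ τ in a..b, (α τ * I⁻¹ + β τ * J⁻¹) = I * I⁻¹ + J * J⁻¹ := by
    rw [intervalIntegral.integral_add ((ii_of hα ha hab.le hb).mul_const _)
      ((ii_of hβ ha hab.le hb).mul_const _), intervalIntegral.integral_mul_const,
      intervalIntegral.integral_mul_const, ← hI, ← hJ]
  have e2 : ∀ x : ℝ, x * x⁻¹ ≤ 1 := fun x => by
    by_cases hx : x = 0
    · simp [hx]
    · rw [mul_inv_cancel₀ hx]
  rw [e1] at hle
  have hba : 0 < b - a := by linarith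
  have k1 : 0 ≤ α s * I⁻¹ := mul_nonneg (α0 s) (inv_nonneg.2 hI0)
  have k2 : 0 ≤ β s * J⁻¹ := mul_nonneg (β0 s) (inv_nonneg.2 hJ0)
  have m1 := e2 I
  have m2 := e2 J
  refine ⟨s, hs, hsS.1, ?_, ?_⟩
  · rw [← hI]
    by_cases hz : I = 0
    · rw [hsS.2.1 hs (hI ▸ hz), hz]
      simp
    · have hIp : 0 < I := lt_of_le_of_ne hI0 (Ne.symm hz)
      have n1 : (b - a) * (α s * I⁻¹) ≤ 2 := by nlinarith
      calc (b - a) * α s = ((b - a) * (α s * I⁻¹)) * I := by field_simp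
        _ ≤ 2 * I := mul_le_mul_of_nonneg_right n1 hI0
  · rw [← hJ]
    by_cases hz : J = 0
    · rw [hsS.2.2 hs (hJ ▸ hz), hz]
      simp
    · have hJp : 0 < J := lt_of_le_of_ne hJ0 (Ne.symm hz)
      have n1 : (b - a) * (β s * J⁻¹) ≤ 2 := by nlinarith
      calc (b - a) * β s = ((b - a) * (β s * J⁻¹)) * J := by field_simp
        _ ≤ 2 * J := mul_le_mul_of_nonneg_right n1 hJ0

theorem wWq (h1 : StIdl) (h2 : StBqi) : StWq := by
  intro Ω ν T u₀ f u G hO hb hν h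
  obtain ⟨K, hK⟩ := h.bound
  obtain ⟨-, hbI, hfin⟩ := h2 Ω ν T u₀ f u G hO hb h
  have hsK : 0 ≤ Real.sqrt K := Real.sqrt_nonneg _
  refine ⟨4 * ν + 2 * Real.sqrt K + 36, by positivity, ?_⟩
  intro t r hr hrt htT
  have hgI : IntegrableOn (fun τ => gsq Ω (G τ)) (Icc 0 T) := h.gsq_int
  have hfI : IntegrableOn (fun τ => fn Ω f τ) (Icc 0 T) := h.nmf_int
  have ha0 : 0 ≤ t - 2 * r := by linarith
  have hg0 : ∀ τ, 0 ≤ gsq Ω (G τ) := fun τ => gsq_nonneg _ _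
  have hf0 : ∀ τ, 0 ≤ fn Ω f τ := fun τ => Real.sqrt_nonneg _
  have hb0 : ∀ τ, 0 ≤ nq Ω u τ ^ 2 := fun τ => sq_nonneg _
  obtain ⟨s, hs, hsm, hsg, hsb⟩ := Wq_sel hgI hbI hg0 hb0
    (S := {s | MemH1s Ω (u s) (G s) ∧ eLpNorm (u s) 4 (volume.restrict Ω) < ⊤})
    (by filter_upwards [h.grad_mem, hfin] with s h1 h2 using ⟨h1, h2⟩) ha0
    (show t - 2 * r < t - r by linarith) (by linarith)
  have hs0 : 0 ≤ s := ha0.trans hs.1.le
  have hst : s < t := by linarith [hs.2]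
  obtain ⟨Dw, hDw⟩ : ∃ Dw, Dw = ∫ τ in (t - 2 * r)..t, gsq Ω (G τ) := ⟨_, rfl⟩
  obtain ⟨B, hB⟩ : ∃ B, B = ∫ τ in (t - 2 * r)..t, nq Ω u τ ^ 2 := ⟨_, rfl⟩
  obtain ⟨Fn, hFn⟩ : ∃ Fn, Fn = ∫ τ in (t - 2 * r)..t, fn Ω f τ := ⟨_, rfl⟩
  have hDw0 : 0 ≤ Dw := hDw ▸ intervalIntegral.integral_nonneg (by linarith) fun x _ => hg0 x
  have hB0 : 0 ≤ B := hB ▸ intervalIntegral.integral_nonneg (by linarith) fun x _ => hb0 x
  have hFn0 : 0 ≤ Fn := hFn ▸ intervalIntegral.integral_nonneg (by linarith) fun x _ => hf0 x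
  refine ⟨s, hs, ?_⟩
  have hsum : ∫ τ in (t - 2 * r)..t, (gradSq Ω (G τ) + fn Ω f τ) = Dw + Fn := by
    rw [hDw, hFn, ← intervalIntegral.integral_add (ii_of hgI ha0 (by linarith) htT)
      (ii_of hfI ha0 (by linarith) htT)]
    rfl
  have hgs : ∫ τ in (t - 2 * r)..t, gradSq Ω (G τ) = Dw := by rw [hDw]; rfl
  show defect Ω ν f u G t ≤ defect Ω ν f u G s + _ * (Real.sqrt ((∫ τ in (t - 2 * r)..t,
    gradSq Ω (G τ)) / r) * (∫ τ in (t - 2 * r)..t, nq Ω u τ ^ 2) +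
      ∫ τ in (t - 2 * r)..t, (gradSq Ω (G τ) + fn Ω f τ))
  rw [hsum, hgs, ← hB]
  -- comparison of windows
  have part : ∀ α : ℝ → ℝ, IntegrableOn α (Icc 0 T) → (∀ τ, 0 ≤ α τ) →
      (∫ τ in (t - 2 * r)..(t - r), α τ) ≤ ∫ τ in (t - 2 * r)..t, α τ := by
    intro α hα h0
    have e1 : (∫ τ in (t - 2 * r)..(t - r), α τ) + (∫ τ in (t - r)..t, α τ) =
        ∫ τ in (t - 2 * r)..t, α τ :=
      intervalIntegral.integral_add_adjacent_intervals
        (ii_of hα ha0 (by linarith) (by linarith)) (ii_of hα (by linarith) (by linarith) htT)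
    have e2 : 0 ≤ ∫ τ in (t - r)..t, α τ :=
      intervalIntegral.integral_nonneg (by linarith) fun x _ => h0 x
    linarith
  have hsg' : r * gsq Ω (G s) ≤ 2 * Dw := by
    have e1 := part _ hgI hg0
    rw [← hDw] at e1
    have e2 : t - r - (t - 2 * r) = r := by ring
    rw [e2] at hsg
    linarith
  have hsb' : r * nq Ω u s ^ 2 ≤ 2 * B := by
    have e1 := part _ hbI hb0
    rw [← hB] at e1
    have e2 : t - r - (t - 2 * r) = r := by ring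
    rw [e2] at hsb
    linarith
  have hbs : (∫ τ in s..t, nq Ω u τ ^ 2) ≤ B := by
    rw [hB]
    exact sel_anti htT hbI hb0 ha0 hs.1.le hst.le
  have hfs : (∫ τ in s..t, fn Ω f τ) ≤ Fn := by
    rw [hFn]
    exact sel_anti htT hfI hf0 ha0 hs.1.le hst.le
  obtain ⟨hBi, hmain⟩ := h1 Ω ν T u₀ f u G hO hb hν h K hK s t hs0 hst.le htT hsm.1
  have hBii : IntervalIntegrable (fun τ => |Bf Ω (u τ) (G s) (fun x => u τ x - u s x)|)
      volume s t := by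
    refine IntervalIntegrable.abs ?_
    rw [intervalIntegrable_iff_integrableOn_Ioo_of_le hst.le]
    exact hBi
  have hBint : ∫ τ in s..t, |Bf Ω (u τ) (G s) (fun x => u τ x - u s x)| ≤
      ∫ τ in s..t, 3 * Real.sqrt (gsq Ω (G s)) * (2 * nq Ω u τ ^ 2 + nq Ω u s ^ 2) := by
    refine intervalIntegral.integral_mono_ae_restrict hst.le hBii
      ((((ii_of hbI hs0 hst.le htT).const_mul 2).add intervalIntegrable_const).const_mul _) ?_
    have hsub : Icc s t ⊆ Icc 0 T := Icc_subset_Icc hs0 htT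
    filter_upwards [ae_restrict_of_ae_restrict_of_subset hsub h.grad_mem,
      ae_restrict_of_ae_restrict_of_subset hsub hfin] with τ m1 m2
    exact Wq_Bf_real m1.1 hsm.1.1 hsm.1.grad_memLp m2 hsm.2
  have hBval : ∫ τ in s..t, 3 * Real.sqrt (gsq Ω (G s)) * (2 * nq Ω u τ ^ 2 + nq Ω u s ^ 2) =
      3 * Real.sqrt (gsq Ω (G s)) * (2 * (∫ τ in s..t, nq Ω u τ ^ 2) +
        (t - s) * nq Ω u s ^ 2) := by
    rw [intervalIntegral.integral_const_mul, intervalIntegral.integral_add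
      ((ii_of hbI hs0 hst.le htT).const_mul 2) intervalIntegrable_const,
      intervalIntegral.integral_const_mul, intervalIntegral.integral_const, smul_eq_mul]
  rw [hBval] at hBint
  -- the size of the gradient at `s`
  have hG2 : Real.sqrt (gsq Ω (G s)) ≤ 2 * Real.sqrt (Dw / r) := by
    have e1 : gsq Ω (G s) ≤ 2 ^ 2 * (Dw / r) := by
      rw [mul_div_assoc', le_div_iff₀ hr]
      linarith
    calc Real.sqrt (gsq Ω (G s)) ≤ Real.sqrt (2 ^ 2 * (Dw / r)) := Real.sqrt_le_sqrt e1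
      _ = 2 * Real.sqrt (Dw / r) := by
          rw [Real.sqrt_mul (by norm_num), Real.sqrt_sq (by norm_num)]
  have hts : t - s ≤ 2 * r := by linarith [hs.1]
  have q1 : (t - s) * nq Ω u s ^ 2 ≤ 4 * B := by
    calc (t - s) * nq Ω u s ^ 2 ≤ 2 * r * nq Ω u s ^ 2 :=
          mul_le_mul_of_nonneg_right hts (hb0 s)
      _ ≤ 4 * B := by linarith
  have q2 : ν * (t - s) * gsq Ω (G s) ≤ 4 * ν * Dw := by
    calc ν * (t - s) * gsq Ω (G s) ≤ ν * (2 * r) * gsq Ω (G s) := by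
          refine mul_le_mul_of_nonneg_right (mul_le_mul_of_nonneg_left hts hν.le) (hg0 s)
      _ = 2 * ν * (r * gsq Ω (G s)) := by ring
      _ ≤ 2 * ν * (2 * Dw) := mul_le_mul_of_nonneg_left hsg' (by positivity)
      _ = _ := by ring
  have q3 : 3 * Real.sqrt (gsq Ω (G s)) * (2 * (∫ τ in s..t, nq Ω u τ ^ 2) +
      (t - s) * nq Ω u s ^ 2) ≤ 36 * (Real.sqrt (Dw / r) * B) := by
    calc _ ≤ 3 * Real.sqrt (gsq Ω (G s)) * (6 * B) :=
          mul_le_mul_of_nonneg_left (by linarith) (by positivity)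
      _ ≤ 3 * (2 * Real.sqrt (Dw / r)) * (6 * B) := by gcongr
      _ = _ := by ring
  have q4 : 2 * Real.sqrt K * (∫ τ in s..t, fn Ω f τ) ≤ 2 * Real.sqrt K * Fn :=
    mul_le_mul_of_nonneg_left hfs (by positivity)
  have q5 : 0 ≤ nm Ω (fun x => u t x - u s x) ^ 2 / 2 := by positivity
  have hX0 : 0 ≤ Real.sqrt (Dw / r) * B := by positivity
  have z1 : 0 ≤ (4 * ν + 2 * Real.sqrt K) * (Real.sqrt (Dw / r) * B) := by positivity
  have z2 : 0 ≤ (2 * Real.sqrt K + 36) * Dw := by positivity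
  have z3 : 0 ≤ (4 * ν + 36) * Fn := by positivity
  nlinarith

end Pool.Agent.Helper83.WC
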