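import Pool.Agent.Helper83.WC.St
import Pool.Agent.Helper7.NT.Tint

/-!
# Project WC: module Yi
-/

set_option autoImplicit false

open MeasureTheory Set Filter Topology
open scoped ENNReal

noncomputable section

namespace Pool.Agent.Helper83.WC

open Pool.Agent.Helper52.NSE (E3 MemH1s IsWeakSolution gradSq kin defect nm gsq
  IsSmoothBoundedDomain gsq_nonneg sq_int)

theorem Yi_pow (x : ℝ) (hx : 0 ≤ x) : x ^ (3 / 2 : ℝ) ≤ 1 + x ^ 2 := by
  rcases le_total x 1 with h | h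
  · have h1 : x ^ (3 / 2 : ℝ) ≤ 1 := Real.rpow_le_one hx h (by norm_num)
    nlinarith [sq_nonneg x]
  · have h1 : x ^ (3 / 2 : ℝ) ≤ x ^ (2 : ℝ) := Real.rpow_le_rpow_of_exponent_le h (by norm_num)
    rw [Real.rpow_two] at h1
    linarith

theorem wYi : StYi := by
  intro Ω ν T u₀ f u G hO hbd h s t G0 hs hst htT hG0
  have hsI : s ∈ Icc 0 T := ⟨hs, by linarith⟩
  obtain ⟨K, hK⟩ := h.bound
  have hK0 : 0 ≤ K := le_trans (integral_nonneg fun x => by positivity) (hK s hsI)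
  have hsub : Ioo s t ⊆ Icc 0 T := fun τ hτ => ⟨by linarith [hτ.1], by linarith [hτ.2]⟩
  have hu : ∀ τ ∈ Icc 0 T, MemLp (u τ) 2 (volume.restrict Ω) := fun τ hτ => (h.mem τ hτ).memLp
  -- the bound of the difference
  have hw : ∀ τ ∈ Icc 0 T, nm Ω (fun x => u τ x - u s x) ≤ Real.sqrt (4 * K) := by
    intro τ hτ
    unfold nm
    refine Real.sqrt_le_sqrt ?_
    have i1 := sq_int (hu τ hτ)
    have i2 := sq_int (hu s hsI)
    have i3 := sq_int ((hu τ hτ).sub (hu s hsI))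
    calc ∫ x in Ω, ‖u τ x - u s x‖ ^ 2
        ≤ ∫ x in Ω, (2 * ‖u τ x‖ ^ 2 + 2 * ‖u s x‖ ^ 2) := by
          refine integral_mono i3 ((i1.const_mul 2).add (i2.const_mul 2)) fun x => ?_
          have h1 : ‖u τ x - u s x‖ ≤ ‖u τ x‖ + ‖u s x‖ := norm_sub_le _ _
          have h2 : 0 ≤ ‖u τ x - u s x‖ := norm_nonneg _
          simp only
          nlinarith [sq_nonneg (‖u τ x‖ - ‖u s x‖)]
      _ = 2 * (∫ x in Ω, ‖u τ x‖ ^ 2) + 2 * ∫ x in Ω, ‖u s x‖ ^ 2 := by
          rw [integral_add (i1.const_mul 2) (i2.const_mul 2), integral_const_mul,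
            integral_const_mul]
      _ ≤ 4 * K := by
          have := hK τ hτ
          have := hK s hsI
          linarith
  -- measurability
  have m1 : AEStronglyMeasurable (fun τ => ∫ x in Ω, ‖u τ x - u s x‖ ^ 2)
      (volume.restrict (Icc 0 T)) := by
    have h1 : AEStronglyMeasurable (fun q : ℝ × E3 => ‖u q.1 q.2 - u s q.2‖ ^ 2)
        ((volume.restrict (Icc 0 T)).prod (volume.restrict Ω)) :=
      (h.meas.sub (hu s hsI).1.comp_snd).norm.pow 2
    exact h1.integral_prod_right'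
  have m2 : AEStronglyMeasurable (fun τ => Real.sqrt (nm Ω (fun x => u τ x - u s x)))
      (volume.restrict (Icc 0 T)) := by
    unfold nm
    exact Real.continuous_sqrt.comp_aestronglyMeasurable
      (Real.continuous_sqrt.comp_aestronglyMeasurable m1)
  have hgi : IntegrableOn (fun τ => gsq Ω (G τ)) (Icc 0 T) := h.gsq_int
  have m3 : AEStronglyMeasurable (fun τ => (Real.sqrt (gsq Ω (G τ)) + G0) ^ (3 / 2 : ℝ))
      (volume.restrict (Icc 0 T)) := by
    have h1 : AEStronglyMeasurable (fun τ => Real.sqrt (gsq Ω (G τ)) + G0)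
        (volume.restrict (Icc 0 T)) :=
      (Real.continuous_sqrt.comp_aestronglyMeasurable hgi.1).add aestronglyMeasurable_const
    exact (Real.continuous_rpow_const (by norm_num : (0 : ℝ) ≤ 3 / 2)).comp_aestronglyMeasurable h1
  have hc : IntegrableOn (fun _ => (1 + 2 * G0 ^ 2 : ℝ)) (Icc 0 T) := by
    rw [integrableOn_const_iff]
    right
    exact measure_Icc_lt_top
  have hmaj : IntegrableOn (fun τ => Real.sqrt (Real.sqrt (4 * K)) *
      ((1 + 2 * G0 ^ 2) + 2 * gsq Ω (G τ))) (Icc 0 T) :=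
    (hc.add (hgi.const_mul 2)).const_mul _
  have key : IntegrableOn (fun τ => Real.sqrt (nm Ω (fun x => u τ x - u s x)) *
        (Real.sqrt (gsq Ω (G τ)) + G0) ^ (3 / 2 : ℝ)) (Icc 0 T) := by
    refine Integrable.mono' hmaj (m2.mul m3) ?_
    refine (ae_restrict_iff' measurableSet_Icc).mpr (Eventually.of_forall fun τ hτ => ?_)
    have g0 : 0 ≤ gsq Ω (G τ) := gsq_nonneg Ω (G τ)
    have g1 : 0 ≤ Real.sqrt (gsq Ω (G τ)) := Real.sqrt_nonneg _
    have g2 : Real.sqrt (gsq Ω (G τ)) ^ 2 = gsq Ω (G τ) := Real.sq_sqrt g0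
    have g3 : 0 ≤ (Real.sqrt (gsq Ω (G τ)) + G0) ^ (3 / 2 : ℝ) :=
      Real.rpow_nonneg (by linarith) _
    rw [Real.norm_eq_abs, abs_of_nonneg (mul_nonneg (Real.sqrt_nonneg _) g3)]
    refine mul_le_mul (Real.sqrt_le_sqrt (hw τ hτ)) ?_ g3 (Real.sqrt_nonneg _)
    refine (Yi_pow _ (by linarith)).trans ?_
    nlinarith [sq_nonneg (Real.sqrt (gsq Ω (G τ)) - G0)]
  exact key.mono_set hsub

end Pool.Agent.Helper83.WC
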