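import Pool.Agent.Helper83.CR.All
import Pool.Agent.Helper83.WC.M_Tri
import Pool.Agent.Helper83.WC.M_Yi
import Pool.Agent.Helper83.WC.M_Idl
import Pool.Agent.Helper83.WC.M_Int
import Pool.Agent.Helper83.WC.M_Alg
import Pool.Agent.Helper83.WC.M_KK
import Pool.Agent.Helper83.WC.M_WkA
import Pool.Agent.Helper83.WC.M_Mx
import Pool.Agent.Helper83.WC.M_Sing
import Pool.Agent.Helper83.WC.M_Cnt
import Pool.Agent.Helper83.WC.M_Cel
import Pool.Agent.Helper83.WC.M_Ovl
import Pool.Agent.Helper83.WC.M_Loc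
import Pool.Agent.Helper83.WC.M_Bqi
import Pool.Agent.Helper83.WC.M_Inp
import Pool.Agent.Helper83.WC.M_Lyr
import Pool.Agent.Helper83.WC.M_Wq
import Pool.Agent.Helper83.WC.M_Celq
import Pool.Agent.Helper83.WC.M_Den
import Pool.Agent.Helper83.WC.M_Stp
import Pool.Agent.Helper83.WC.M_Abs
import Pool.Agent.Helper83.WC.M_Vit
import Pool.Agent.Helper83.WC.M_RVp
import Pool.Agent.Helper83.WC.M_Finp

/-! # Project WC: assembly -/

set_option autoImplicit false

open MeasureTheory Set Filter Topology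
open scoped ENNReal

noncomputable section

namespace Pool.Agent.Helper83.WC

open Pool.Agent.Helper52.NSE (E3 IsWeakSolution IsSmoothBoundedDomain defect)
open Pool.Agent.Helper7.NU (TypeISup)
open Pool.Agent.Helper83.CR (DissipationCritical noLoss_of_dissipationCritical)

theorem pInt : StInt := wInt wTri wYi wIdl
theorem pKK : StKK := wKK pInt wAlg
theorem pSing : StSing := wSing wMx
theorem pLoc : StLoc := wLoc wMx wCnt (wCel wMx) wOvl
theorem pWq : StWq := wWq wIdl wBqi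
theorem pVit : StVit := wVit wMx (wCelq wMx) wDen wStp wAbs
theorem pRVp : StRVp := wRVp wMx pSing pLoc pVit
theorem pFinp : StFinp := wFinp pKK wWkA pWq wBqi wInp wLyr pRVp

/-- the energy equality under the local conditions -/
theorem all_main {Ω : Set E3} {ν T : ℝ} {u₀ : E3 → E3} {f u : ℝ → E3 → E3}
    {G : ℝ → Fin 3 → E3 → E3} (hΩ : IsSmoothBoundedDomain Ω) (hν : 0 < ν)
    (h : IsWeakSolution Ω ν T u₀ f u G) {C : Set ℝ} (hC : C.Countable)
    (hI : ∀ t ∈ Ioc 0 T, TypeISup Ω u G t ∨ WeakGradient Ω G t ∨ WeakLions Ω u t ∨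
      (t ∈ C ∧ DissipationCritical Ω G t)) : ∀ t ∈ Icc 0 T, defect Ω ν f u G t = 0 :=
  pFinp Ω ν T u₀ f u G hΩ.isOpen hΩ.bdd hν h
    (fun _ ht hc => noLoss_of_dissipationCritical hΩ hν h ht hc) C hC hI

end Pool.Agent.Helper83.WC
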