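import Pool.Agent.Helper83.CR.Defs

/-!
# Project WC (MP_a38b17_an): definitions

The energy equality holds for Leray-Hopf solutions with `∇u ∈ L^{5/2,∞}(0, T; L²)` (weak Lebesgue
space in time, the critical endpoint).
-/

set_option autoImplicit false

open MeasureTheory Set Filter Topology
open scoped ENNReal

noncomputable section

namespace Pool.Agent.Helper83.WC

open Pool.Agent.Helper52.NSE (E3 gradSq)

/-- `‖∇u‖` belongs to the weak Lebesgue space `L^{5/2,∞}` on a left neighbourhood of `t`: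
`|{s ∈ (t - δ, t) : ‖∇u(s)‖ > l}| ≤ C l^(-5/2)` for all `l > 0`. -/
def WeakGradient (Ω : Set E3) (G : ℝ → Fin 3 → E3 → E3) (t : ℝ) : Prop :=
  ∃ C δ : ℝ, 0 < δ ∧ ∀ l : ℝ, 0 < l →
    volume {s | s ∈ Ioo (t - δ) t ∧ 0 ≤ s ∧ l < Real.sqrt (gradSq Ω (G s))} ≤
      ENNReal.ofReal (C * l ^ (-(5 / 2) : ℝ))

/-- the running maximum -/
def Mx (D : ℝ → ℝ) (t : ℝ) : ℝ := sSup (D '' Icc 0 t)

/-- upper semicontinuity on `[0, T]` -/
def Usc (T : ℝ) (D : ℝ → ℝ) : Prop :=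
  ∀ x ∈ Icc 0 T, ∀ η : ℝ, 0 < η → ∀ᶠ t in 𝓝[Icc 0 T] x, D t ≤ D x + η

/-- no jumps upwards from the left -/
def NoJump (T : ℝ) (D : ℝ → ℝ) : Prop :=
  ∀ t ∈ Ioc 0 T, ∀ η δ : ℝ, 0 < η → 0 < δ → ∃ s ∈ Ioo (t - δ) t, 0 ≤ s ∧ D t ≤ D s + η

/-- the left difference quotients have a nonpositive lower limit almost everywhere -/
def AeZero (T : ℝ) (D : ℝ → ℝ) : Prop :=
  ∀ᵐ t ∂(volume.restrict (Icc 0 T)), ∀ η δ : ℝ, 0 < η → 0 < δ →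
    ∃ s ∈ Ioo (t - δ) t, 0 ≤ s ∧ D t ≤ D s + η * (t - s)

/-- the inequality for the increase of `D` on a window of length `2 r` -/
def Win (T : ℝ) (D g F : ℝ → ℝ) (A : ℝ) : Prop :=
  ∀ t r : ℝ, 0 < r → 2 * r ≤ t → t ≤ T → ∃ s ∈ Ioo (t - 2 * r) (t - r),
    D t ≤ D s + A * ((∫ τ in (t - 2 * r)..t, g τ) ^ (5 / 3 : ℝ) * r ^ (-(1 / 3) : ℝ) +
      ∫ τ in (t - 2 * r)..t, F τ)

/-- `√g ∈ L^{5/2,∞}(p, q)`, in terms of integrals over measurable sets -/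
def WL (T : ℝ) (g : ℝ → ℝ) (L p q : ℝ) : Prop :=
  ∀ E : Set ℝ, MeasurableSet E → E ⊆ Ioo p q ∩ Icc 0 T →
    ∫ τ in E, g τ ≤ L * (volume E).toReal ^ (1 / 5 : ℝ)

/-- the measure `d(Mx D)` on `[0, T]`; it is carried by a Lebesgue null set -/
structure Sing (T : ℝ) (D : ℝ → ℝ) (μ : Measure ℝ) (Z : Set ℝ) : Prop where
  fin : IsFiniteMeasure μ
  ioc : ∀ a b : ℝ, 0 ≤ a → a ≤ b → b ≤ T → μ (Ioc a b) = ENNReal.ofReal (Mx D b - Mx D a)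
  atom : ∀ x, μ {x} = 0
  meas : MeasurableSet Z
  null : volume Z = 0
  compl : μ Zᶜ = 0

end Pool.Agent.Helper83.WC
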