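import Pool.Agent.Helper83.WC.St

/-!
# Project WC, module RV: the real-variable theorem
-/

set_option autoImplicit false

open MeasureTheory Set Filter Topology
open scoped ENNReal

namespace Pool.Agent.Helper83.WC

theorem wRV (hMx : StMx) (hSing : StSing) (hLoc : StLoc) : StRV := by
  intro T D g F A C hT hU hJ hZ hg hF hgi hFi hA hW hC hWL
  obtain ⟨μ, Z, hS⟩ := hSing T D hT hU hJ hZ
  obtain ⟨-, hmono, hle, h0, -⟩ := hMx T D hT hU hJ
  have : NullSingletonClass μ := ⟨hS.atom⟩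
  choose! L δ hL using hWL
  -- the intervals
  set I : ℝ → Set ℝ := fun t => Ioo (max (t - δ t) 0) t with hI
  set P : Set ℝ := Ioc 0 T \ C with hP
  have hIne : ∀ t ∈ P, max (t - δ t) 0 < t := by
    intro t ht
    have h1 := hL t ht.1 ht.2
    exact max_lt (by linarith [h1.2.1]) ht.1.1
  have hI0 : ∀ t ∈ P, μ (I t) = 0 := by
    intro t ht
    have h1 := hL t ht.1 ht.2
    refine hLoc T D g F A (L t) (max (t - δ t) 0) t μ Z hT hU hJ hg hF hgi hFi hA hW h1.1
      (le_max_right _ _) (hIne t ht) ht.1.2 ?_ hS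
    intro E hE hEs
    refine h1.2.2 E hE fun x hx => ?_
    have h2 := hEs hx
    exact ⟨⟨lt_of_le_of_lt (le_max_left _ _) h2.1.1, h2.1.2⟩, h2.2⟩
  have hIo : ∀ t ∈ P, IsOpen (I t) := fun t _ => isOpen_Ioo
  obtain ⟨Q, hQP, hQc, hQU⟩ := TopologicalSpace.isOpen_biUnion_countable P I hIo
  have hU0 : μ (⋃ t ∈ P, I t) = 0 := by
    rw [← hQU, measure_biUnion_null_iff hQc]
    exact fun t ht => hI0 t (hQP ht)
  -- the remaining points
  have hcnt : (P \ ⋃ t ∈ P, I t).Countable := by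
    have hdis : (P \ ⋃ t ∈ P, I t).PairwiseDisjoint I := by
      have key : ∀ t₁ ∈ P \ ⋃ t ∈ P, I t, ∀ t₂ ∈ P \ ⋃ t ∈ P, I t, t₁ < t₂ →
          Disjoint (I t₁) (I t₂) := by
        intro t₁ h₁ t₂ h₂ hlt
        have h3 : t₁ ≤ max (t₂ - δ t₂) 0 := by
          by_contra hcon
          push Not at hcon
          exact h₁.2 (mem_biUnion h₂.1 ⟨hcon, hlt⟩)
        rw [Set.disjoint_left]
        intro x hx hx'
        exact absurd (hx.2.trans_le (h3.trans hx'.1.le)) (lt_irrefl _)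
      intro t₁ h₁ t₂ h₂ hne
      rcases lt_or_gt_of_ne hne with h | h
      · exact key t₁ h₁ t₂ h₂ h
      · exact (key t₂ h₂ t₁ h₁ h).symm
    refine hdis.countable_of_isOpen (fun t ht => hIo t ht.1) fun t ht => ?_
    exact nonempty_Ioo.2 (hIne t ht.1)
  have hmu : μ (Ioc 0 T) = 0 := by
    have hsub : Ioc 0 T ⊆ C ∪ ((⋃ t ∈ P, I t) ∪ (P \ ⋃ t ∈ P, I t)) := by
      intro x hx
      by_cases h1 : x ∈ C
      · exact Or.inl h1
      · by_cases h2 : x ∈ ⋃ t ∈ P, I t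
        · exact Or.inr (Or.inl h2)
        · exact Or.inr (Or.inr ⟨⟨hx, h1⟩, h2⟩)
    refine measure_mono_null hsub ?_
    rw [measure_union_null_iff, measure_union_null_iff]
    exact ⟨hC.measure_zero μ, hU0, hcnt.measure_zero μ⟩
  rw [hS.ioc 0 T le_rfl hT.le le_rfl, ENNReal.ofReal_eq_zero] at hmu
  intro t ht
  have h1 := hle t ht
  have h2 := hmono ht (right_mem_Icc.2 hT.le) ht.2
  linarith

end Pool.Agent.Helper83.WC
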