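import Pool.Agent.Helper83.WC.Defs

/-!
# Project WC (MP_a38b17_an): the statements of the modules, with their proofs in words

Every `StXyz` is a proposition; a module proves `theorem wXyz (h₁ : StA) … : StXyz` in the file
`Pool/Agent/Helper83/WC/M_Xyz.lean`, namespace `Pool.Agent.Helper83.WC`. Base: `Helper52/NSE`
(`nm`, `gsq`, `defect`, `cs`, `inner_int`, `IsWeakSolution.usc`), `Helper7/NT` (`Bf`, `gp`, `gp_le`,
`memH1s_sub`, `Bf_sub_right`, `Bf_sub_mid`, `Bf_self`, `Bf_le_q`, `sobolev`, `ael_six`, `identity`,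
`ae_left`, `noLoss_left`, `sel_avg`, `sel_ii`, `Bf_time`, `gp_time`, `pair_time`).
-/

set_option autoImplicit false

open MeasureTheory Set Filter Topology
open scoped ENNReal

noncomputable section

namespace Pool.Agent.Helper83.WC

open Pool.Agent.Helper52.NSE (E3 MemH1s IsWeakSolution gradSq kin defect nm gsq
  IsSmoothBoundedDomain)
open Pool.Agent.Helper7.NT (Bf gp NoLoss)
open Pool.Agent.Helper60.EC (fn)
open Pool.Agent.Helper83.CR (DissipationCritical)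

/-- **Tri** (200 lines). The flux with a reference field `b`. Proof. Put `w = v - b`, `W = V - B`,
`z = a - b`, `Z = A - B` (`memH1s_sub`), so `v - a = w - z`, `A = B + Z`. With `Bf_self`
(`Bf v Z z = 0`): `Bf v A (v - a) = Bf v B (w - z) + Bf v Z w` and
`Bf v B (w - z) = Bf b B w - Bf b B z + Bf w B w - Bf w B z`, `Bf v Z w = Bf b Z w + Bf w Z w`.
Interpolation (`Bf_le_q` with `q = 6`, `q = 4`, and `‖w‖₄ ≤ ‖w‖₂^{1/4} ‖w‖₆^{3/4}`, Sobolev):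
`|Bf b X w| ≤ C ‖∇b‖ ‖X‖ ‖w‖^{1/2} ‖∇w‖^{1/2}`,
`|Bf w X z| ≤ C ‖X‖ ‖w‖^{1/4} ‖∇w‖^{3/4} ‖z‖^{1/4} ‖∇z‖^{3/4}
≤ C ‖X‖ (‖w‖^{1/2} ‖∇w‖^{3/2} + ‖z‖^{1/2} ‖∇z‖^{3/2})`. Let `Γa = √gsq A + G0`,
`Γv = √gsq V + G0`; then `‖∇b‖, ‖B‖ ≤ G0 ≤ Γa, Γv`, `‖∇w‖ ≤ Γv`, `‖∇z‖, ‖Z‖ ≤ Γa`, and every term is
at most `C Γa ‖w‖^{1/2} Γv^{3/2}` or `C G0 ‖z‖^{1/2} Γa^{3/2}`. -/
def StTri : Prop :=
  ∀ Ω : Set E3, IsOpen Ω → Bornology.IsBounded Ω → ∃ C : ℝ, 0 < C ∧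
    ∀ (b v a : E3 → E3) (B V A : Fin 3 → E3 → E3) (G0 : ℝ), MemH1s Ω b B → MemH1s Ω v V →
      MemH1s Ω a A → Real.sqrt (gsq Ω B) ≤ G0 →
      |Bf Ω v A (fun x => v x - a x)| ≤
        C * ((Real.sqrt (gsq Ω A) + G0) * Real.sqrt (nm Ω (fun x => v x - b x)) *
            (Real.sqrt (gsq Ω V) + G0) ^ (3 / 2 : ℝ) +
          G0 * Real.sqrt (nm Ω (fun x => a x - b x)) *
            (Real.sqrt (gsq Ω A) + G0) ^ (3 / 2 : ℝ))

/-- **Yi** (80 lines). Integrability on `[0, T]` of `√w Γ^{3/2}`. Proof. `‖u τ - u s‖` is bounded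
(`IsWeakSolution`: bounded kinetic energy) and, as a function of `τ`, measurable (`Helper7` files),
`√gsq (G τ)` is square integrable, so `Γ^{3/2} ≤ 1 + Γ²` is integrable. -/
def StYi : Prop :=
  ∀ (Ω : Set E3) (ν T : ℝ) (u₀ : E3 → E3) (f u : ℝ → E3 → E3) (G : ℝ → Fin 3 → E3 → E3),
    IsOpen Ω → Bornology.IsBounded Ω → IsWeakSolution Ω ν T u₀ f u G → ∀ s t G0 : ℝ, 0 ≤ s →
      s < t → t ≤ T → 0 ≤ G0 →
      IntegrableOn (fun τ => Real.sqrt (nm Ω (fun x => u τ x - u s x)) *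
        (Real.sqrt (gsq Ω (G τ)) + G0) ^ (3 / 2 : ℝ)) (Ioo s t)

/-- **Idl** (100 lines). The energy identity as an inequality. Proof. `identity` (Helper7/NT), with
`-ν gsq (G τ) + ν gp (G τ) (G σ) ≤ ν gsq (G σ)` (`gp_le`) and
`|∫ f · (u τ - u σ)| ≤ fn τ ‖u τ - u σ‖ ≤ 2 √K fn τ` for almost every `τ`. Integrability of the term
with `Bf`: it is measurable (`Bf_time`) and `|Bf (u τ) (G σ) w| ≤ C √gsq (G σ) ‖∇u τ‖ ‖w‖^{1/2} ‖∇w‖^{1/2}`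
(`Bf_le_q` with `q = 6`), `w = u τ - u σ`, which is at most a constant times `1 + gsq (G τ)`. -/
def StIdl : Prop :=
  ∀ (Ω : Set E3) (ν T : ℝ) (u₀ : E3 → E3) (f u : ℝ → E3 → E3) (G : ℝ → Fin 3 → E3 → E3),
    IsOpen Ω → Bornology.IsBounded Ω → 0 < ν → IsWeakSolution Ω ν T u₀ f u G → ∀ K : ℝ,
      (∀ t ∈ Icc 0 T, ∫ x in Ω, ‖u t x‖ ^ 2 ≤ K) → ∀ σ t : ℝ, 0 ≤ σ → σ ≤ t → t ≤ T →
      MemH1s Ω (u σ) (G σ) →
      IntegrableOn (fun τ => Bf Ω (u τ) (G σ) (fun x => u τ x - u σ x)) (Ioo σ t) ∧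
      defect Ω ν f u G t - defect Ω ν f u G σ + nm Ω (fun x => u t x - u σ x) ^ 2 / 2 ≤
        ν * (t - σ) * gsq Ω (G σ) + 2 * Real.sqrt K * (∫ τ in σ..t, fn Ω f τ) +
          ∫ τ in σ..t, |Bf Ω (u τ) (G σ) (fun x => u τ x - u σ x)|

/-- **Int** (150 lines, from `StTri`, `StYi`, `StIdl`). The two consequences of the energy identity on
`(s, t)`. Let `w(τ) = ‖u τ - u s‖`, `Γ(τ) = √gsq (G τ) + G0`, `Y = ∫_s^t √w Γ^{3/2}`. Proof.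
(1) `StIdl` with `σ = s`, and `StTri` with `b = a = u s` (the first factor is at most `2 G0`, the
second term is `0`) gives `∫_s^t |Bf| ≤ 2 C G0 Y`. (2) `StIdl` on `(s, σ)` and on `(σ, t)`:
`½ w(σ)² ≤ (D s - D σ) + R₁`, `D s - D σ = (D s - D t) + (D t - D σ) ≤ R₂` as `D s ≤ D t`, where
`R₁ ≤ ν (t - s) G0² + 2 √K F + 2 C G0 Y` as in (1) and
`R₂ ≤ ν (t - s) gsq (G σ) + 2 √K F + ∫_σ^t |Bf (u τ) (G σ) (u τ - u σ)|`; by `StTri` with `b = u s`,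
`a = u σ`, `v = u τ` the last integral is at most `C (Γ(σ) Y + (t - s) G0 √(w σ) Γ(σ)^{3/2})`; and
`G0 ≤ Γ(σ)`. (`fn` is nonnegative and integrable.) -/
def StInt : Prop :=
  ∀ (Ω : Set E3) (ν T : ℝ) (u₀ : E3 → E3) (f u : ℝ → E3 → E3) (G : ℝ → Fin 3 → E3 → E3),
    IsOpen Ω → Bornology.IsBounded Ω → 0 < ν → IsWeakSolution Ω ν T u₀ f u G → ∀ K : ℝ,
      (∀ t ∈ Icc 0 T, ∫ x in Ω, ‖u t x‖ ^ 2 ≤ K) →
    ∃ C : ℝ, 0 < C ∧ ∀ s t G0 : ℝ, 0 ≤ s → s < t → t ≤ T → MemH1s Ω (u s) (G s) →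
      Real.sqrt (gsq Ω (G s)) ≤ G0 →
      IntegrableOn (fun τ => Real.sqrt (nm Ω (fun x => u τ x - u s x)) *
          (Real.sqrt (gsq Ω (G τ)) + G0) ^ (3 / 2 : ℝ)) (Ioo s t) ∧
      defect Ω ν f u G t - defect Ω ν f u G s ≤ ν * G0 ^ 2 * (t - s) +
        2 * Real.sqrt K * (∫ τ in s..t, fn Ω f τ) +
        C * G0 * (∫ τ in s..t, Real.sqrt (nm Ω (fun x => u τ x - u s x)) *
          (Real.sqrt (gsq Ω (G τ)) + G0) ^ (3 / 2 : ℝ)) ∧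
      (defect Ω ν f u G s ≤ defect Ω ν f u G t → ∀ σ ∈ Ioo s t, MemH1s Ω (u σ) (G σ) →
        nm Ω (fun x => u σ x - u s x) ^ 2 ≤
          C * (ν * (t - s) * (Real.sqrt (gsq Ω (G σ)) + G0) ^ 2 +
            2 * Real.sqrt K * (∫ τ in s..t, fn Ω f τ) +
            (Real.sqrt (gsq Ω (G σ)) + G0) *
              (∫ τ in s..t, Real.sqrt (nm Ω (fun x => u τ x - u s x)) *
                (Real.sqrt (gsq Ω (G τ)) + G0) ^ (3 / 2 : ℝ)) +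
            (t - s) * G0 * Real.sqrt (nm Ω (fun x => u σ x - u s x)) *
              (Real.sqrt (gsq Ω (G σ)) + G0) ^ (3 / 2 : ℝ)))

/-- **Alg** (150 lines). The real-variable part of the window inequality. Proof. Young:
`C r G0 √w Γ^{3/2} ≤ ½ w² + C' (r G0)^{4/3} Γ²`, so
`w² ≤ C' (ν r Γ² + F + Γ Y + (r G0)^{4/3} Γ²)` and
`√w ≤ C'' ((ν r)^{1/4} Γ^{1/2} + F^{1/4} + (Γ Y)^{1/4} + (r G0)^{1/3} Γ^{1/2})` almost everywhere.
Multiply by `Γ^{3/2}` and integrate, with `∫_s^t Γ^p ≤ C r G0^p` for `0 ≤ p ≤ 2` (Hölder,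
`∫_s^t Γ² ≤ 6 r G0²`, `t - s ≤ 2 r`):
`Y ≤ C ((ν r)^{1/4} r G0² + F^{1/4} r G0^{3/2} + Y^{1/4} r G0^{7/4} + (r G0)^{1/3} r G0²)`. Multiply
by `G0` and put `P = G0 Y`, `X = r^{4/3} G0^{10/3}` (so `r G0^{5/2} = X^{3/4}`), `n = ν r G0²`:
`P ≤ C ((n^{1/4} + F^{1/4} + P^{1/4}) X^{3/4} + X) ≤ C' (n + F + X) + ½ P` by Young. -/
def StAlg : Prop :=
  ∀ C ν : ℝ, 0 < C → 0 < ν → ∃ C' : ℝ, 0 < C' ∧ ∀ (s t r G0 F : ℝ) (w Γ : ℝ → ℝ), 0 < r →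
    s < t → t - s ≤ 2 * r → 0 ≤ G0 → 0 ≤ F → (∀ τ, 0 ≤ w τ) → (∀ τ, G0 ≤ Γ τ) →
    IntegrableOn (fun τ => Γ τ ^ 2) (Ioo s t) → ∫ τ in s..t, Γ τ ^ 2 ≤ 6 * r * G0 ^ 2 →
    IntegrableOn (fun τ => Real.sqrt (w τ) * Γ τ ^ (3 / 2 : ℝ)) (Ioo s t) →
    (∀ᵐ σ ∂(volume.restrict (Ioo s t)), w σ ^ 2 ≤ C * (ν * (t - s) * Γ σ ^ 2 + F +
      Γ σ * (∫ τ in s..t, Real.sqrt (w τ) * Γ τ ^ (3 / 2 : ℝ)) +
      (t - s) * G0 * Real.sqrt (w σ) * Γ σ ^ (3 / 2 : ℝ))) →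
    G0 * (∫ τ in s..t, Real.sqrt (w τ) * Γ τ ^ (3 / 2 : ℝ)) ≤
      C' * (r * G0 ^ 2 + F + r ^ (4 / 3 : ℝ) * G0 ^ (10 / 3 : ℝ))

/-- **KK** (150 lines, from `StInt`, `StAlg`). The window inequality for the energy defect. Proof. Let
`Dw = ∫_{t-2r}^t gradSq`, `G0 = √(Dw / r)`. By `sel_avg` there is `s ∈ (t - 2r, t - r)` with
`MemH1s Ω (u s) (G s)` and `r gsq (G s) ≤ ∫_{t-2r}^{t-r} gsq ≤ Dw`, so `√gsq (G s) ≤ G0`. If
`D t ≤ D s` there is nothing to prove. Otherwise `StInt`, and `StAlg` with `w(τ) = ‖u τ - u s‖`,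
`Γ(τ) = √gsq (G τ) + G0`, `F = 2 √K ∫_s^t fn`: `∫ Γ² ≤ 2 Dw + 2 · 2r G0² = 6 r G0²`. Finally
`r G0² = Dw` and `r^{4/3} G0^{10/3} = Dw^{5/3} r^{-1/3}`. -/
def StKK : Prop :=
  ∀ (Ω : Set E3) (ν T : ℝ) (u₀ : E3 → E3) (f u : ℝ → E3 → E3) (G : ℝ → Fin 3 → E3 → E3),
    IsOpen Ω → Bornology.IsBounded Ω → 0 < ν → IsWeakSolution Ω ν T u₀ f u G →
      ∃ A : ℝ, 0 < A ∧ Win T (defect Ω ν f u G) (fun τ => gradSq Ω (G τ))
        (fun τ => gradSq Ω (G τ) + fn Ω f τ) A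

/-- **WkA** (150 lines). From the distribution function to integrals over sets. Proof. With
`g = gradSq`, `E ⊆ (t - δ, t) ∩ [0, T]`, `m = |E| > 0`, `l₀ = m^{-2/5}`: the layer cake formula
`∫_E g = ∫_0^∞ 2 l |E ∩ {√g > l}| dl ≤ m l₀² + ∫_{l₀}^∞ 2 C l^{-3/2} dl = m l₀² + 4 C l₀^{-1/2} =
(1 + 4 C) m^{1/5}` (`C` may be assumed positive). In particular `∫_s^t g ≤ L (t - s)^{1/5}` for all
`s ∈ (t - δ, t)`, `0 ≤ s`, which gives `DissipationCritical`. -/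
def StWkA : Prop :=
  ∀ (Ω : Set E3) (ν T : ℝ) (u₀ : E3 → E3) (f u : ℝ → E3 → E3) (G : ℝ → Fin 3 → E3 → E3),
    IsWeakSolution Ω ν T u₀ f u G → ∀ t ∈ Ioc 0 T, WeakGradient Ω G t →
      (∃ L δ : ℝ, 0 ≤ L ∧ 0 < δ ∧ WL T (fun τ => gradSq Ω (G τ)) L (t - δ) t) ∧
        DissipationCritical Ω G t

/-- **Mx** (150 lines). The running maximum. Proof. An upper semicontinuous function on a compact
interval is bounded above and attains its supremum. Monotonicity is clear. Continuity from the right: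
upper semicontinuity of `D` at `t` and `D ≤ Mx D` before. Continuity from the left at `t`: if
`Mx D t > sup_{s<t} Mx D s` then `D t = Mx D t` exceeds all `D s`, `s < t`, by a fixed amount,
against `NoJump`. Last claim: let `t` be a point of `[0, b]` with `D t = Mx D b`; `t > a` since
`Mx D a < Mx D b`. -/
def StMx : Prop :=
  ∀ (T : ℝ) (D : ℝ → ℝ), 0 < T → Usc T D → NoJump T D →
    ContinuousOn (Mx D) (Icc 0 T) ∧ MonotoneOn (Mx D) (Icc 0 T) ∧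
    (∀ t ∈ Icc 0 T, D t ≤ Mx D t) ∧ Mx D 0 = D 0 ∧
    ∀ a b : ℝ, 0 ≤ a → a < b → b ≤ T → Mx D a < Mx D b →
      ∃ t ∈ Ioc a b, D t = Mx D b ∧ Mx D t = Mx D b

/-- **Sing** (200 lines, from `StMx`). The Stieltjes measure of `Mx D` is singular. Proof. Extend
`m(t) = Mx D (max 0 (min t T))`, monotone and continuous on `ℝ`; `μ` is its Stieltjes measure, finite
and without atoms. For almost every `t ∈ (0, T)` the derivative `m'(t) ≥ 0` exists. Suppose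
`m'(t) > 0` and `AeZero` holds at `t`. Then `Mx D s < Mx D t` for all `s < t`, so (last claim of
`StMx` with `b = t`, `a ↑ t`, and upper semicontinuity; or directly) `D t = Mx D t`. For `η > 0` there
are `s → t-` with `Mx D t - Mx D s ≤ D t - D s ≤ η (t - s)`; so `m'(t) ≤ η`, a contradiction for
small `η`. Hence `m' = 0` almost everywhere, the Radon-Nikodym derivative of `μ` vanishes
(`StieltjesFunction.ae_hasDerivAt`) and `μ` is singular (`Measure.rnDeriv_eq_zero`). -/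
def StSing : Prop :=
  ∀ (T : ℝ) (D : ℝ → ℝ), 0 < T → Usc T D → NoJump T D → AeZero T D →
    ∃ (μ : Measure ℝ) (Z : Set ℝ), Sing T D μ Z

/-- **Cnt** (120 lines). Counting. Proof. For `l > 0` let `N(l)` be the number of `i ∈ s` with
`m i > l`. Applying the hypothesis to this set, `N l^{3/5} ≤ B N^{1/5}`, so
`N(l) ≤ B^{5/4} l^{-3/4}`. `∑ m i = ∑ ∫_0^x 1_{l < m i} dl = ∫_0^x N(l) dl ≤ 4 B^{5/4} x^{1/4}`. -/
def StCnt : Prop :=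
  ∀ (s : Finset ℕ) (m : ℕ → ℝ) (B x : ℝ), 0 ≤ B → 0 ≤ x → (∀ i ∈ s, 0 ≤ m i ∧ m i ≤ x) →
    (∀ S ⊆ s, ∑ i ∈ S, m i ^ (3 / 5 : ℝ) ≤ B * (S.card : ℝ) ^ (1 / 5 : ℝ)) →
      ∑ i ∈ s, m i ≤ 4 * B ^ (5 / 4 : ℝ) * x ^ (1 / 4 : ℝ)

/-- **Cel** (60 lines, from `StMx`). One cell. Proof. If `Mx D c = Mx D (c + r)` there is nothing to
prove. Otherwise by `StMx` (last claim) there is `t ∈ (c, c + r]` with `D t = Mx D (c + r)`; by `Win`
there is `s ∈ (t - 2r, t - r)`, so `0 ≤ s ≤ c`, with `D t ≤ D s + A (…)`, and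
`D s ≤ Mx D s ≤ Mx D c`; the window `(t - 2r, t)` is contained in `(c - 2r, c + r)`. -/
def StCel : Prop :=
  ∀ (T : ℝ) (D g F : ℝ → ℝ) (A : ℝ), 0 < T → Usc T D → NoJump T D → (∀ t, 0 ≤ g t) →
    (∀ t, 0 ≤ F t) → IntegrableOn g (Icc 0 T) → IntegrableOn F (Icc 0 T) → 0 < A →
    Win T D g F A → ∀ c r : ℝ, 0 < r → 2 * r ≤ c → c + r ≤ T →
      Mx D (c + r) - Mx D c ≤
        A * ((∫ τ in (c - 2 * r)..(c + r), g τ) ^ (5 / 3 : ℝ) * r ^ (-(1 / 3) : ℝ) +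
          ∫ τ in (c - 2 * r)..(c + r), F τ)

/-- the cell number `j` together with its two predecessors -/
def Cl (c r : ℝ) (j : ℕ) : Set ℝ := Ioc (c + j * r - 2 * r) (c + j * r + r)

/-- **Ovl** (100 lines). Overlapping windows. Proof. `Cl c r j` is the disjoint union of three cells
`Ioc (c + (k - 1) r) (c + k r)`, `k = j - 1, j, j + 1` (integers), so every point lies in at most three of
the sets `Cl c r j` and `∑_{j ∈ S} 1_{Cl c r j} ≤ 3 · 1_⋃`; integrate. (The interval integral over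
`(c + j r - 2 r)..(c + j r + r)` is the integral over `Cl c r j`.) -/
def StOvl : Prop :=
  ∀ (h : ℝ → ℝ) (T c r : ℝ) (S : Finset ℕ), (∀ t, 0 ≤ h t) → IntegrableOn h (Icc 0 T) → 0 < r →
    (∀ j ∈ S, Cl c r j ⊆ Icc 0 T) →
      ∑ j ∈ S, (∫ τ in (c + j * r - 2 * r)..(c + j * r + r), h τ) ≤
        3 * ∫ τ in ⋃ j ∈ S, Cl c r j, h τ ∧
      (volume (⋃ j ∈ S, Cl c r j)).toReal ≤ 3 * (S.card : ℝ) * r

/-- **Loc** (250 lines, from `StMx`, `StCnt`, `StCel`, `StOvl`). No mass on an interval with the weak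
bound. Proof. Let `p < p' < q' < q` and `ε > 0`. Choose an open `V` with `Z ∩ (p, q) ⊆ V ⊆ (p, q)` and
so small measure that `∫_V F ≤ ε`. For large `n` let `r = (q' - p')/n`, `c_j = p' + j r`,
`I_j = (c_j, c_j + r]`, `j < n`, `m_j = μ(I_j) = Mx D (c_j + r) - Mx D c_j`, and `J` the set of `j` with
`Cl p' r j ⊆ V`. By `StCel` `m_j ≤ A (D_j^{5/3} r^{-1/3} + F_j)` with `D_j = ∫_{Cl p' r j} g`,
`F_j = ∫_{Cl p' r j} F`. The `j ∈ J` with `m_j ≤ 2 A F_j` contribute at most `6 A ∫_V F ≤ 6 A ε` to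
`∑ m_j` (`StOvl`). For the other `j ∈ J` `m_j^{3/5} ≤ (2A)^{3/5} D_j r^{-1/5}`, and for every set `S` of
such `j`, `∑_S D_j ≤ 3 ∫_{⋃ Cl} g ≤ 3 L (3 |S| r)^{1/5}` (`StOvl`, `WL`), so `StCnt` applies with
`B = (2A)^{3/5} 3^{6/5} L`: they contribute at most `4 B^{5/4} (max m_j)^{1/4} → 0` as `n → ∞` (uniform
continuity of `Mx D`, `StMx`). The `j ∉ J` contribute at most
`μ {x ∈ (p', q'] : dist (x, Vᶜ) ≤ 3 r} → μ ((p', q'] \ V) = 0` as `n → ∞`. So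
`μ (Ioc p' q') ≤ 6 A ε` for all `ε`, and `Ioo p q` is a countable union of such intervals. -/
def StLoc : Prop :=
  ∀ (T : ℝ) (D g F : ℝ → ℝ) (A L p q : ℝ) (μ : Measure ℝ) (Z : Set ℝ), 0 < T → Usc T D →
    NoJump T D → (∀ t, 0 ≤ g t) → (∀ t, 0 ≤ F t) → IntegrableOn g (Icc 0 T) →
    IntegrableOn F (Icc 0 T) → 0 < A → Win T D g F A → 0 ≤ L → 0 ≤ p → p < q → q ≤ T →
    WL T g L p q → Sing T D μ Z → μ (Ioo p q) = 0

/-- **RV** (150 lines, from `StMx`, `StSing`, `StLoc`). The real-variable theorem. Proof. Let `μ, Z` be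
as in `StSing`, and `P = (0, T] \ C`, with `δ_t`, `L_t` for `t ∈ P`. `U = ⋃_{t ∈ P} (max (t - δ_t) 0, t)`
is a countable union of such intervals (Lindelöf), so `μ U = 0` (`StLoc`). The points of `P \ U` are
countably many: for two of them, `t₁ < t₂`, `t₁ ≤ t₂ - δ_{t₂}`, so their intervals are disjoint. A
countable set has measure zero (`Sing.atom`). So `μ (Ioc 0 T) = 0`, `Mx D T = Mx D 0 = D 0` and
`D t ≤ Mx D t ≤ Mx D T = D 0`. -/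
def StRV : Prop :=
  ∀ (T : ℝ) (D g F : ℝ → ℝ) (A : ℝ) (C : Set ℝ), 0 < T → Usc T D → NoJump T D → AeZero T D →
    (∀ t, 0 ≤ g t) → (∀ t, 0 ≤ F t) → IntegrableOn g (Icc 0 T) → IntegrableOn F (Icc 0 T) →
    0 < A → Win T D g F A → C.Countable →
    (∀ t ∈ Ioc 0 T, t ∉ C → ∃ L δ : ℝ, 0 ≤ L ∧ 0 < δ ∧ WL T g L (t - δ) t) →
      ∀ t ∈ Icc 0 T, D t ≤ D 0

/-- **Fin** (80 lines, from `StKK`, `StWkA`, `StRV`). The theorem, given that `DissipationCritical`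
excludes a loss. Proof. `D = defect Ω ν f u G` is upper semicontinuous (`IsWeakSolution.usc`), satisfies
`AeZero` (`ae_left`) and `NoJump` (`noLoss_left`, `StWkA`), `StKK`; `StRV` gives `D t ≤ D 0 = 0`, and
`D t ≥ 0` is the energy inequality. (The case `T ≤ 0` is trivial: for `T = 0` only `t = 0`.) -/
def StFin : Prop :=
  ∀ (Ω : Set E3) (ν T : ℝ) (u₀ : E3 → E3) (f u : ℝ → E3 → E3) (G : ℝ → Fin 3 → E3 → E3),
    IsOpen Ω → Bornology.IsBounded Ω → 0 < ν → IsWeakSolution Ω ν T u₀ f u G →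
      (∀ t ∈ Ioc 0 T, DissipationCritical Ω G t → NoLoss Ω u t) → ∀ C : Set ℝ, C.Countable →
        (∀ t ∈ Ioc 0 T, WeakGradient Ω G t ∨ (t ∈ C ∧ DissipationCritical Ω G t)) →
          ∀ t ∈ Icc 0 T, defect Ω ν f u G t = 0

end Pool.Agent.Helper83.WC
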