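import Pool.Agent.Helper83.WC.St
import Pool.Agent.Helper7.NU.Defs

/-!
# Project WC, second part: weak-in-time Lions-Shinbrot classes

The weak endpoint `u ∈ L^{4,∞}(0, T; L⁴)` of the class of Lions (which contains all the classes
`L^{q,∞}(0, T; L^p)`, `1/q = min (1/2 - 1/p, 1 - 3/p)`, `3 < p ≤ ∞`), combined with the weak gradient
class and the Type I times. Every `StXyz` is a proposition; a module proves
`theorem wXyz (h₁ : StA) … : StXyz` in the file `Pool/Agent/Helper83/WC/M_Xyz.lean`, namespace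
`Pool.Agent.Helper83.WC`.
-/

set_option autoImplicit false

open MeasureTheory Set Filter Topology
open scoped ENNReal

noncomputable section

namespace Pool.Agent.Helper83.WC

open Pool.Agent.Helper52.NSE (E3 MemH1s IsWeakSolution gradSq kin defect nm gsq
  IsSmoothBoundedDomain lpNorm)
open Pool.Agent.Helper7.NT (Bf gp NoLoss)
open Pool.Agent.Helper7.NU (TypeISup)
open Pool.Agent.Helper60.EC (fn)
open Pool.Agent.Helper83.CR (DissipationCritical)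

/-- the exponent `q` with `1/q = min (1/2 - 1/p, 1 - 3/p)` (`q = 2` for `p = ∞`, since
`(∞ : ℝ≥0∞).toReal = 0`) -/
def timeExpW (p : ℝ≥0∞) : ℝ := (min (1 / 2 - 1 / p.toReal) (1 - 3 / p.toReal))⁻¹

/-- For some `p ∈ (3, ∞]` the function `u` belongs to `L^{q,∞}(L^p(Ω))` on a left neighbourhood of
`t`, where `1/q = min (1/2 - 1/p, 1 - 3/p)`: `|{s ∈ (t - δ, t) : ‖u(s)‖_p > l}| ≤ C l^(-q)` for all
`l > 0`. -/
def WeakLions (Ω : Set E3) (u : ℝ → E3 → E3) (t : ℝ) : Prop :=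
  ∃ p : ℝ≥0∞, 3 < p ∧ ∃ C δ : ℝ, 0 < δ ∧ ∀ l : ℝ, 0 < l →
    volume {s | s ∈ Ioo (t - δ) t ∧ 0 ≤ s ∧ ENNReal.ofReal l < lpNorm Ω p (u s)} ≤
      ENNReal.ofReal (C * l ^ (-timeExpW p))

/-- the norm of `u τ` in `L⁴(Ω)` -/
def nq (Ω : Set E3) (u : ℝ → E3 → E3) (τ : ℝ) : ℝ := (eLpNorm (u τ) 4 (volume.restrict Ω)).toReal

/-- the inequality for the increase of `D` on a window of length `2 r`, with the `L⁴` norms -/
def Win4 (T : ℝ) (D g b F : ℝ → ℝ) (A : ℝ) : Prop :=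
  ∀ t r : ℝ, 0 < r → 2 * r ≤ t → t ≤ T → ∃ s ∈ Ioo (t - 2 * r) (t - r),
    D t ≤ D s + A * (Real.sqrt ((∫ τ in (t - 2 * r)..t, g τ) / r) *
      (∫ τ in (t - 2 * r)..t, b τ) + ∫ τ in (t - 2 * r)..t, F τ)

/-- `b ∈ L^{2,∞}(p, q)`, in terms of integrals over measurable sets -/
def WL4 (T : ℝ) (b : ℝ → ℝ) (L p q : ℝ) : Prop :=
  ∀ E : Set ℝ, MeasurableSet E → E ⊆ Ioo p q ∩ Icc 0 T →
    ∫ τ in E, b τ ≤ L * (volume E).toReal ^ (1 / 2 : ℝ)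

/-- **Bqi** (80 lines). Measurability and integrability of the `L⁴` norm. Proof. For almost every
`τ ∈ [0, T]` (`MemH1s Ω (u τ) (G τ)`) `‖u τ‖₆ ≤ C √gsq (G τ)` (`sobolev`, `ael_six`) and
`‖u τ‖₂ ≤ √K`, so `‖u τ‖₄ ≤ ‖u τ‖₂^{1/4} ‖u τ‖₆^{3/4} < ∞` and `‖u τ‖₄² ≤ C' (1 + gsq (G τ))`.
Measurability: `hoT_meas` (Helper7/NT/HoT). -/
def StBqi : Prop :=
  ∀ (Ω : Set E3) (ν T : ℝ) (u₀ : E3 → E3) (f u : ℝ → E3 → E3) (G : ℝ → Fin 3 → E3 → E3),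
    IsOpen Ω → Bornology.IsBounded Ω → IsWeakSolution Ω ν T u₀ f u G →
      AEStronglyMeasurable (nq Ω u) (volume.restrict (Icc 0 T)) ∧
      IntegrableOn (fun τ => nq Ω u τ ^ 2) (Icc 0 T) ∧
      ∀ᵐ τ ∂(volume.restrict (Icc 0 T)), eLpNorm (u τ) 4 (volume.restrict Ω) < ⊤

/-- **Inp** (150 lines). Reduction to `p = 4`. Let `q = timeExpW p`. Proof. Case `p ≥ 4` (or `p = ∞`):
`‖v‖₄ ≤ ‖v‖₂^{1-θ} ‖v‖_p^θ` with `1/4 = (1-θ)/2 + θ/p`, that is `θ = q/4`; as `‖u s‖₂ ≤ √K` for all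
`s ∈ [0, T]`, `l < ‖u s‖₄` implies `‖u s‖_p > (l / K')^{4/q}`, a set of measure at most
`C (l / K')^{-4}`. Case `3 < p < 4`: `‖v‖₄ ≤ ‖v‖_p^{1-θ} ‖v‖₆^θ` with `1/4 = (1-θ)/p + θ/6`, and then
also `1/4 = (1-θ)/q + θ/2`; so `l < ‖u s‖₄` implies `‖u s‖_p > l^{4/q}` or `‖u s‖₆ > l²` (otherwise
`‖u s‖₄ ≤ l^{4(1-θ)/q + 2θ} = l`), sets of measure at most `C l^{-4}` and `l^{-4} ∫ ‖u s‖₆² ds`
(Chebyshev; `‖u s‖₆ ≤ C √gsq (G s)` almost everywhere). -/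
def StInp : Prop :=
  ∀ (Ω : Set E3) (ν T : ℝ) (u₀ : E3 → E3) (f u : ℝ → E3 → E3) (G : ℝ → Fin 3 → E3 → E3),
    IsOpen Ω → Bornology.IsBounded Ω → IsWeakSolution Ω ν T u₀ f u G → ∀ t ∈ Ioc 0 T,
      WeakLions Ω u t → ∃ C δ : ℝ, 0 ≤ C ∧ 0 < δ ∧ ∀ l : ℝ, 0 < l →
        volume {s | s ∈ Ioo (t - δ) t ∧ 0 ≤ s ∧ l < nq Ω u s} ≤ ENNReal.ofReal (C * l ^ (-4 : ℝ))

/-- **Lyr** (80 lines). From the distribution function to integrals over sets. Proof. With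
`m = |E| > 0` and `l₀ = m^{-1/4}`: `∫_E n² = ∫_0^∞ 2 l |E ∩ {n > l}| dl ≤
m l₀² + ∫_{l₀}^∞ 2 C l^{-3} dl = m l₀² + C l₀^{-2} = (1 + C) m^{1/2}` (layer cake formula, in
`[0, ∞]`). -/
def StLyr : Prop :=
  ∀ (T t δ C : ℝ) (n : ℝ → ℝ), (∀ s, 0 ≤ n s) →
    AEStronglyMeasurable n (volume.restrict (Icc 0 T)) → 0 ≤ C → 0 < δ → t ≤ T →
    (∀ l : ℝ, 0 < l → volume {s | s ∈ Ioo (t - δ) t ∧ 0 ≤ s ∧ l < n s} ≤
      ENNReal.ofReal (C * l ^ (-4 : ℝ))) →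
    WL4 T (fun s => n s ^ 2) (1 + C) (t - δ) t

/-- **Wq** (150 lines, from `StIdl`, `StBqi`). The window inequality with `L⁴` norms. Let
`w = (t - 2r, t)`, `g = gradSq`, `b = nq²`. Proof. By Chebyshev the set of `s ∈ (t - 2r, t - r)` with
`g s > (3/r) ∫_w g` has measure at most `r/3`, and so has the set with `b s > (3/r) ∫_w b`; so there
is `s ∈ (t - 2r, t - r)` with `MemH1s Ω (u s) (G s)`, `g s ≤ (3/r) ∫_w g`, `b s ≤ (3/r) ∫_w b`. By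
`StIdl` with `σ = s`
`D t - D s ≤ ν (t - s) g s + 2 √K ∫_w fn + ∫_s^t |Bf (u τ) (G s) (u τ - u s)|` and (Hoelder's inequality
with the exponents `4, 2, 4`, directly) `|Bf (u τ) (G s) (u τ - u s)| ≤ C √(g s) ‖u τ‖₄ (‖u τ‖₄ + ‖u s‖₄) ≤
C √(g s) (2 b τ + b s)` for almost every `τ`, so the integral is at most
`C √((3/r) ∫_w g) (2 ∫_w b + 6 ∫_w b)`. -/
def StWq : Prop :=
  ∀ (Ω : Set E3) (ν T : ℝ) (u₀ : E3 → E3) (f u : ℝ → E3 → E3) (G : ℝ → Fin 3 → E3 → E3),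
    IsOpen Ω → Bornology.IsBounded Ω → 0 < ν → IsWeakSolution Ω ν T u₀ f u G →
      ∃ A : ℝ, 0 < A ∧ Win4 T (defect Ω ν f u G) (fun τ => gradSq Ω (G τ))
        (fun τ => nq Ω u τ ^ 2) (fun τ => gradSq Ω (G τ) + fn Ω f τ) A

/-- **Celq** (60 lines, from `StMx`; the same proof as `StCel`, file `M_Cel.lean`). One cell. Proof.
If `Mx D c = Mx D (c + r)` there is nothing to prove. Otherwise by `StMx` (last claim) there is
`t ∈ (c, c + r]` with `D t = Mx D (c + r)`; by `Win4` there is `s ∈ (t - 2r, t - r)`, so `0 ≤ s ≤ c`,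
with `D t ≤ D s + A (…)`, and `D s ≤ Mx D s ≤ Mx D c`; the window `(t - 2r, t)` is contained in
`(c - 2r, c + r)`. -/
def StCelq : Prop :=
  ∀ (T : ℝ) (D g b F : ℝ → ℝ) (A : ℝ), 0 < T → Usc T D → NoJump T D → (∀ t, 0 ≤ g t) →
    (∀ t, 0 ≤ b t) → (∀ t, 0 ≤ F t) → IntegrableOn g (Icc 0 T) → IntegrableOn b (Icc 0 T) →
    IntegrableOn F (Icc 0 T) → 0 < A → Win4 T D g b F A →
    ∀ c r : ℝ, 0 < r → 2 * r ≤ c → c + r ≤ T →
      Mx D (c + r) - Mx D c ≤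
        A * (Real.sqrt ((∫ τ in (c - 2 * r)..(c + r), g τ) / r) *
          (∫ τ in (c - 2 * r)..(c + r), b τ) + ∫ τ in (c - 2 * r)..(c + r), F τ)

/-- **Den** (80 lines). A singular measure has infinite density at almost all of its points. Proof.
`μ` and the Lebesgue measure are mutually singular, so the derivative `volume.rnDeriv μ` vanishes
`μ`-almost everywhere (`Measure.rnDeriv_eq_zero`), and `volume (closedBall x r) / μ (closedBall x r)`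
tends to it as `r → 0+` for `μ`-almost every `x` (`Besicovitch.ae_tendsto_rnDeriv`). -/
def StDen : Prop :=
  ∀ (μ : Measure ℝ) (Z : Set ℝ), IsFiniteMeasure μ → MeasurableSet Z → volume Z = 0 → μ Zᶜ = 0 →
    ∀ᵐ x ∂μ, ∀ l δ : ℝ, 0 < l → 0 < δ → ∃ ρ ∈ Ioo 0 δ,
      ENNReal.ofReal (2 * l * ρ) ≤ μ (Metric.closedBall x ρ)

/-- **Stp** (120 lines). Stopping radii and the covering lemma of Vitali. Proof. For `x ∈ E` let
`R x` be the supremum of the `ρ > 0` with `μ (closedBall x ρ) ≥ 2 l ρ`; it is positive and at most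
`μ(ℝ) / (2 l) ≤ m / (2 l)`. Choose such a `ρ x` with `ρ x > R x / 2`. Then
`μ (closedBall x (25 ρ x)) < 50 l ρ x`. Apply
`Vitali.exists_disjoint_subfamily_covering_enlargement_closedBall` (with `τ = 5`) to the balls
`closedBall x (5 ρ x)`, `x ∈ E`; the disjoint subfamily `S` is countable (balls of positive radius in
`ℝ`) and the balls `closedBall x (25 ρ x)`, `x ∈ S`, cover `E`. -/
def StStp : Prop :=
  ∀ (μ : Measure ℝ) (E : Set ℝ) (l m : ℝ), IsFiniteMeasure μ → 0 < l → μ univ ≤ ENNReal.ofReal m →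
    (∀ x ∈ E, ∃ ρ : ℝ, 0 < ρ ∧ ENNReal.ofReal (2 * l * ρ) ≤ μ (Metric.closedBall x ρ)) →
    ∃ (S : Set ℝ) (ρ : ℝ → ℝ), S ⊆ E ∧ S.Countable ∧
      (∀ x ∈ S, 0 < ρ x ∧ 2 * l * ρ x ≤ m ∧
        ENNReal.ofReal (2 * l * ρ x) ≤ μ (Metric.closedBall x (ρ x))) ∧
      S.PairwiseDisjoint (fun x => Metric.closedBall x (5 * ρ x)) ∧
      μ E ≤ ∑' x : S, ENNReal.ofReal (50 * l * ρ x)

/-- **Abs** (100 lines). The sum over disjoint stopping intervals. Proof. Split `S` into three parts.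
(1) `l ρ ≤ A F`: contribution at most `A ε`. For the others `l ρ ≤ A √(g / (2 ρ)) b`. (2) Others with
`b > k √l ρ`: with `R` the sum of their `ρ`, `k √l R ≤ ∑ b ≤ L √(10 R)`, so `l R ≤ 10 L² / k²`.
(3) Others with `b ≤ k √l ρ`: `l ρ ≤ A √(g / (2 ρ)) k √l ρ`, so `l ρ ≤ A² k² g`; contribution at most
`A² k² ε`. -/
def StAbs : Prop :=
  ∀ (S : Finset ℝ) (ρ g b F : ℝ → ℝ) (l A L ε k : ℝ), 0 < l → 0 < A → 0 ≤ L → 0 ≤ ε → 0 < k →
    (∀ x ∈ S, 0 < ρ x ∧ 0 ≤ g x ∧ 0 ≤ b x ∧ 0 ≤ F x ∧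
      2 * l * ρ x ≤ A * (Real.sqrt (g x / (2 * ρ x)) * b x + F x)) →
    ∑ x ∈ S, g x ≤ ε → ∑ x ∈ S, F x ≤ ε →
    (∀ S' ⊆ S, ∑ x ∈ S', b x ≤ L * Real.sqrt (10 * ∑ x ∈ S', ρ x)) →
      ∑ x ∈ S, l * ρ x ≤ A * ε + 10 * L ^ 2 / k ^ 2 + A ^ 2 * k ^ 2 * ε

/-- **Vit** (250 lines, from `StMx`, `StCelq`, `StDen`, `StStp`, `StAbs`). No mass on an interval with
the weak bound. Proof. It suffices to show `μ (Z ∩ Ioo p q) = 0`. Let `ε, k > 0` and choose an open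
`V` with `Z ∩ (p, q) ⊆ V ⊆ (p, q)` and so small measure that `∫_V g ≤ ε`, `∫_V F ≤ ε`. Let
`m = (μ univ).toReal`. For `l > 0` let `E_l` be the set of the `x ∈ Z ∩ (p, q)` at which the
conclusion of `StDen` holds and `closedBall x (5 m / (2 l)) ⊆ V`. `StStp` gives `S, ρ`; for `x ∈ S` the
balls `closedBall x (5 ρ x)` are disjoint and contained in `V`; by `StCelq` with `c = x - ρ x`,
`r = 2 ρ x` (and `Sing.ioc`, `Sing.atom`)
`2 l ρ x ≤ μ (closedBall x (ρ x)) = Mx D (x + ρ x) - Mx D (x - ρ x) ≤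
A (√(g_x / (2 ρ x)) b_x + F_x)`, where `g_x, b_x, F_x` are the integrals over
`(x - 5 ρ x, x + ρ x)`. `StAbs` (for every finite subset of `S`; its last hypothesis is `WL4` for the
union of the intervals `(x - 5 ρ x, x + ρ x)`, `x ∈ S'`, of measure `6 ∑ ρ x`) gives
`μ E_l ≤ 50 (A ε + 10 L² / k² + A² k² ε)`. As `l → ∞` the sets `E_l` increase to almost all of
`Z ∩ (p, q)` (`V` is open). So `μ (Z ∩ (p, q)) ≤ 50 (A ε + 10 L² / k² + A² k² ε)` for all `ε, k > 0`;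
let `ε → 0`, then `k → ∞`. -/
def StVit : Prop :=
  ∀ (T : ℝ) (D g b F : ℝ → ℝ) (A L p q : ℝ) (μ : Measure ℝ) (Z : Set ℝ), 0 < T → Usc T D →
    NoJump T D → (∀ t, 0 ≤ g t) → (∀ t, 0 ≤ b t) → (∀ t, 0 ≤ F t) → IntegrableOn g (Icc 0 T) →
    IntegrableOn b (Icc 0 T) → IntegrableOn F (Icc 0 T) → 0 < A → Win4 T D g b F A → 0 ≤ L →
    0 ≤ p → p < q → q ≤ T → WL4 T b L p q → Sing T D μ Z → μ (Ioo p q) = 0

/-- **RVp** (120 lines, from `StMx`, `StSing`, `StLoc`, `StVit`). The real-variable theorem. Proof.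
Apply `Helper7.NT.rv` to the continuous monotone function `m = Mx D`. Let `t ∈ (0, T]`. If `WL` or
`WL4` holds on `(t - δ, t)`, `μ` vanishes there (`StLoc`, `StVit` on `(max (t - δ) 0, t)`), so `m` is
constant there. If `D t < m t`, then `m` is constant on a left neighbourhood of `t` (upper
semicontinuity of `D`). If `D t = m t` and `D t ≤ D s + M ∫_s^t h`, then `m t ≤ m s + M ∫_s^t h`;
similarly for `AeZero`. -/
def StRVp : Prop :=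
  ∀ (T : ℝ) (D g b F h : ℝ → ℝ) (A B : ℝ) (C : Set ℝ), 0 < T → Usc T D → NoJump T D →
    AeZero T D → (∀ t, 0 ≤ g t) → (∀ t, 0 ≤ b t) → (∀ t, 0 ≤ F t) → (∀ t, 1 ≤ h t) →
    IntegrableOn g (Icc 0 T) → IntegrableOn b (Icc 0 T) → IntegrableOn F (Icc 0 T) →
    IntegrableOn h (Icc 0 T) → 0 < A → Win T D g F A → 0 < B → Win4 T D g b F B → C.Countable →
    (∀ t ∈ Ioc 0 T, (∃ M : ℝ, ∀ δ : ℝ, 0 < δ → ∃ s ∈ Ioo (t - δ) t, 0 ≤ s ∧
        D t ≤ D s + M * ∫ τ in s..t, h τ) ∨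
      (∃ L δ : ℝ, 0 ≤ L ∧ 0 < δ ∧ WL T g L (t - δ) t) ∨
      (∃ L δ : ℝ, 0 ≤ L ∧ 0 < δ ∧ WL4 T b L (t - δ) t) ∨ t ∈ C) →
      ∀ t ∈ Icc 0 T, D t ≤ D 0

/-- **Finp** (120 lines, from `StKK`, `StWkA`, `StWq`, `StBqi`, `StInp`, `StLyr`, `StRVp`). The theorem,
given that `DissipationCritical` excludes a loss. No jump: at Type I times by `sup_left`
(Helper7/NU/Fin), at `WeakLions` times by `StWq` (`√((∫_w g)/r) ∫_w b ≤ √(∫_w g) L √2 → 0`), at the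
others by the hypothesis (`noLoss_left`, `StWkA`). -/
def StFinp : Prop :=
  ∀ (Ω : Set E3) (ν T : ℝ) (u₀ : E3 → E3) (f u : ℝ → E3 → E3) (G : ℝ → Fin 3 → E3 → E3),
    IsOpen Ω → Bornology.IsBounded Ω → 0 < ν → IsWeakSolution Ω ν T u₀ f u G →
      (∀ t ∈ Ioc 0 T, DissipationCritical Ω G t → NoLoss Ω u t) → ∀ C : Set ℝ, C.Countable →
        (∀ t ∈ Ioc 0 T, TypeISup Ω u G t ∨ WeakGradient Ω G t ∨ WeakLions Ω u t ∨
          (t ∈ C ∧ DissipationCritical Ω G t)) →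
          ∀ t ∈ Icc 0 T, defect Ω ν f u G t = 0

end Pool.Agent.Helper83.WC
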